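import Mathlib

/-!
# Uniform compositions theorem (MP_8f2e1c_an): definitions of the metric part

`S` is a compact metric space (later the Riemann sphere with the chordal metric), `K` a monoid of
isometries of `S` (later the rotations of the sphere).
-/

set_option autoImplicit false

namespace Pool.Agent.H84.UC

/-- `cp g s k = g (s+k-1) ∘ ... ∘ g (s+1) ∘ g s`: the maps with index `s, ..., s+k-1` are applied. -/
def cp {S : Type*} (g : ℕ → S → S) (s : ℕ) : ℕ → S → S
  | 0 => fun x => x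
  | k + 1 => fun x => g (s + k) (cp g s k x)

@[simp] theorem cp_zero {S : Type*} (g : ℕ → S → S) (s : ℕ) (x : S) : cp g s 0 x = x := rfl

theorem cp_succ {S : Type*} (g : ℕ → S → S) (s k : ℕ) (x : S) :
    cp g s (k + 1) x = g (s + k) (cp g s k x) := rfl

theorem cp_add {S : Type*} (g : ℕ → S → S) (s k l : ℕ) (x : S) :
    cp g s (k + l) x = cp g (s + k) l (cp g s k x) := by
  induction l with
  | zero => rfl
  | succ l ih =>
    rw [← Nat.add_assoc, cp_succ, cp_succ, ih, Nat.add_assoc]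

theorem cp_succ' {S : Type*} (g : ℕ → S → S) (s k : ℕ) (x : S) :
    cp g s (k + 1) x = cp g (s + 1) k (g s x) := by
  rw [Nat.add_comm k 1, cp_add]; rfl

/-- `cp` only depends on the maps with index in `[s, s+k)` -/
theorem cp_congr {S : Type*} {g g' : ℕ → S → S} {s s' k : ℕ}
    (h : ∀ i < k, g (s + i) = g' (s' + i)) (x : S) : cp g s k x = cp g' s' k x := by
  induction k with
  | zero => rfl
  | succ k ih =>
    rw [cp_succ, cp_succ, ih (fun i hi => h i (by omega)), h k (by omega)]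

theorem cp_shift {S : Type*} (g : ℕ → S → S) (s t k : ℕ) (x : S) :
    cp (fun i => g (s + i)) t k x = cp g (s + t) k x :=
  cp_congr (fun i _ => by rw [Nat.add_assoc]) x

section metric
variable {S : Type*} [MetricSpace S]

theorem cp_lip {g : ℕ → S → S} {L : ℝ} (hL : 0 ≤ L) {s k : ℕ}
    (h : ∀ i < k, ∀ x y, dist (g (s + i) x) (g (s + i) y) ≤ L * dist x y) (x y : S) :
    dist (cp g s k x) (cp g s k y) ≤ L ^ k * dist x y := by
  induction k with
  | zero => simp
  | succ k ih =>
    rw [cp_succ, cp_succ]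
    calc _ ≤ L * dist (cp g s k x) (cp g s k y) := h k (by omega) _ _
      _ ≤ L * (L ^ k * dist x y) := by
          gcongr
          exact ih (fun i hi => h i (by omega))
      _ = L ^ (k + 1) * dist x y := by ring

end metric

/-- A monoid of isometries of `S` with a size function (distance from the identity): the kicks. -/
structure Kick (K S : Type*) [Monoid K] [MulAction K S] [MetricSpace S] where
  nrm : K → ℝ
  nrm_one : nrm 1 = 0
  nrm_mul : ∀ a b : K, nrm (a * b) ≤ 2 * (nrm a + nrm b)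
  dist_smul : ∀ (a : K) (x y : S), dist (a • x) (a • y) = dist x y
  dist_le : ∀ (a : K) (x : S), dist (a • x) x ≤ nrm a
  exists_smul : ∀ x y : S, ∃ a : K, a • x = y ∧ nrm a ≤ 4 * dist x y
  net : ∀ δ : ℝ, 0 < δ → ∀ τ : ℝ, 0 < τ → ∃ Γ : Finset K, (∀ a ∈ Γ, nrm a < δ) ∧
    ∀ a : K, nrm a < δ → ∃ b ∈ Γ, ∀ x : S, dist (a • x) (b • x) ≤ τ

/-- The contraction property (non-autonomous Earle-Hamilton): if all `δ`-pseudo-orbits of `y` stay
at distance `≥ r` from the moving targets `x 1, ..., x J`, then the compositions contract near `y`. -/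
def LC {S : Type*} [MetricSpace S] (H : Set (S → S)) : Prop :=
  ∀ L δ r : ℝ, 1 ≤ L → 0 < δ → 0 < r → ∃ ρ : ℝ, 0 < ρ ∧ ∃ C : ℝ, 1 ≤ C ∧ ∃ l : ℝ, 0 < l ∧ l < 1 ∧
    ∀ (J : ℕ) (g : ℕ → S → S) (x : ℕ → S) (y : S),
      (∀ k, g k ∈ H) → (∀ k a b, dist (g k a) (g k b) ≤ L * dist a b) →
      (∀ p : ℕ → S, p 0 = y → (∀ k < J, dist (p (k + 1)) (g k (p k)) < δ) →
        ∀ k < J, r ≤ dist (p (k + 1)) (x (k + 1))) →
      ∀ y' : S, dist y' y ≤ ρ → dist (cp g 0 J y') (cp g 0 J y) ≤ C * l ^ J * dist y' y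

/-- the kicked maps `x ↦ a t • g t x` -/
def kick {S K : Type*} [SMul K S] (a : ℕ → K) (g : ℕ → S → S) : ℕ → S → S :=
  fun t x => a t • g t x

/-- `X` is a moving disc of radius `r` for the sequence `h`: the centre `X k` is mapped to
`X (k+1)` and distances to the centre are halved within radius `r`. -/
def MovingDisc {S : Type*} [MetricSpace S] (h : ℕ → S → S) (X : ℕ → S) (r : ℝ) : Prop :=
  ∀ k, h k (X k) = X (k + 1) ∧
    ∀ y, dist y (X k) ≤ r → dist (h k y) (X (k + 1)) ≤ dist y (X k) / 2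

end Pool.Agent.H84.UC
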