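import Mathlib
import Pool.Agent.H84.UC.Basic

/-!
# MODULE COUNTA: few words avoid the captured state many times (pure combinatorics)

`W` is the finite set of letters (possible kick words of one block), `step i u` the map of block `i`
under the letter `u`, `Cap i` the captured states at the beginning of block `i` (absorbing), `NS i` the
states from which some letter leads to a captured state.  `pos step ω y i` is the position at the
beginning of block `i`.  Claim: the number of words `ω` of length `b` for which at least `q+1` blocks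
`i < b` start in an uncaptured state of type `NS` is at most `|W|^b (1 - 1/|W|)^q`.

PROOF.  Induction on `b` for all `step, Cap, NS, q, y` (shifted families `fun i => step (i+1)` etc. in
the induction step; split the word with `Fin.cons`, i.e. `Fin.consEquiv` / `Fin.insertNthEquiv`, or
count fibrewise over the first letter).  Let `N = |W|`, and let `A(b, q, y)` be the number of bad words.
`q = 0`: trivial bound `N^b`.  `b = 0`: the set is empty.  Step `b+1`, `q ≥ 1`: let `u` be the first
letter, `y' = step 0 u y`.
* If `Cap 0 y`: all later positions are captured, so no block is counted: `A = 0`.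
* If not `Cap 0 y` and `NS 0 y`: the remaining word must have at least `q` counted blocks, so
  `A = Σ_u A'(b, q-1, y_u)`; for the letter `u` of `hns` the state `y_u` is captured and
  `A'(b, q-1, y_u) = 0` (this uses `q ≥ 1`, the count is `0 < q`).  So
  `A ≤ (N-1) N^b (1-1/N)^(q-1) = N^(b+1) (1-1/N)^q`.
* Otherwise `A = Σ_u A'(b, q, y_u) ≤ N * N^b (1-1/N)^q`.
-/

set_option autoImplicit false

namespace Pool.Agent.H84.UC

/-- extension of a word of length `b` to an infinite word -/
noncomputable def ext {W : Type} [Nonempty W] {b : ℕ} (ω : Fin b → W) (i : ℕ) : W :=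
  if h : i < b then ω ⟨i, h⟩ else Classical.arbitrary W

/-- the position at the beginning of block `i` -/
noncomputable def pos {W S : Type} [Nonempty W] (step : ℕ → W → S → S) {b : ℕ} (ω : Fin b → W)
    (y : S) (i : ℕ) : S := cp (fun j => step j (ext ω j)) 0 i y

theorem countA_ext_zero {W : Type} [Nonempty W] {b : ℕ} (u : W) (ω : Fin b → W) :
    ext (Fin.cons u ω : Fin (b + 1) → W) 0 = u := by
  simp [ext]

theorem countA_ext_succ {W : Type} [Nonempty W] {b : ℕ} (u : W) (ω : Fin b → W) (j : ℕ) :
    ext (Fin.cons u ω : Fin (b + 1) → W) (1 + j) = ext ω j := by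
  unfold ext
  by_cases h : j < b
  · have h1 : 1 + j < b + 1 := by omega
    rw [dif_pos h, dif_pos h1]
    have h2 : (⟨1 + j, h1⟩ : Fin (b + 1)) = Fin.succ ⟨j, h⟩ := by
      ext
      simp [Nat.add_comm]
    rw [h2, Fin.cons_succ]
  · have h1 : ¬ (1 + j < b + 1) := by omega
    rw [dif_neg h, dif_neg h1]

theorem countA_pos_cons {W S : Type} [Nonempty W] (step : ℕ → W → S → S) {b : ℕ} (u : W)
    (ω : Fin b → W) (y : S) (i : ℕ) :
    pos step (Fin.cons u ω : Fin (b + 1) → W) y (i + 1) =
      pos (fun i => step (i + 1)) ω (step 0 u y) i := by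
  unfold pos
  rw [cp_succ', countA_ext_zero]
  have h : cp (fun i => (fun j => step j (ext (Fin.cons u ω : Fin (b + 1) → W) j)) (1 + i)) 0 i
      (step 0 u y) = cp (fun j => step j (ext (Fin.cons u ω : Fin (b + 1) → W) j)) 1 i
      (step 0 u y) :=
    cp_shift (fun j => step j (ext (Fin.cons u ω : Fin (b + 1) → W) j)) 1 0 i (step 0 u y)
  rw [Nat.zero_add, ← h]
  refine cp_congr (fun j _ => ?_) _
  rw [Nat.zero_add]
  show step (1 + j) (ext (Fin.cons u ω : Fin (b + 1) → W) (1 + j)) = step (j + 1) (ext ω j)
  rw [countA_ext_succ, Nat.add_comm 1 j]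

theorem countA_pos_cap {W S : Type} [Nonempty W] (step : ℕ → W → S → S) (Cap : ℕ → S → Prop)
    (hcap : ∀ i u y, Cap i y → Cap (i + 1) (step i u y)) {b : ℕ} (ω : Fin b → W) (y : S)
    (h : Cap 0 y) (i : ℕ) : Cap i (pos step ω y i) := by
  induction i with
  | zero => exact h
  | succ i ih =>
    unfold pos at ih ⊢
    rw [cp_succ]
    simp only [Nat.zero_add]
    exact hcap i _ _ ih

open Classical in
/-- number of counted blocks -/
noncomputable def countA_cnt {W S : Type} [Nonempty W] (step : ℕ → W → S → S) (Cap NS : ℕ → S → Prop)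
    {b : ℕ} (ω : Fin b → W) (y : S) : ℕ :=
  ((Finset.range b).filter (fun i => ¬ Cap i (pos step ω y i) ∧ NS i (pos step ω y i))).card

open Classical in
theorem countA_cnt_cons {W S : Type} [Nonempty W] (step : ℕ → W → S → S) (Cap NS : ℕ → S → Prop)
    {b : ℕ} (u : W) (ω : Fin b → W) (y : S) :
    countA_cnt step Cap NS (Fin.cons u ω : Fin (b + 1) → W) y =
      countA_cnt (fun i => step (i + 1)) (fun i => Cap (i + 1)) (fun i => NS (i + 1)) ω (step 0 u y) +
        if ¬ Cap 0 y ∧ NS 0 y then 1 else 0 := by
  unfold countA_cnt
  rw [Finset.card_filter, Finset.sum_range_succ', Finset.card_filter]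
  simp only [countA_pos_cons]
  rfl

theorem countA_cnt_cap {W S : Type} [Nonempty W] (step : ℕ → W → S → S) (Cap NS : ℕ → S → Prop)
    (hcap : ∀ i u y, Cap i y → Cap (i + 1) (step i u y)) {b : ℕ} (ω : Fin b → W) (y : S)
    (h : Cap 0 y) : countA_cnt step Cap NS ω y = 0 := by
  classical
  unfold countA_cnt
  rw [Finset.card_eq_zero, Finset.filter_eq_empty_iff]
  intro i _ hi
  exact hi.1 (countA_pos_cap step Cap hcap ω y h i)

theorem countA_card_cons {W : Type} [Fintype W] (b : ℕ) (P : (Fin (b + 1) → W) → Prop)
    [DecidablePred P] :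
    ((Finset.univ : Finset (Fin (b + 1) → W)).filter P).card =
      ∑ u : W, ((Finset.univ : Finset (Fin b → W)).filter
        (fun ω => P (Fin.cons u ω : Fin (b + 1) → W))).card := by
  rw [Finset.card_filter]
  simp only [Finset.card_filter]
  rw [← Fintype.sum_prod_type' (f := fun (u : W) (ω : Fin b → W) =>
    if P (Fin.cons u ω : Fin (b + 1) → W) then 1 else 0)]
  exact (Fintype.sum_equiv (Fin.consEquiv (fun _ : Fin (b + 1) => W)) _ _ (fun x => rfl)).symm

open Classical in
theorem countA_main {W S : Type} [Fintype W] [Nonempty W] (b : ℕ) :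
    ∀ (step : ℕ → W → S → S) (Cap NS : ℕ → S → Prop)
      (_ : ∀ i u y, Cap i y → Cap (i + 1) (step i u y))
      (_ : ∀ i y, NS i y → ∃ u, Cap (i + 1) (step i u y)) (q : ℕ) (y : S),
      (((Finset.univ : Finset (Fin b → W)).filter (fun ω => q + 1 ≤
        countA_cnt step Cap NS ω y)).card : ℝ) ≤
      (Fintype.card W : ℝ) ^ b * (1 - 1 / (Fintype.card W : ℝ)) ^ q := by
  have hN : (1:ℝ) ≤ (Fintype.card W : ℝ) := by exact_mod_cast Fintype.card_pos
  have hx0 : 0 ≤ 1 - 1 / (Fintype.card W : ℝ) := by
    have : 1 / (Fintype.card W : ℝ) ≤ 1 := by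
      rw [div_le_one (by linarith)]
      exact hN
    linarith
  induction b with
  | zero =>
    intro step Cap NS _ _ q y
    have h1 : ((Finset.univ : Finset (Fin 0 → W)).filter (fun ω => q + 1 ≤
        countA_cnt step Cap NS ω y)) = ∅ := by
      rw [Finset.filter_eq_empty_iff]
      intro ω _ h
      simp [countA_cnt] at h
    rw [h1]
    simp only [Finset.card_empty, Nat.cast_zero]
    positivity
  | succ b ih =>
    intro step Cap NS hcap hns q y
    rcases q with _ | q
    · rw [pow_zero, mul_one]
      have h1 : (((Finset.univ : Finset (Fin (b + 1) → W)).filter (fun ω => 0 + 1 ≤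
        countA_cnt step Cap NS ω y)).card) ≤ Fintype.card (Fin (b + 1) → W) :=
        Finset.card_le_univ _
      have h2 : Fintype.card (Fin (b + 1) → W) = Fintype.card W ^ (b + 1) := by simp
      rw [h2] at h1
      exact_mod_cast h1
    · by_cases h0 : Cap 0 y
      · have h1 : ((Finset.univ : Finset (Fin (b + 1) → W)).filter (fun ω => (q + 1) + 1 ≤
          countA_cnt step Cap NS ω y)) = ∅ := by
          rw [Finset.filter_eq_empty_iff]
          intro ω _ h
          rw [countA_cnt_cap step Cap NS hcap ω y h0] at h
          omega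
        rw [h1]
        simp only [Finset.card_empty, Nat.cast_zero]
        positivity
      · rw [countA_card_cons, Nat.cast_sum]
        simp only [countA_cnt_cons]
        have hcap' : ∀ i u y, Cap (i + 1) y → Cap (i + 1 + 1) (step (i + 1) u y) :=
          fun i u y h => hcap (i + 1) u y h
        have hns' : ∀ i y, NS (i + 1) y → ∃ u, Cap (i + 1 + 1) (step (i + 1) u y) :=
          fun i y h => hns (i + 1) y h
        by_cases h1 : NS 0 y
        · have h2 : ¬ Cap 0 y ∧ NS 0 y := ⟨h0, h1⟩
          simp only [if_pos h2]
          obtain ⟨u₀, hu₀⟩ := hns 0 y h1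
          have h3 : ∀ u : W, (((Finset.univ : Finset (Fin b → W)).filter (fun ω => q + 1 + 1 ≤
              countA_cnt (fun i => step (i + 1)) (fun i => Cap (i + 1)) (fun i => NS (i + 1)) ω
                (step 0 u y) + 1)).card : ℝ) ≤
              if u = u₀ then 0 else
                (Fintype.card W : ℝ) ^ b * (1 - 1 / (Fintype.card W : ℝ)) ^ q := by
            intro u
            split_ifs with hu
            · subst hu
              have h4 : ((Finset.univ : Finset (Fin b → W)).filter (fun ω => q + 1 + 1 ≤
                countA_cnt (fun i => step (i + 1)) (fun i => Cap (i + 1)) (fun i => NS (i + 1)) ω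
                  (step 0 u y) + 1)) = ∅ := by
                rw [Finset.filter_eq_empty_iff]
                intro ω _ h
                rw [countA_cnt_cap (fun i => step (i + 1)) (fun i => Cap (i + 1)) _ hcap' ω _ hu₀]
                  at h
                omega
              rw [h4]
              simp
            · have h5 := ih (fun i => step (i + 1)) (fun i => Cap (i + 1)) (fun i => NS (i + 1))
                hcap' hns' q (step 0 u y)
              refine le_trans (le_of_eq ?_) h5
              congr 2
              ext ω
              simp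
          refine (Finset.sum_le_sum fun u _ => h3 u).trans (le_of_eq ?_)
          have h6 : (∑ u : W, if u = u₀ then (0:ℝ) else
              (Fintype.card W : ℝ) ^ b * (1 - 1 / (Fintype.card W : ℝ)) ^ q) =
              ((Fintype.card W : ℝ) - 1) *
                ((Fintype.card W : ℝ) ^ b * (1 - 1 / (Fintype.card W : ℝ)) ^ q) := by
            have h7 : ∀ u : W, (if u = u₀ then (0:ℝ) else
              (Fintype.card W : ℝ) ^ b * (1 - 1 / (Fintype.card W : ℝ)) ^ q) =
              (Fintype.card W : ℝ) ^ b * (1 - 1 / (Fintype.card W : ℝ)) ^ q -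
              (if u = u₀ then ((Fintype.card W : ℝ) ^ b *
                (1 - 1 / (Fintype.card W : ℝ)) ^ q) else 0) := by
              intro u
              split_ifs <;> simp
            rw [Finset.sum_congr rfl (fun u _ => h7 u), Finset.sum_sub_distrib]
            simp only [Finset.sum_const, nsmul_eq_mul, Finset.sum_ite_eq', Finset.mem_univ, if_true,
              Finset.card_univ]
            ring
          rw [h6, pow_succ, pow_succ]
          have h8 : (Fintype.card W : ℝ) ≠ 0 := by linarith
          field_simp
        · have h2 : ¬ (¬ Cap 0 y ∧ NS 0 y) := fun h => h1 h.2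
          simp only [if_neg h2, Nat.add_zero]
          have h3 : ∀ u : W, (((Finset.univ : Finset (Fin b → W)).filter (fun ω => q + 1 + 1 ≤
              countA_cnt (fun i => step (i + 1)) (fun i => Cap (i + 1)) (fun i => NS (i + 1)) ω
                (step 0 u y))).card : ℝ) ≤
                (Fintype.card W : ℝ) ^ b * (1 - 1 / (Fintype.card W : ℝ)) ^ (q + 1) :=
            fun u => ih (fun i => step (i + 1)) (fun i => Cap (i + 1)) (fun i => NS (i + 1))
                hcap' hns' (q + 1) (step 0 u y)
          refine (Finset.sum_le_sum fun u _ => h3 u).trans (le_of_eq ?_)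
          rw [Finset.sum_const, nsmul_eq_mul, Finset.card_univ]
          ring

open Classical in
theorem count_ns {W S : Type} [Fintype W] [Nonempty W] (b : ℕ) :
    ∀ (step : ℕ → W → S → S) (Cap NS : ℕ → S → Prop)
      (_ : ∀ i u y, Cap i y → Cap (i + 1) (step i u y))
      (_ : ∀ i y, NS i y → ∃ u, Cap (i + 1) (step i u y)) (q : ℕ) (y : S),
      (((Finset.univ : Finset (Fin b → W)).filter (fun ω => q + 1 ≤
        ((Finset.range b).filter (fun i => ¬ Cap i (pos step ω y i) ∧
          NS i (pos step ω y i))).card)).card : ℝ) ≤
      (Fintype.card W : ℝ) ^ b * (1 - 1 / (Fintype.card W : ℝ)) ^ q := by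
  intro step Cap NS h1 h2 q y
  exact countA_main b step Cap NS h1 h2 q y

end Pool.Agent.H84.UC
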