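import Mathlib

/-!
# MODULE COUNTB: few words have many active letters (Markov inequality)

PROOF.  For a word `ω` let `g ω = ∏ i, (if act (ω i) then Y else 1) = Y ^ #{i | act (ω i)}`.
`∑_ω g ω = (∑_u (if act u then Y else 1))^b` (`Finset.sum_pow'`, `Fintype.sum_pow` or
`Finset.prod_univ_sum`), and `∑_u ... ≤ Y * #act + #W ≤ 2 #W`.  Every `ω` of the filtered set has
`g ω ≥ Y^q` (`1 ≤ Y`), the others have `g ω ≥ 0`.
-/

set_option autoImplicit false

namespace Pool.Agent.H84.UC

open Classical in
theorem count_act {W : Type} [Fintype W] (act : W → Prop) (Y : ℝ) (hY : 1 ≤ Y)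
    (h : Y * ((Finset.univ.filter act).card : ℝ) ≤ Fintype.card W) (b q : ℕ) :
    (((Finset.univ : Finset (Fin b → W)).filter (fun ω => q ≤
      (Finset.univ.filter (fun i => act (ω i))).card)).card : ℝ) * Y ^ q ≤
    (2 * (Fintype.card W : ℝ)) ^ b := by
  have h1 : ∑ ω : Fin b → W, ∏ i, (if act (ω i) then Y else (1:ℝ)) =
      (∑ u : W, if act u then Y else (1:ℝ)) ^ b := by
    have h0 := Finset.prod_univ_sum (fun _ : Fin b => (Finset.univ : Finset W))
      (fun _ u => if act u then Y else (1:ℝ))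
    rw [Fintype.piFinset_univ] at h0
    rw [← h0]
    simp
  have h2 : (∑ u : W, if act u then Y else (1:ℝ)) ≤ 2 * (Fintype.card W : ℝ) := by
    rw [Finset.sum_ite]
    simp only [Finset.sum_const, nsmul_eq_mul, mul_one]
    have h3 : (((Finset.univ : Finset W).filter (fun u => ¬ act u)).card : ℝ) ≤
        Fintype.card W := by
      exact_mod_cast Finset.card_le_univ _
    linarith [mul_comm Y ((Finset.univ.filter act).card : ℝ)]
  have h2' : 0 ≤ (∑ u : W, if act u then Y else (1:ℝ)) := by
    refine Finset.sum_nonneg fun u _ => ?_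
    split_ifs <;> linarith
  have h3 : ∀ ω : Fin b → W, ∏ i, (if act (ω i) then Y else (1:ℝ)) =
      Y ^ (Finset.univ.filter (fun i => act (ω i))).card := by
    intro ω
    rw [Finset.prod_ite]
    simp
  have h4 : ∀ ω : Fin b → W, 0 ≤ ∏ i, (if act (ω i) then Y else (1:ℝ)) := by
    intro ω
    rw [h3]
    exact pow_nonneg (by linarith) _
  calc (((Finset.univ : Finset (Fin b → W)).filter (fun ω => q ≤
      (Finset.univ.filter (fun i => act (ω i))).card)).card : ℝ) * Y ^ q
      = ∑ ω ∈ (Finset.univ : Finset (Fin b → W)).filter (fun ω => q ≤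
      (Finset.univ.filter (fun i => act (ω i))).card), Y ^ q := by
        rw [Finset.sum_const, nsmul_eq_mul]
    _ ≤ ∑ ω ∈ (Finset.univ : Finset (Fin b → W)).filter (fun ω => q ≤
      (Finset.univ.filter (fun i => act (ω i))).card), ∏ i, (if act (ω i) then Y else (1:ℝ)) := by
        refine Finset.sum_le_sum fun ω hω => ?_
        rw [h3]
        exact pow_le_pow_right₀ hY (Finset.mem_filter.mp hω).2
    _ ≤ ∑ ω : Fin b → W, ∏ i, (if act (ω i) then Y else (1:ℝ)) :=
        Finset.sum_le_sum_of_subset_of_nonneg (Finset.filter_subset _ _) (fun ω _ _ => h4 ω)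
    _ = (∑ u : W, if act u then Y else (1:ℝ)) ^ b := h1
    _ ≤ _ := pow_le_pow_left₀ h2' h2 b

end Pool.Agent.H84.UC
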