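import Mathlib
import Pool.Agent.H84.UC.Basic

/-!
# MODULE BLOCK: in a block of `J` windows a point is either steered into the moving disc or the
unkicked block contracts around it (pure metric argument)

`stay`: a kick of size `≤ r/4` keeps the disc of radius `ρ' ∈ [r/2, r]` around the moving centre:
`dist (a • h m y) (X (m+1)) ≤ dist (a • h m y) (h m y) + dist (h m y) (X (m+1)) ≤ r/4 + ρ'/2 ≤ ρ'`
(`κ.dist_le`, `MovingDisc`).

PROOF of `block`.  Put `ε'' = min ε (r/4)`, `δ = ε''/4`.  Take `ρ, C, l` from `hLC` for the constants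
`L`, `δ`, `r/2`.  Choose `J ≥ 1` with `C * l^J ≤ 1/2`.  Put `τ = r / (8 * J * L^J)` and let `Γ` be the
net of `κ.net ε'' τ`; it is not empty (it contains an element close to `1`, `κ.nrm_one`).  Let `γ`
enumerate `Γ` (`Γ.equivFin`).  Let `h, X, k, y` be given.

(A) Suppose there is `p : ℕ → S` with `p 0 = y`, `dist (p (j+1)) (h (k+j) (p j)) < δ` for all `j < J`, and
some `j < J` with `dist (p (j+1)) (X (k+j+1)) < r/2`.  For `i < J` choose `R i` with
`R i • h (k+i) (p i) = p (i+1)`, `nrm (R i) < ε''` (`κ.exists_smul`), and `R' i ∈ Γ` with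
`dist (R i • x) (R' i • x) ≤ τ` for all `x`.  With `p' i = cp (kick R'' h) k i y`, where
`R'' (k+i) = R' i`, one gets by induction `dist (p' i) (p i) ≤ i * L^i * τ` for `i ≤ J`
(`dist (R' i • h (p' i)) (R i • h (p i)) ≤ L * dist (p' i) (p i) + τ`).  Hence
`dist (p' (j+1)) (X (k+j+1)) ≤ r/2 + r/8 ≤ 3/4 * r`, and by `stay` (with `ρ' = 3/4 * r`) this
remains true up to time `J`.  First alternative.

(B) Otherwise every pseudo-orbit satisfies the hypothesis of the `LC` estimate for
`g i = h (k+i)`, `x i = X (k+i)`, base point `y`; second alternative (use `cp_shift`).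
-/

set_option autoImplicit false

namespace Pool.Agent.H84.UC

theorem stay {S K : Type} [MetricSpace S] [Monoid K] [MulAction K S] (κ : Kick K S)
    {h : ℕ → S → S} {X : ℕ → S} {r : ℝ} (hM : MovingDisc h X r) {a : K}
    (ha : κ.nrm a ≤ r / 4) {ρ : ℝ} (h1 : r / 2 ≤ ρ) (h2 : ρ ≤ r) {m : ℕ} {y : S}
    (hy : dist y (X m) ≤ ρ) : dist (a • h m y) (X (m + 1)) ≤ ρ := by
  have e1 := (hM m).2 y (hy.trans h2)
  have e2 := κ.dist_le a (h m y)
  have e3 := dist_triangle (a • h m y) (h m y) (X (m + 1))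
  linarith

/-- in the next `J` windows, starting with window `k`, some word of kicks from `γ` steers `y` into the
disc of radius `3/4 r` around the moving centre -/
def Hit {S K : Type} [MetricSpace S] [Monoid K] [MulAction K S] {n : ℕ} (γ : Fin n → K)
    (h : ℕ → S → S) (X : ℕ → S) (r : ℝ) (J k : ℕ) (y : S) : Prop :=
  ∃ u : Fin J → Fin n, dist (cp (fun j x => (if hj : j < J then γ (u ⟨j, hj⟩) else 1) •
    h (k + j) x) 0 J y) (X (k + J)) ≤ 3 / 4 * r

theorem block {S K : Type} [MetricSpace S] [Monoid K] [MulAction K S] (κ : Kick K S)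
    {H : Set (S → S)} (hLC : LC H) (L r ε : ℝ) (hL : 1 ≤ L) (hr : 0 < r) (hε : 0 < ε) :
    ∃ J : ℕ, 1 ≤ J ∧ ∃ (n : ℕ) (γ : Fin n → K), 0 < n ∧ (∀ i, κ.nrm (γ i) < ε) ∧
      (∀ i, κ.nrm (γ i) ≤ r / 4) ∧ ∃ ρ : ℝ, 0 < ρ ∧
      ∀ (h : ℕ → S → S) (X : ℕ → S), (∀ k, h k ∈ H) →
        (∀ k a b, dist (h k a) (h k b) ≤ L * dist a b) → MovingDisc h X r →
        ∀ (k : ℕ) (y : S),
          Hit γ h X r J k y ∨
          (∀ y', dist y' y ≤ ρ → dist (cp h k J y') (cp h k J y) ≤ dist y' y / 2) := by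
  set ε2 : ℝ := min ε (r / 4) with hε2
  have hε2pos : 0 < ε2 := lt_min hε (by positivity)
  obtain ⟨ρ0, hρ0, C, hC, l, hl0, hl1, hest⟩ := hLC L (ε2 / 4) (r / 2) hL (by positivity)
    (by positivity)
  have hC0 : 0 < C := by linarith
  obtain ⟨n0, hn0⟩ := exists_pow_lt_of_lt_one (show 0 < 1 / (2 * C) by positivity) hl1
  set J : ℕ := n0 + 1 with hJ
  have hCl : C * l ^ J ≤ 1 / 2 := by
    have h1 : l ^ J ≤ l ^ n0 := pow_le_pow_of_le_one hl0.le hl1.le (Nat.le_succ n0)
    have h2 : l ^ J < 1 / (2 * C) := lt_of_le_of_lt h1 hn0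
    have h3 : C * l ^ J < C * (1 / (2 * C)) := mul_lt_mul_of_pos_left h2 hC0
    have h4 : C * (1 / (2 * C)) = 1 / 2 := by field_simp
    linarith
  have hJpos : (0 : ℝ) < J := by exact_mod_cast Nat.succ_pos n0
  have hLJ : 0 < L ^ J := by positivity
  set τ : ℝ := r / (8 * J * L ^ J) with hτ
  have hτpos : 0 < τ := by positivity
  have hτJ : J * L ^ J * τ = r / 8 := by
    rw [hτ]; field_simp
  obtain ⟨Γ, hΓ1, hΓ2⟩ := κ.net ε2 hε2pos τ hτpos
  have hΓne : 0 < Γ.card := by
    obtain ⟨b, hb, -⟩ := hΓ2 1 (by rw [κ.nrm_one]; exact hε2pos)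
    exact Finset.card_pos.2 ⟨b, hb⟩
  refine ⟨J, Nat.succ_le_succ (Nat.zero_le _), Γ.card, fun i => (Γ.equivFin.symm i : K), hΓne,
    fun i => ?_, fun i => ?_, ρ0, hρ0, ?_⟩
  · exact lt_of_lt_of_le (hΓ1 _ (Γ.equivFin.symm i).2) (min_le_left _ _)
  · exact (lt_of_lt_of_le (hΓ1 _ (Γ.equivFin.symm i).2) (min_le_right _ _)).le
  intro h X hH hLip hM k y
  by_cases hA : ∃ p : ℕ → S, p 0 = y ∧ (∀ j < J, dist (p (j + 1)) (h (k + j) (p j)) < ε2 / 4) ∧
      ∃ j < J, dist (p (j + 1)) (X (k + (j + 1))) < r / 2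
  · left
    obtain ⟨p, hp0, hp, j, hj, hpj⟩ := hA
    have hch : ∀ i : Fin J, ∃ v : Fin Γ.card,
        dist ((Γ.equivFin.symm v : K) • h (k + i) (p i)) (p (i + 1)) ≤ τ := by
      intro i
      obtain ⟨a, ha1, ha2⟩ := κ.exists_smul (h (k + i) (p i)) (p (i + 1))
      have ha3 : κ.nrm a < ε2 := by
        have := hp i i.2
        rw [dist_comm] at this
        linarith
      obtain ⟨b, hb, hb2⟩ := hΓ2 a ha3
      refine ⟨Γ.equivFin ⟨b, hb⟩, ?_⟩
      rw [Equiv.symm_apply_apply]
      have := hb2 (h (k + i) (p i))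
      rw [ha1, dist_comm] at this
      exact this
    choose u hu using hch
    set F : ℕ → S → S := fun j x => (if hj : j < J then (Γ.equivFin.symm (u ⟨j, hj⟩) : K) else 1) •
      h (k + j) x with hF
    have hFi : ∀ i (hi : i < J) (x : S), F i x = (Γ.equivFin.symm (u ⟨i, hi⟩) : K) • h (k + i) x := by
      intro i hi x
      simp only [hF]
      rw [dif_pos hi]
    have hind : ∀ i ≤ J, dist (cp F 0 i y) (p i) ≤ i * L ^ i * τ := by
      intro i
      induction i with
      | zero =>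
        intro _
        rw [cp_zero, hp0, dist_self]
        simp
      | succ i ih =>
        intro hi
        have hi' : i < J := hi
        have ih' := ih hi'.le
        rw [cp_succ, Nat.zero_add, hFi i hi']
        set a := (Γ.equivFin.symm (u ⟨i, hi'⟩) : K) with ha
        have e1 : dist (a • h (k + i) (cp F 0 i y)) (a • h (k + i) (p i)) ≤
            L * dist (cp F 0 i y) (p i) := by
          rw [κ.dist_smul]
          exact hLip _ _ _
        have e2 : dist (a • h (k + i) (p i)) (p (i + 1)) ≤ τ := hu ⟨i, hi'⟩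
        have e3 := dist_triangle (a • h (k + i) (cp F 0 i y)) (a • h (k + i) (p i)) (p (i + 1))
        have e4 : L * dist (cp F 0 i y) (p i) ≤ L * (i * L ^ i * τ) :=
          mul_le_mul_of_nonneg_left ih' (by linarith)
        have e5 : τ ≤ L ^ (i + 1) * τ := by
          have : 1 ≤ L ^ (i + 1) := one_le_pow₀ hL
          nlinarith
        have e6 : L * (i * L ^ i * τ) + L ^ (i + 1) * τ = ((i + 1 : ℕ) : ℝ) * L ^ (i + 1) * τ := by
          push_cast
          ring
        linarith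
    have hstart : dist (cp F 0 (j + 1) y) (X (k + (j + 1))) ≤ 3 / 4 * r := by
      have e1 := hind (j + 1) hj
      have e2 : ((j + 1 : ℕ) : ℝ) * L ^ (j + 1) * τ ≤ J * L ^ J * τ := by
        have hj1 : ((j + 1 : ℕ) : ℝ) ≤ J := by exact_mod_cast hj
        have hj2 : L ^ (j + 1) ≤ L ^ J := pow_le_pow_right₀ hL hj
        have hj3 : (0 : ℝ) ≤ L ^ (j + 1) := by positivity
        apply mul_le_mul_of_nonneg_right _ hτpos.le
        exact mul_le_mul hj1 hj2 hj3 hJpos.le
      have e3 := dist_triangle (cp F 0 (j + 1) y) (p (j + 1)) (X (k + (j + 1)))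
      linarith
    have hall : ∀ m, j + 1 ≤ m → m ≤ J → dist (cp F 0 m y) (X (k + m)) ≤ 3 / 4 * r := by
      intro m hm
      induction m, hm using Nat.le_induction with
      | base => intro _; exact hstart
      | succ m hm ih =>
        intro hmJ
        have hm' : m < J := hmJ
        rw [cp_succ, Nat.zero_add, hFi m hm', ← Nat.add_assoc]
        refine stay κ hM ?_ (by linarith) (by linarith) (ih hm'.le)
        exact (lt_of_lt_of_le (hΓ1 _ (Γ.equivFin.symm _).2) (min_le_right _ _)).le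
    exact ⟨u, hall J hj le_rfl⟩
  · right
    intro y' hy'
    have h1 := hest J (fun i => h (k + i)) (fun i => X (k + i)) y (fun i => hH _)
      (fun i => hLip _) ?_ y' hy'
    · rw [cp_shift h k 0 J y', cp_shift h k 0 J y, Nat.add_zero] at h1
      have h2 : C * l ^ J * dist y' y ≤ 1 / 2 * dist y' y :=
        mul_le_mul_of_nonneg_right hCl dist_nonneg
      linarith
    · intro p hp0 hp i hi
      by_contra hc
      push Not at hc
      exact hA ⟨p, hp0, hp, i, hi, hc⟩

end Pool.Agent.H84.UC
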