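import Mathlib
import Pool.Agent.H84.UC.Basic

/-!
# MODULE RECORD: the record argument (pure metric argument)

`b` steps `g 0, ..., g (b-1)`, orbit `y_i = cp g 0 i y`.  Bad steps (`E i`, at most `e` of them) expand
distances to the orbit by at most `2^a`; the other steps halve them within radius `ρ`.

PROOF.  Let `φ i = ∏ k < i, (if E k then 2^a else 1/2)`; `φ 0 = 1`, `φ i ≤ 2^(a*e)` and, if `e'` is the
number of bad steps among all `b`, `φ b = 2^(a e') / 2^(b-e') = 2^((a+1) e') / 2^b ≤ 2^((a+1) e) / 2^b`.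
(a) If `dist x y * 2^(a*e) ≤ ρ`, induction on `i ≤ b` gives
`dist (cp g 0 i x) (y_i) ≤ φ i * dist x y` (it is `≤ ρ`, so `hG` applies).  Take `i = b`.
(b) Let `i ≤ b` be an index where `φ` is maximal on `{0, ..., b}` (`Finset.exists_max_image`), and
`ζ ∈ N` with `dist ζ (y_i) ≤ ρ`.  For `i ≤ j ≤ b` one gets by induction
`dist (cp g i (j-i) ζ) (y_j) ≤ ρ * φ j / φ i` (`≤ ρ`).  For `j = b`: `φ i ≥ φ 0 = 1`.
-/

set_option autoImplicit false

namespace Pool.Agent.H84.UC

open Classical in
/-- the expansion factor up to time `i` -/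
private noncomputable def recPhi (a : ℕ) (E : ℕ → Prop) (i : ℕ) : ℝ :=
  ∏ k ∈ Finset.range i, (if E k then (2 : ℝ) ^ a else 1 / 2)

open Classical in
private theorem recPhi_succ (a : ℕ) (E : ℕ → Prop) (i : ℕ) :
    recPhi a E (i + 1) = recPhi a E i * (if E i then (2 : ℝ) ^ a else 1 / 2) := by
  unfold recPhi
  rw [Finset.prod_range_succ]

private theorem recPhi_zero (a : ℕ) (E : ℕ → Prop) : recPhi a E 0 = 1 := by
  unfold recPhi
  simp

private theorem recPhi_pos (a : ℕ) (E : ℕ → Prop) (i : ℕ) : 0 < recPhi a E i := by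
  classical
  unfold recPhi
  refine Finset.prod_pos fun k _ => ?_
  split_ifs <;> positivity

open Classical in
private theorem recPhi_eq (a : ℕ) (E : ℕ → Prop) (i : ℕ) :
    recPhi a E i * 2 ^ i = 2 ^ ((a + 1) * ((Finset.range i).filter E).card) := by
  induction i with
  | zero => simp [recPhi_zero]
  | succ i ih =>
    rw [recPhi_succ, Finset.range_add_one, Finset.filter_insert]
    by_cases h : E i
    · rw [if_pos h, if_pos h, Finset.card_insert_of_notMem (by simp)]
      calc recPhi a E i * 2 ^ a * 2 ^ (i + 1) = (recPhi a E i * 2 ^ i) * 2 ^ (a + 1) := by ring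
        _ = 2 ^ ((a + 1) * (((Finset.range i).filter E).card + 1)) := by
            rw [ih, ← pow_add]
            congr 1
    · rw [if_neg h, if_neg h, ← ih]
      ring

open Classical in
private theorem recPhi_le (a : ℕ) (E : ℕ → Prop) (i : ℕ) :
    recPhi a E i ≤ 2 ^ (a * ((Finset.range i).filter E).card) := by
  induction i with
  | zero => simp [recPhi_zero]
  | succ i ih =>
    rw [recPhi_succ, Finset.range_add_one, Finset.filter_insert]
    by_cases h : E i
    · rw [if_pos h, if_pos h, Finset.card_insert_of_notMem (by simp)]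
      calc recPhi a E i * 2 ^ a ≤ 2 ^ (a * ((Finset.range i).filter E).card) * 2 ^ a :=
            mul_le_mul_of_nonneg_right ih (by positivity)
        _ = 2 ^ (a * (((Finset.range i).filter E).card + 1)) := by
            rw [← pow_add]
            congr 1
    · rw [if_neg h, if_neg h]
      have := recPhi_pos a E i
      linarith

open Classical in
theorem record {S : Type} [MetricSpace S] (g : ℕ → S → S) (b a e : ℕ) (y : S) (ρ : ℝ) (hρ : 0 < ρ)
    (E : ℕ → Prop)
    (hE : ∀ i < b, E i → ∀ x, dist (g i x) (g i (cp g 0 i y)) ≤ 2 ^ a * dist x (cp g 0 i y))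
    (hG : ∀ i < b, ¬ E i → ∀ x, dist x (cp g 0 i y) ≤ ρ →
      dist (g i x) (g i (cp g 0 i y)) ≤ dist x (cp g 0 i y) / 2)
    (hcard : ((Finset.range b).filter E).card ≤ e) (N : Finset S)
    (hN : ∀ x, ∃ ζ ∈ N, dist ζ x ≤ ρ) :
    (∃ i ≤ b, ∃ ζ ∈ N, dist (cp g i (b - i) ζ) (cp g 0 b y) ≤ ρ * 2 ^ ((a + 1) * e) / 2 ^ b) ∧
    (∀ x, dist x y * 2 ^ (a * e) ≤ ρ →
      dist (cp g 0 b x) (cp g 0 b y) ≤ dist x y * 2 ^ ((a + 1) * e) / 2 ^ b) := by
  classical
  have hyS : ∀ i, cp g 0 (i + 1) y = g i (cp g 0 i y) := by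
    intro i
    rw [cp_succ, Nat.zero_add]
  -- one step
  have hstep : ∀ i < b, ∀ x, dist x (cp g 0 i y) ≤ ρ →
      dist (g i x) (cp g 0 (i + 1) y) ≤
        (if E i then (2 : ℝ) ^ a else 1 / 2) * dist x (cp g 0 i y) := by
    intro i hi x hx
    rw [hyS]
    by_cases h : E i
    · rw [if_pos h]
      exact hE i hi h x
    · rw [if_neg h]
      refine (hG i hi h x hx).trans (le_of_eq ?_)
      ring
  have hfilt : ∀ i ≤ b, ((Finset.range i).filter E).card ≤ e := by
    intro i hi
    refine le_trans (Finset.card_le_card ?_) hcard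
    exact Finset.filter_subset_filter _ (Finset.range_subset_range.2 hi)
  have hphi : ∀ i ≤ b, recPhi a E i ≤ 2 ^ (a * e) := by
    intro i hi
    refine (recPhi_le a E i).trans ?_
    exact pow_le_pow_right₀ (by norm_num) (Nat.mul_le_mul_left a (hfilt i hi))
  have hphib : recPhi a E b ≤ 2 ^ ((a + 1) * e) / 2 ^ b := by
    rw [le_div_iff₀ (by positivity), recPhi_eq]
    exact pow_le_pow_right₀ (by norm_num) (Nat.mul_le_mul_left _ (hfilt b le_rfl))
  constructor
  · obtain ⟨i, hi, hmax⟩ := Finset.exists_max_image (Finset.range (b + 1)) (recPhi a E)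
      ⟨0, Finset.mem_range.2 (Nat.succ_pos b)⟩
    rw [Finset.mem_range] at hi
    have hib : i ≤ b := Nat.le_of_lt_succ hi
    obtain ⟨ζ, hζ, hd⟩ := hN (cp g 0 i y)
    refine ⟨i, hib, ζ, hζ, ?_⟩
    have hpi := recPhi_pos a E i
    have key : ∀ l, i + l ≤ b →
        dist (cp g i l ζ) (cp g 0 (i + l) y) * recPhi a E i ≤ ρ * recPhi a E (i + l) := by
      intro l
      induction l with
      | zero =>
        intro _
        rw [cp_zero, Nat.add_zero]
        exact mul_le_mul_of_nonneg_right hd hpi.le
      | succ l ih =>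
        intro hl
        have h1 := ih (by omega)
        have h2 : dist (cp g i l ζ) (cp g 0 (i + l) y) ≤ ρ := by
          have h3 := hmax (i + l) (Finset.mem_range.2 (by omega))
          have h4 : dist (cp g i l ζ) (cp g 0 (i + l) y) * recPhi a E i ≤ ρ * recPhi a E i :=
            h1.trans (mul_le_mul_of_nonneg_left h3 hρ.le)
          exact le_of_mul_le_mul_right h4 hpi
        have h3 := hstep (i + l) (by omega) _ h2
        rw [cp_succ, ← Nat.add_assoc, recPhi_succ]
        have h4 : (0 : ℝ) ≤ (if E (i + l) then (2 : ℝ) ^ a else 1 / 2) := by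
          split_ifs <;> positivity
        calc dist (g (i + l) (cp g i l ζ)) (cp g 0 (i + l + 1) y) * recPhi a E i
            ≤ ((if E (i + l) then (2 : ℝ) ^ a else 1 / 2) *
              dist (cp g i l ζ) (cp g 0 (i + l) y)) * recPhi a E i :=
              mul_le_mul_of_nonneg_right h3 hpi.le
          _ = (if E (i + l) then (2 : ℝ) ^ a else 1 / 2) *
              (dist (cp g i l ζ) (cp g 0 (i + l) y) * recPhi a E i) := by ring
          _ ≤ (if E (i + l) then (2 : ℝ) ^ a else 1 / 2) * (ρ * recPhi a E (i + l)) :=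
              mul_le_mul_of_nonneg_left h1 h4
          _ = ρ * (recPhi a E (i + l) * (if E (i + l) then (2 : ℝ) ^ a else 1 / 2)) := by ring
    have h1 := key (b - i) (by omega)
    have h2 : i + (b - i) = b := by omega
    rw [h2] at h1
    have h3 : 1 ≤ recPhi a E i := by
      have := hmax 0 (Finset.mem_range.2 (Nat.succ_pos b))
      rwa [recPhi_zero] at this
    have h4 : dist (cp g i (b - i) ζ) (cp g 0 b y) ≤
        dist (cp g i (b - i) ζ) (cp g 0 b y) * recPhi a E i :=
      le_mul_of_one_le_right dist_nonneg h3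
    refine h4.trans (h1.trans ?_)
    rw [mul_div_assoc]
    exact mul_le_mul_of_nonneg_left hphib hρ.le
  · intro x hx
    have key : ∀ i ≤ b, dist (cp g 0 i x) (cp g 0 i y) ≤ recPhi a E i * dist x y := by
      intro i
      induction i with
      | zero =>
        intro _
        rw [recPhi_zero, one_mul]
        exact le_rfl
      | succ i ih =>
        intro hi
        have h1 := ih (by omega)
        have h2 : dist (cp g 0 i x) (cp g 0 i y) ≤ ρ := by
          refine h1.trans ((mul_le_mul_of_nonneg_right (hphi i (by omega)) dist_nonneg).trans ?_)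
          rw [mul_comm]
          exact hx
        have h3 := hstep i (by omega) _ h2
        have h4 : (0 : ℝ) ≤ (if E i then (2 : ℝ) ^ a else 1 / 2) := by
          split_ifs <;> positivity
        have h5 : cp g 0 (i + 1) x = g i (cp g 0 i x) := by rw [cp_succ, Nat.zero_add]
        rw [h5, recPhi_succ]
        refine h3.trans ((mul_le_mul_of_nonneg_left h1 h4).trans (le_of_eq ?_))
        ring
    refine (key b le_rfl).trans ?_
    rw [mul_comm, mul_div_assoc]
    exact mul_le_mul_of_nonneg_left hphib dist_nonneg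

end Pool.Agent.H84.UC
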