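import Mathlib
import Pool.Agent.H84.UC.Block
import Pool.Agent.H84.UC.Record

/-!
# MODULE SEGDET: the deterministic part of the segment lemma

`b` blocks of `J` windows followed by `lq` windows without kicks.  `act i` = block `i` may have kicks.
Notation: `G = kick R h`, `y_i = cp G 0 (i J) p`.  Block `i` is BAD (`E i`) if `y_i` is not yet within
`3/4 r` of the moving centre and (`Hit` at `y_i` or `act i`); at most `e` blocks are bad.

PROOF.  Block maps `g i = fun x => cp G (i J) J x`; `cp g 0 i = cp G 0 (i J)`, more generally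
`cp g i k = cp G (i J) (k J)` (`cp_add`).  They are `L^J ≤ 2^a` Lipschitz (`cp_lip`, `κ.dist_smul`).  If
block `i < b` is not active then `g i = cp h (i J) J` (`cp_congr`, `one_smul`).  So if `i < b`, `y_i` is not within
`3/4 r` of the centre and not `E i`, then neither `Hit` nor `act i`, and `hblk` gives
`dist (g i x) (g i y_i) ≤ dist x y_i / 2` for `dist x y_i ≤ ρL`.

CASE 1: there is `i ≤ b` with `dist y_i (X (i J)) ≤ 3/4 r`; let `i₀` be the least (`Nat.find`).  Apply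
`record` to `g`, `b := i₀`, `y := p`, `ρ := ρL`, `E`.  For `dist x p ≤ ρ`: part (b) gives
`dist (cp G 0 (i₀ J) x) y_{i₀} ≤ ρ 2^((a+1) e) / 2^i₀ ≤ r/8`, so it is within `7/8 r` of `X (i₀ J)`.  By `stay` with
`7/8 r` this holds at time `b J`.  In the last `lq` windows `R = 1` and `MovingDisc` halves the distance to the
centre each time: at the end it is `≤ 7/8 r / 2^lq < ρ` from `z = X (b J + lq)`.
CASE 2: no such `i ≤ b`.  Apply `record` with `b`: `ζ ∈ N`, `i ≤ b` with
`dist (cp G (i J) ((b-i) J) ζ) y_b ≤ ρL 2^((a+1)e) / 2^b`, and `dist (cp G 0 (b J) x) y_b ≤ ρ 2^((a+1)e) / 2^b` for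
`dist x p ≤ ρ`.  The last `lq` windows expand by at most `L^lq ≤ 2^(a lq)` (`L ≤ 2^a` follows from
`L ≤ L^J ≤ 2^a`, `J ≥ 1`).  So `dist (end of x) z ≤ (ρL + ρ) 2^((a+1)e + a lq) / 2^b < ρ` with
`z = cp G (i J) (b J + lq - i J) ζ`.
-/

set_option autoImplicit false

namespace Pool.Agent.H84.UC

private theorem cp_blocks {S : Type} (G : ℕ → S → S) (J i k : ℕ) (x : S) :
    cp (fun i x => cp G (i * J) J x) i k x = cp G (i * J) (k * J) x := by
  induction k with
  | zero => simp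
  | succ k ih =>
    rw [cp_succ, ih, Nat.succ_mul, cp_add, Nat.add_mul]

open Classical in
theorem seg_det {S K : Type} [MetricSpace S] [Monoid K] [MulAction K S] (κ : Kick K S)
    {L r ρL ρ : ℝ} (hL : 1 ≤ L) (hr : 0 < r) (hρL : 0 < ρL) (hρ : 0 < ρ) {J n a b e lq : ℕ}
    (hJ : 1 ≤ J) (ha : L ^ J ≤ 2 ^ a) (γ : Fin n → K) (h : ℕ → S → S) (X : ℕ → S)
    (hLip : ∀ k x y, dist (h k x) (h k y) ≤ L * dist x y) (hM : MovingDisc h X r)
    (hblk : ∀ (k : ℕ) (y : S), Hit γ h X r J k y ∨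
      (∀ y', dist y' y ≤ ρL → dist (cp h k J y') (cp h k J y) ≤ dist y' y / 2))
    (N : Finset S) (hN : ∀ x, ∃ ζ ∈ N, dist ζ x ≤ ρL)
    (h1 : ρ * 2 ^ ((a + 1) * e) ≤ ρL) (h2 : ρ * 2 ^ ((a + 1) * e) ≤ r / 8)
    (h3 : 7 / 8 * r / 2 ^ lq < ρ) (h4 : (ρL + ρ) * 2 ^ ((a + 1) * e + a * lq) / 2 ^ b < ρ)
    (R : ℕ → K) (act : ℕ → Prop) (hR0 : ∀ k, b * J ≤ k → R k = 1)
    (hR1 : ∀ i < b, ¬ act i → ∀ j < J, R (i * J + j) = 1) (hR2 : ∀ k, κ.nrm (R k) ≤ r / 4)
    (p : S)
    (hE : ((Finset.range b).filter (fun i =>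
      ¬ dist (cp (kick R h) 0 (i * J) p) (X (i * J)) ≤ 3 / 4 * r ∧
      (Hit γ h X r J (i * J) (cp (kick R h) 0 (i * J) p) ∨ act i))).card ≤ e) :
    ∃ z, (z = X (b * J + lq) ∨ ∃ i ≤ b, ∃ ζ ∈ N, z = cp (kick R h) (i * J) (b * J + lq - i * J) ζ) ∧
      ∀ x, dist x p ≤ ρ → dist (cp (kick R h) 0 (b * J + lq) x) z < ρ := by
  set G := kick R h with hG
  have hGx : ∀ t x, G t x = R t • h t x := fun t x => rfl
  have hGlip : ∀ t x y, dist (G t x) (G t y) ≤ L * dist x y := by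
    intro t x y
    rw [hGx, hGx, κ.dist_smul]
    exact hLip t x y
  have hL0 : 0 ≤ L := by linarith
  set g : ℕ → S → S := fun i x => cp G (i * J) J x with hg
  have hcp : ∀ i k x, cp g i k x = cp G (i * J) (k * J) x := fun i k x => cp_blocks G J i k x
  have hcp0 : ∀ k x, cp g 0 k x = cp G 0 (k * J) x := by
    intro k x
    rw [hcp, Nat.zero_mul]
  have hglip : ∀ i x y, dist (g i x) (g i y) ≤ 2 ^ a * dist x y := by
    intro i x y
    calc dist (g i x) (g i y) ≤ L ^ J * dist x y := cp_lip hL0 (fun i _ x y => hGlip _ x y) x y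
      _ ≤ 2 ^ a * dist x y := mul_le_mul_of_nonneg_right ha dist_nonneg
  have hun : ∀ i < b, ¬ act i → ∀ x, g i x = cp h (i * J) J x := by
    intro i hi hact x
    simp only [hg]
    apply cp_congr
    intro j hj
    funext x
    rw [hGx, hR1 i hi hact j hj, one_smul]
  set E : ℕ → Prop := fun i => ¬ dist (cp G 0 (i * J) p) (X (i * J)) ≤ 3 / 4 * r ∧
      (Hit γ h X r J (i * J) (cp G 0 (i * J) p) ∨ act i) with hEdef
  -- good steps
  have hgood : ∀ i < b, ¬ dist (cp G 0 (i * J) p) (X (i * J)) ≤ 3 / 4 * r → ¬ E i →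
      ∀ x, dist x (cp g 0 i p) ≤ ρL →
      dist (g i x) (g i (cp g 0 i p)) ≤ dist x (cp g 0 i p) / 2 := by
    intro i hi hcap hEi x hx
    rw [hcp0] at hx ⊢
    have hno : ¬ Hit γ h X r J (i * J) (cp G 0 (i * J) p) ∧ ¬ act i := by
      constructor
      · intro hh
        exact hEi ⟨hcap, Or.inl hh⟩
      · intro hh
        exact hEi ⟨hcap, Or.inr hh⟩
    rw [hun i hi hno.2, hun i hi hno.2]
    rcases hblk (i * J) (cp G 0 (i * J) p) with hh | hh
    · exact absurd hh hno.1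
    · exact hh x hx
  have hbad : ∀ i x, dist (g i x) (g i (cp g 0 i p)) ≤ 2 ^ a * dist x (cp g 0 i p) :=
    fun i x => hglip i _ _
  have hcardb : ((Finset.range b).filter E).card ≤ e := by
    convert hE
  have h2pos : (0 : ℝ) < 2 ^ ((a + 1) * e) := by positivity
  have hpow : (2 : ℝ) ^ (a * e) ≤ 2 ^ ((a + 1) * e) :=
    pow_le_pow_right₀ (by norm_num) (Nat.mul_le_mul_right _ (Nat.le_succ a))
  have hxp : ∀ x, dist x p ≤ ρ → dist x p * 2 ^ (a * e) ≤ ρL := by
    intro x hx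
    calc dist x p * 2 ^ (a * e) ≤ ρ * 2 ^ ((a + 1) * e) :=
          mul_le_mul hx hpow (by positivity) hρ.le
      _ ≤ ρL := h1
  by_cases hcase : ∃ i ≤ b, dist (cp G 0 (i * J) p) (X (i * J)) ≤ 3 / 4 * r
  · -- case 1
    have hex : ∃ i, i ≤ b ∧ dist (cp G 0 (i * J) p) (X (i * J)) ≤ 3 / 4 * r := hcase
    set i₀ := Nat.find hex with hi₀
    obtain ⟨hi₀b, hi₀c⟩ := Nat.find_spec hex
    rw [← hi₀] at hi₀b hi₀c
    have hmin : ∀ i < i₀, ¬ dist (cp G 0 (i * J) p) (X (i * J)) ≤ 3 / 4 * r := by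
      intro i hi hc
      exact Nat.find_min hex hi ⟨by omega, hc⟩
    have hcard0 : ((Finset.range i₀).filter E).card ≤ e := by
      refine le_trans (Finset.card_le_card ?_) hcardb
      apply Finset.filter_subset_filter
      intro i hi
      rw [Finset.mem_range] at hi ⊢
      omega
    obtain ⟨-, hrec⟩ := record g i₀ a e p ρL hρL E (fun i _ _ x => hbad i x)
      (fun i hi hEi x hx => hgood i (by omega) (hmin i hi) hEi x hx) (by convert hcard0) N hN
    refine ⟨X (b * J + lq), Or.inl rfl, fun x hx => ?_⟩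
    have e1 := hrec x (hxp x hx)
    rw [hcp0, hcp0] at e1
    have e2 : dist x p * 2 ^ ((a + 1) * e) / 2 ^ i₀ ≤ r / 8 := by
      have : dist x p * 2 ^ ((a + 1) * e) ≤ ρ * 2 ^ ((a + 1) * e) :=
        mul_le_mul_of_nonneg_right hx h2pos.le
      have h5 : dist x p * 2 ^ ((a + 1) * e) / 2 ^ i₀ ≤ dist x p * 2 ^ ((a + 1) * e) := by
        apply div_le_self (by positivity)
        exact one_le_pow₀ (by norm_num)
      linarith
    have e3 : dist (cp G 0 (i₀ * J) x) (X (i₀ * J)) ≤ 7 / 8 * r := by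
      have := dist_triangle (cp G 0 (i₀ * J) x) (cp G 0 (i₀ * J) p) (X (i₀ * J))
      linarith
    have e4 : ∀ m, i₀ * J ≤ m → dist (cp G 0 m x) (X m) ≤ 7 / 8 * r := by
      intro m hm
      induction m, hm using Nat.le_induction with
      | base => exact e3
      | succ m hm ih =>
        rw [cp_succ, Nat.zero_add, hGx]
        exact stay κ hM (hR2 m) (by linarith) (by linarith) ih
    have e5 : ∀ k, dist (cp G 0 (b * J + k) x) (X (b * J + k)) ≤ 7 / 8 * r / 2 ^ k := by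
      intro k
      induction k with
      | zero =>
        rw [Nat.add_zero, pow_zero, div_one]
        exact e4 _ (Nat.mul_le_mul_right _ hi₀b)
      | succ k ih =>
        rw [← Nat.add_assoc, cp_succ, Nat.zero_add, hGx, hR0 _ (Nat.le_add_right _ _), one_smul]
        have h6 : dist (cp G 0 (b * J + k) x) (X (b * J + k)) ≤ r := by
          have h7 : 7 / 8 * r / 2 ^ k ≤ 7 / 8 * r := div_le_self (by positivity)
            (one_le_pow₀ (by norm_num))
          linarith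
        have h8 := (hM (b * J + k)).2 _ h6
        have h9 : 7 / 8 * r / 2 ^ (k + 1) = 7 / 8 * r / 2 ^ k / 2 := by
          rw [pow_succ]; field_simp
        rw [h9]
        linarith
    exact lt_of_le_of_lt (e5 lq) h3
  · -- case 2
    push Not at hcase
    obtain ⟨⟨i, hi, ζ, hζ, hdist⟩, hrec⟩ := record g b a e p ρL hρL E (fun i _ _ x => hbad i x)
      (fun i hi hEi x hx => hgood i hi (not_le.2 (hcase i hi.le)) hEi x hx) (by convert hcardb) N hN
    have hiJ : i * J + (b - i) * J = b * J := by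
      rw [← Nat.add_mul, Nat.add_sub_cancel' hi]
    have hlen : b * J + lq - i * J = (b - i) * J + lq := by omega
    refine ⟨cp G (i * J) (b * J + lq - i * J) ζ, Or.inr ⟨i, hi, ζ, hζ, rfl⟩, fun x hx => ?_⟩
    rw [hlen, cp_add, cp_add, Nat.zero_add, hiJ]
    have e1 := hrec x (hxp x hx)
    rw [hcp0, hcp0] at e1
    rw [hcp, hcp0] at hdist
    have e2 : dist (cp G 0 (b * J) x) (cp G (i * J) ((b - i) * J) ζ) ≤
        (ρL + ρ) * 2 ^ ((a + 1) * e) / 2 ^ b := by
      have h5 := dist_triangle (cp G 0 (b * J) x) (cp G 0 (b * J) p)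
        (cp G (i * J) ((b - i) * J) ζ)
      rw [dist_comm (cp G 0 (b * J) p)] at h5
      have h6 : dist x p * 2 ^ ((a + 1) * e) / 2 ^ b ≤ ρ * 2 ^ ((a + 1) * e) / 2 ^ b := by
        gcongr
      have h7 : (ρL + ρ) * 2 ^ ((a + 1) * e) / 2 ^ b =
          ρ * 2 ^ ((a + 1) * e) / 2 ^ b + ρL * 2 ^ ((a + 1) * e) / 2 ^ b := by ring
      rw [h7]
      linarith
    have hL2 : L ≤ 2 ^ a := by
      calc L = L ^ 1 := (pow_one L).symm
        _ ≤ L ^ J := pow_le_pow_right₀ hL hJ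
        _ ≤ 2 ^ a := ha
    have hLq : L ^ lq ≤ 2 ^ (a * lq) := by
      rw [pow_mul]
      exact pow_le_pow_left₀ hL0 hL2 lq
    calc dist (cp G (b * J) lq (cp G 0 (b * J) x))
          (cp G (b * J) lq (cp G (i * J) ((b - i) * J) ζ))
        ≤ L ^ lq * dist (cp G 0 (b * J) x) (cp G (i * J) ((b - i) * J) ζ) :=
          cp_lip hL0 (fun i _ x y => hGlip _ x y) _ _
      _ ≤ 2 ^ (a * lq) * ((ρL + ρ) * 2 ^ ((a + 1) * e) / 2 ^ b) :=
          mul_le_mul hLq e2 dist_nonneg (by positivity)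
      _ = (ρL + ρ) * 2 ^ ((a + 1) * e + a * lq) / 2 ^ b := by
          rw [pow_add]; ring
      _ < ρ := h4

end Pool.Agent.H84.UC
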