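import Mathlib

/-!
# MODULE SEGNUM: choice of the number `q`

PROOF.  With `x = 1 - 1/N ∈ [0, 1)` (`N ≥ 1`) the first factor is at most `A₀ + A₁ q` for constants `A₀, A₁`
and the second is `x^(q-1) + 2^c4 (1/2)^q`; `q x^q → 0` (`tendsto_self_mul_const_pow_of_lt_one`),
`x^q → 0`, etc.  So the product tends to `0` as `q → ∞`.  (For `N = 1`, `x = 0` and `0^(q-1) = 0` for
`q ≥ 2`.)
-/

set_option autoImplicit false

namespace Pool.Agent.H84.UC

theorem seg_num (N nN J B a c1 c3 c4 : ℕ) (hN : 1 ≤ N) :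
    ∃ q : ℕ, 1 ≤ q ∧
      5 * (((1 + (c3 * q + c4 + 1) * nN + B * ((c3 * q + c4) * J + ((a + 1) * (2 * q) + c1)) : ℕ) : ℝ)
        * ((1 - 1 / (N : ℝ)) ^ (q - 1) + 2 ^ c4 / 2 ^ q)) ≤ 1 := by
  have hN' : (1:ℝ) ≤ (N:ℝ) := by exact_mod_cast hN
  set x : ℝ := 1 - 1 / (N:ℝ) with hx
  have hx0 : 0 ≤ x := by
    have : 1 / (N:ℝ) ≤ 1 := by
      rw [div_le_one (by linarith)]
      exact hN'
    rw [hx]
    linarith
  have hx1 : x < 1 := by
    have : 0 < 1 / (N:ℝ) := by positivity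
    rw [hx]
    linarith
  set α : ℝ := c3 * nN + B * (c3 * J + 2 * (a + 1)) with hα
  set β : ℝ := 1 + (c4 + 1) * nN + B * (c4 * J + c1) with hβ
  have h1 : Filter.Tendsto (fun q : ℕ => 5 * ((α * ((q:ℝ) + 1) + β) *
      (x ^ q + 2 ^ c4 * (1 / 2 : ℝ) ^ (q + 1)))) Filter.atTop (nhds (5 * (α * (0 + 0) + β * 0 +
        2 ^ c4 * (1 / 2) * (α * (0 + 0) + β * 0)))) := by
    have t1 := tendsto_self_mul_const_pow_of_lt_one hx0 hx1
    have t2 := tendsto_pow_atTop_nhds_zero_of_lt_one hx0 hx1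
    have t3 := tendsto_self_mul_const_pow_of_lt_one (r := (1/2:ℝ)) (by norm_num) (by norm_num)
    have t4 := tendsto_pow_atTop_nhds_zero_of_lt_one (r := (1/2:ℝ)) (by norm_num) (by norm_num)
    have t5 := ((((t1.add t2).const_mul α).add (t2.const_mul β)).add
      ((((t3.add t4).const_mul α).add (t4.const_mul β)).const_mul (2 ^ c4 * (1 / 2)))).const_mul 5
    refine t5.congr fun q => ?_
    ring
  have h2 : (5 * (α * (0 + 0) + β * 0 + 2 ^ c4 * (1 / 2) * (α * (0 + 0) + β * 0))) = 0 := by ring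
  rw [h2] at h1
  obtain ⟨q, hq⟩ := (h1.eventually (gt_mem_nhds (show (0:ℝ) < 1 by norm_num))).exists
  refine ⟨q + 1, by omega, ?_⟩
  have h3 : ((1 + (c3 * (q + 1) + c4 + 1) * nN + B * ((c3 * (q + 1) + c4) * J +
      ((a + 1) * (2 * (q + 1)) + c1)) : ℕ) : ℝ) = α * ((q:ℝ) + 1) + β := by
    push_cast
    rw [hα, hβ]
    ring
  have h4 : (2:ℝ) ^ c4 / 2 ^ (q + 1) = 2 ^ c4 * (1 / 2 : ℝ) ^ (q + 1) := by
    rw [div_eq_mul_inv, one_div, inv_pow]
  rw [h3, h4, Nat.add_sub_cancel]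
  exact hq.le

end Pool.Agent.H84.UC
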