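import Mathlib
import Pool.Agent.H84.UC.SegDet
import Pool.Agent.H84.UC.SegNum
import Pool.Agent.H84.UC.CountA
import Pool.Agent.H84.UC.CountB


/-!
# MODULE SEGMENT: the segment lemma (assembly of SegDet, SegNum, CountA, CountB, Block)

A segment consists of `Lw` windows (maps `h 0, ..., h (Lw-1)` with a moving disc).  There is a finite
set `Ω` of kick words such that for EVERY point `p` all but a tiny proportion of the words `ω ∈ Ω` send
the whole ball of radius `ρ` around `p` into a ball of radius `ρ` around one of at most `m` points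
`z ∈ Z ω`; the number `m` and the proportion of bad words are uniform in `h, X, p`.

CONSTANTS.  Take `J, n, γ, ρL` from `block κ hLC L r ε`.  Choose `a : ℕ` with `L^J ≤ 2^a`,
`W = (Fin J → Fin n) × Fin A` with `A = 2^(c3+1)`, `c3 = 2 (a+1) (a+2)`, `Y = 2^(c3+1)` (real), `N_W = |W|`,
`act u := u.2 = 0` (exactly `n^J` letters, so `Y * #act = N_W`).  `N` = a finite `ρL`-net of `S`
(compactness, `nN` elements), `ρm = min (min ρL (r/8)) ρmax`, `c1, c2 : ℕ` with `r ≤ 2^c1 * ρm`,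
`ρL ≤ 2^c2 * ρm`, `c4 = a*c1 + c2 + 2`.  `q` from `seg_num N_W nN J B a c1 c3 c4`, `e = 2 q`,
`ρ = ρm / 2^((a+1) e)`, `lq = (a+1) e + c1`, `b = c3 q + c4`, `Lw = b J + lq`, `m = 1 + (b+1) nN`,
`Ω = Fin b → W`.  The hypotheses `h1 .. h4` of `seg_det` hold: `ρ 2^((a+1)e) = ρm`; `7/8 r / 2^lq ≤ 7/8 ρ < ρ`;
`(ρL + ρ) 2^((a+1)e + a lq) / 2^b ≤ 2^(c2+1) ρm 2^(...) < ρ` because
`b = (a+1)(a+2)e + a c1 + c2 + 2`.

KICKS.  `blk u j = if u.2 = 0 ∧ j < J then γ (u.1 j) else 1`, and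
`R ω k = if k < b J then blk (ext ω (k / J)) (k % J) else 1` (`ext` of CountA).
`step i u x = cp (fun j x => blk u j • h (i J + j) x) 0 J x`.  With `G = kick (R ω) h`,
`pos step ω p i = cp G 0 (i J) p` for `i ≤ b` (induction on `i`, `cp_add`, `cp_congr`: for `j < J`, `i < b` one
has `(i J + j) / J = i`, `(i J + j) % J = j`).

STATES for `count_ns`.  `Cap i y := dist y (X (i J)) ≤ 3/4 r` (absorbing: `stay` with `ρ = 3/4 r`, `J` times,
all kicks have `nrm ≤ r/4`; `nrm 1 = 0`); `NS i y := Hit γ h X r J (i J) y` (the letter `(u, 0)` leads to a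
captured state).

`Z ω = {X Lw} ∪ {cp G (i J) (Lw - i J) ζ : i ≤ b, ζ ∈ N}` (`Finset.image` on `range (b+1) ×ˢ N`).

BAD WORDS for `p`: (A) `ω` with at least `q` indices `i < b` with `¬ Cap i y_i ∧ NS i y_i`
(`count_ns` with `q - 1`: at most `N_W^b (1 - 1/N_W)^(q-1)` words), (B) at least `q` active letters
(`count_act`: at most `(2 N_W)^b / Y^q = N_W^b 2^c4 / 2^q` words).  If `ω` is neither, then
`#{i < b | ¬ Cap i y_i ∧ (NS i y_i ∨ act (ω i))} ≤ 2q = e` and `seg_det` (with this `R ω`, `act i := act (ext ω i)`)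
gives the required `z ∈ Z ω`.  So the number of words without such a `z` is at most
`|Ω| ((1 - 1/N_W)^(q-1) + 2^c4 / 2^q)`, and `seg_num` gives the claim (cast to `ℕ`).
-/

set_option autoImplicit false

namespace Pool.Agent.H84.UC

/-- kicks of one letter: only the letters with second component `0` kick -/
def segBlk {K : Type} [Monoid K] {n J A : ℕ} (γ : Fin n → K) (u : (Fin J → Fin n) × Fin A)
    (j : ℕ) : K :=
  if h : j < J ∧ u.2.val = 0 then γ (u.1 ⟨j, h.1⟩) else 1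

/-- kicks of a word -/
noncomputable def segR {K : Type} [Monoid K] {n J A b : ℕ} [Nonempty ((Fin J → Fin n) × Fin A)]
    (γ : Fin n → K) (ω : Fin b → (Fin J → Fin n) × Fin A) (k : ℕ) : K :=
  if k < b * J then segBlk γ (ext ω (k / J)) (k % J) else 1

/-- the map of one block -/
def segStep {S K : Type} [Monoid K] [MulAction K S] {n J A : ℕ} (γ : Fin n → K)
    (h : ℕ → S → S) (i : ℕ) (u : (Fin J → Fin n) × Fin A) (x : S) : S :=
  cp (fun j x => segBlk γ u j • h (i * J + j) x) 0 J x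

theorem segBlk_ind {K : Type} [Monoid K] {n J A : ℕ} (γ : Fin n → K) (P : K → Prop) (h1 : P 1)
    (h2 : ∀ i, P (γ i)) (u : (Fin J → Fin n) × Fin A) (j : ℕ) : P (segBlk γ u j) := by
  unfold segBlk
  split_ifs with h
  · exact h2 _
  · exact h1

theorem segR_ind {K : Type} [Monoid K] {n J A b : ℕ} [Nonempty ((Fin J → Fin n) × Fin A)]
    (γ : Fin n → K) (P : K → Prop) (h1 : P 1)
    (h2 : ∀ i, P (γ i)) (ω : Fin b → (Fin J → Fin n) × Fin A) (k : ℕ) : P (segR γ ω k) := by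
  unfold segR
  split_ifs with h
  · exact segBlk_ind γ P h1 h2 _ _
  · exact h1

theorem segR_eq {K : Type} [Monoid K] {n J A b : ℕ} [Nonempty ((Fin J → Fin n) × Fin A)]
    (γ : Fin n → K) (ω : Fin b → (Fin J → Fin n) × Fin A) {i j : ℕ} (hi : i < b) (hj : j < J) :
    segR γ ω (i * J + j) = segBlk γ (ext ω i) j := by
  have hJ : 0 < J := by omega
  have h1 : i * J + j < b * J := by
    calc i * J + j < i * J + J := by omega
      _ = (i + 1) * J := by ring
      _ ≤ b * J := Nat.mul_le_mul_right _ hi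
  have h2 : (i * J + j) / J = i := by
    rw [Nat.add_comm, Nat.add_mul_div_right _ _ hJ, Nat.div_eq_of_lt hj, Nat.zero_add]
  have h3 : (i * J + j) % J = j := by
    rw [Nat.add_comm, Nat.add_mul_mod_self_right, Nat.mod_eq_of_lt hj]
  unfold segR
  rw [if_pos h1, h2, h3]

theorem seg_pos {S K : Type} [MetricSpace S] [Monoid K] [MulAction K S] {n J A b : ℕ}
    [Nonempty ((Fin J → Fin n) × Fin A)] (γ : Fin n → K) (h : ℕ → S → S)
    (ω : Fin b → (Fin J → Fin n) × Fin A) (p : S) : ∀ i ≤ b,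
    pos (segStep γ h) ω p i = cp (kick (segR γ ω) h) 0 (i * J) p := by
  intro i
  induction i with
  | zero => intro _; simp [pos]
  | succ i ih =>
    intro hi
    have h1 := ih (by omega)
    have h2 : pos (segStep γ h) ω p (i + 1) = segStep γ h i (ext ω i) (pos (segStep γ h) ω p i) := by
      unfold pos
      rw [cp_succ, Nat.zero_add]
    rw [h2, h1, Nat.succ_mul, cp_add]
    unfold segStep
    apply cp_congr
    intro j hj
    funext x
    simp only [kick, Nat.zero_add]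
    rw [segR_eq γ ω hi hj]

theorem seg_stay {S K : Type} [MetricSpace S] [Monoid K] [MulAction K S] (κ : Kick K S)
    {h : ℕ → S → S} {X : ℕ → S} {r : ℝ} (hr : 0 < r) (hM : MovingDisc h X r) (R : ℕ → K)
    (hR : ∀ j, κ.nrm (R j) ≤ r / 4) (k : ℕ) (y : S) (hy : dist y (X k) ≤ 3 / 4 * r) (l : ℕ) :
    dist (cp (fun j x => R j • h (k + j) x) 0 l y) (X (k + l)) ≤ 3 / 4 * r := by
  induction l with
  | zero => simpa using hy
  | succ l ih =>
    rw [cp_succ]
    simp only [Nat.zero_add]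
    rw [← Nat.add_assoc]
    exact stay κ hM (hR l) (by linarith) (by linarith) ih

open Classical in
theorem seg_act_card {n J A : ℕ} : A * (Finset.univ.filter
    (fun u : (Fin J → Fin n) × Fin A => u.2.val = 0)).card ≤
    Fintype.card ((Fin J → Fin n) × Fin A) := by
  have h1 : (Finset.univ.filter (fun u : (Fin J → Fin n) × Fin A => u.2.val = 0)).card ≤
      (Finset.univ : Finset (Fin J → Fin n)).card := by
    apply Finset.card_le_card_of_injOn Prod.fst (fun _ _ => Finset.mem_coe.2 (Finset.mem_univ _))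
    intro u hu v hv huv
    have hu2 := (Finset.mem_filter.1 (Finset.mem_coe.1 hu)).2
    have hv2 := (Finset.mem_filter.1 (Finset.mem_coe.1 hv)).2
    apply Prod.ext huv
    apply Fin.ext
    rw [hu2, hv2]
  rw [Fintype.card_prod, Fintype.card_fin, Nat.mul_comm]
  exact Nat.mul_le_mul_right _ (h1.trans (le_of_eq Finset.card_univ))

open Classical in
theorem seg_act_count {W : Type} [Nonempty W] {b : ℕ} (act : W → Prop) (ω : Fin b → W) :
    ((Finset.range b).filter (fun i => act (ext ω i))).card ≤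
      (Finset.univ.filter (fun i => act (ω i))).card := by
  have h1 : (Finset.range b).filter (fun i => act (ext ω i)) ⊆
      (Finset.univ.filter (fun i => act (ω i))).image Fin.val := by
    intro i hi
    rw [Finset.mem_filter, Finset.mem_range] at hi
    rw [Finset.mem_image]
    refine ⟨⟨i, hi.1⟩, Finset.mem_filter.2 ⟨Finset.mem_univ _, ?_⟩, rfl⟩
    have h2 := hi.2
    unfold ext at h2
    rw [dif_pos hi.1] at h2
    exact h2
  exact (Finset.card_le_card h1).trans Finset.card_image_le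

/-- the final points -/
noncomputable def segZ {S : Type} (G : ℕ → S → S) (X : ℕ → S) (N : Finset S) (b J Lw : ℕ) :
    Finset S :=
  open Classical in
  {X Lw} ∪ (Finset.range (b + 1) ×ˢ N).image (fun t => cp G (t.1 * J) (Lw - t.1 * J) t.2)

theorem segZ_card {S : Type} (G : ℕ → S → S) (X : ℕ → S) (N : Finset S) (b J Lw : ℕ) :
    (segZ G X N b J Lw).card ≤ 1 + (b + 1) * N.card := by
  classical
  unfold segZ
  refine (Finset.card_union_le _ _).trans ?_
  apply Nat.add_le_add (le_of_eq (Finset.card_singleton _))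
  refine Finset.card_image_le.trans (le_of_eq ?_)
  rw [Finset.card_product, Finset.card_range]

theorem segZ_mem {S : Type} {G : ℕ → S → S} {X : ℕ → S} {N : Finset S} {b J Lw : ℕ} {z : S}
    (h : z = X Lw ∨ ∃ i ≤ b, ∃ ζ ∈ N, z = cp G (i * J) (Lw - i * J) ζ) :
    z ∈ segZ G X N b J Lw := by
  classical
  unfold segZ
  rcases h with h | ⟨i, hi, ζ, hζ, h⟩
  · rw [h]
    exact Finset.mem_union_left _ (Finset.mem_singleton_self _)
  · apply Finset.mem_union_right
    rw [Finset.mem_image]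
    refine ⟨(i, ζ), Finset.mem_product.2 ⟨Finset.mem_range.2 (by omega), hζ⟩, ?_⟩
    rw [h]

open Classical in
/-- union bound with real bounds -/
theorem seg_union {Ω : Type} [Fintype Ω] (P Q R : Ω → Prop) (hPQR : ∀ ω, P ω → Q ω ∨ R ω) :
    ((Finset.univ.filter P).card : ℝ) ≤ ((Finset.univ.filter Q).card : ℝ) +
      ((Finset.univ.filter R).card : ℝ) := by
  have h1 : Finset.univ.filter P ⊆ Finset.univ.filter Q ∪ Finset.univ.filter R := by
    intro ω hω
    rw [Finset.mem_filter] at hω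
    rw [Finset.mem_union, Finset.mem_filter, Finset.mem_filter]
    rcases hPQR ω hω.2 with h | h
    · exact Or.inl ⟨Finset.mem_univ _, h⟩
    · exact Or.inr ⟨Finset.mem_univ _, h⟩
  exact_mod_cast (Finset.card_le_card h1).trans (Finset.card_union_le _ _)

/-- the numerical hypothesis `h4` -/
theorem seg_h4 {ρL ρm : ℝ} {a q c1 c2 : ℕ} (hρm : 0 < ρm) (h2 : ρL ≤ 2 ^ c2 * ρm) :
    (ρL + ρm / 2 ^ ((a + 1) * (2 * q))) *
      2 ^ ((a + 1) * (2 * q) + a * ((a + 1) * (2 * q) + c1)) /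
      2 ^ (2 * (a + 1) * (a + 2) * q + (a * c1 + c2 + 2)) < ρm / 2 ^ ((a + 1) * (2 * q)) := by
  have h3 : ρm / 2 ^ ((a + 1) * (2 * q)) ≤ ρm := by
    apply div_le_self hρm.le
    exact one_le_pow₀ (by norm_num)
  have h4 : ρL + ρm / 2 ^ ((a + 1) * (2 * q)) ≤ 2 ^ (c2 + 1) * ρm := by
    have : (1 : ℝ) ≤ 2 ^ c2 := one_le_pow₀ (by norm_num)
    rw [pow_succ]
    nlinarith
  rw [div_lt_div_iff₀ (by positivity) (by positivity)]
  calc (ρL + ρm / 2 ^ ((a + 1) * (2 * q))) *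
      2 ^ ((a + 1) * (2 * q) + a * ((a + 1) * (2 * q) + c1)) * 2 ^ ((a + 1) * (2 * q))
      ≤ (2 ^ (c2 + 1) * ρm) *
      2 ^ ((a + 1) * (2 * q) + a * ((a + 1) * (2 * q) + c1)) * 2 ^ ((a + 1) * (2 * q)) := by
        gcongr
    _ = ρm * 2 ^ (2 * (a + 1) * (a + 2) * q + (a * c1 + c2 + 1)) := by
        ring
    _ < ρm * 2 ^ (2 * (a + 1) * (a + 2) * q + (a * c1 + c2 + 2)) := by
        apply mul_lt_mul_of_pos_left _ hρm
        exact pow_lt_pow_right₀ (by norm_num) (by omega)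

theorem seg_h3 {r ρm : ℝ} {a q c1 : ℕ} (hr : 0 < r) (h1 : r ≤ 2 ^ c1 * ρm) :
    7 / 8 * r / 2 ^ ((a + 1) * (2 * q) + c1) < ρm / 2 ^ ((a + 1) * (2 * q)) := by
  rw [pow_add, ← div_div, div_right_comm]
  apply div_lt_div_of_pos_right _ (by positivity)
  rw [div_lt_iff₀ (by positivity)]
  linarith

theorem seg_exists_pow {x y : ℝ} (hy : 0 < y) : ∃ c : ℕ, x ≤ 2 ^ c * y := by
  obtain ⟨c, hc⟩ := pow_unbounded_of_one_lt (x / y) (one_lt_two)
  refine ⟨c, ?_⟩
  rw [div_lt_iff₀ hy] at hc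
  exact hc.le

/-- the numerical conclusion -/
theorem seg_final {M nA nB W x : ℝ} {b c3 c4 q : ℕ} (hM : 0 ≤ M) (hW : 0 ≤ W)
    (hb : b = c3 * q + c4) (hA : nA ≤ W ^ b * x) (hB : nB * (2 ^ (c3 + 1)) ^ q ≤ (2 * W) ^ b)
    (hq : 5 * (M * (x + 2 ^ c4 / 2 ^ q)) ≤ 1) : 5 * (M * (nA + nB)) ≤ W ^ b := by
  have h1 : nB ≤ W ^ b * (2 ^ c4 / 2 ^ q) := by
    have h2 : (2 : ℝ) ^ b = (2 ^ (c3 + 1)) ^ q * (2 ^ c4 / 2 ^ q) := by
      rw [hb, pow_add, pow_succ, mul_pow, ← pow_mul]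
      field_simp
    rw [mul_pow, h2] at hB
    have h3 : (0 : ℝ) < (2 ^ (c3 + 1)) ^ q := by positivity
    nlinarith
  have h4 : nA + nB ≤ W ^ b * (x + 2 ^ c4 / 2 ^ q) := by
    rw [mul_add]; linarith
  calc 5 * (M * (nA + nB)) ≤ 5 * (M * (W ^ b * (x + 2 ^ c4 / 2 ^ q))) := by gcongr
    _ = W ^ b * (5 * (M * (x + 2 ^ c4 / 2 ^ q))) := by ring
    _ ≤ W ^ b * 1 := by gcongr
    _ = W ^ b := mul_one _

open Classical in
theorem segment {S K : Type} [MetricSpace S] [CompactSpace S] [Nonempty S] [Monoid K] [MulAction K S]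
    (κ : Kick K S) {H : Set (S → S)} (hLC : LC H) (L r ε ρmax : ℝ) (hL : 1 ≤ L) (hr : 0 < r)
    (hε : 0 < ε) (hρ : 0 < ρmax) (B : ℕ) :
    ∃ (Ω : Type) (_ : Fintype Ω) (_ : Nonempty Ω) (m Lw : ℕ) (R : Ω → ℕ → K) (ρ : ℝ),
      1 ≤ Lw ∧ (∀ ω k, κ.nrm (R ω k) < ε) ∧ 0 < ρ ∧ ρ ≤ ρmax ∧
      ∀ (h : ℕ → S → S) (X : ℕ → S), (∀ k, h k ∈ H) →
        (∀ k a b, dist (h k a) (h k b) ≤ L * dist a b) → MovingDisc h X r →
        ∃ Z : Ω → Finset S, (∀ ω, (Z ω).card ≤ m) ∧ ∀ p : S,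
          5 * ((m + B * Lw) * (Finset.univ.filter (fun ω : Ω => ¬ ∃ z ∈ Z ω, ∀ x, dist x p ≤ ρ →
            dist (cp (kick (R ω) h) 0 Lw x) z < ρ)).card) ≤ Fintype.card Ω := by
  obtain ⟨J, hJ, n, γ, hn, hγε, hγr, ρL, hρL, hblk⟩ := block κ hLC L r ε hL hr hε
  obtain ⟨a, ha⟩ := pow_unbounded_of_one_lt (L ^ J) (one_lt_two)
  -- the net
  obtain ⟨N, hN⟩ : ∃ N : Finset S, ∀ x, ∃ ζ ∈ N, dist ζ x ≤ ρL := by
    obtain ⟨t, _, htf, ht⟩ := finite_cover_balls_of_compact (isCompact_univ (X := S)) hρL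
    refine ⟨htf.toFinset, fun x => ?_⟩
    have hx := ht (Set.mem_univ x)
    rw [Set.mem_iUnion₂] at hx
    obtain ⟨ζ, hζ, hxζ⟩ := hx
    refine ⟨ζ, htf.mem_toFinset.2 hζ, ?_⟩
    rw [dist_comm]
    exact (Metric.mem_ball.1 hxζ).le
  set ρm : ℝ := min (min ρL (r / 8)) ρmax with hρmdef
  have hρm0 : 0 < ρm := lt_min (lt_min hρL (by linarith)) hρ
  have hρmL : ρm ≤ ρL := (min_le_left _ _).trans (min_le_left _ _)
  have hρmr : ρm ≤ r / 8 := (min_le_left _ _).trans (min_le_right _ _)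
  have hρmx : ρm ≤ ρmax := min_le_right _ _
  obtain ⟨c1, hc1⟩ := seg_exists_pow (x := r) hρm0
  obtain ⟨c2, hc2⟩ := seg_exists_pow (x := ρL) hρm0
  obtain ⟨A, hA⟩ : ∃ A : ℕ, A = 2 ^ (2 * (a + 1) * (a + 2) + 1) := ⟨_, rfl⟩
  have hApos : 0 < A := by rw [hA]; positivity
  haveI : Nonempty (Fin A) := ⟨⟨0, hApos⟩⟩
  haveI : Nonempty (Fin n) := ⟨⟨0, hn⟩⟩
  haveI hWne : Nonempty ((Fin J → Fin n) × Fin A) := inferInstance
  have hWpos : 1 ≤ Fintype.card ((Fin J → Fin n) × Fin A) := Fintype.card_pos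
  obtain ⟨q, hq1, hq⟩ := seg_num (Fintype.card ((Fin J → Fin n) × Fin A)) N.card J B a c1
    (2 * (a + 1) * (a + 2)) (a * c1 + c2 + 2) hWpos
  obtain ⟨b, hb⟩ : ∃ b : ℕ, b = 2 * (a + 1) * (a + 2) * q + (a * c1 + c2 + 2) := ⟨_, rfl⟩
  obtain ⟨lq, hlq⟩ : ∃ lq : ℕ, lq = (a + 1) * (2 * q) + c1 := ⟨_, rfl⟩
  obtain ⟨ρ, hρdef⟩ : ∃ ρ : ℝ, ρ = ρm / 2 ^ ((a + 1) * (2 * q)) := ⟨_, rfl⟩
  have hρ0 : 0 < ρ := by rw [hρdef]; positivity
  have hρm : ρ ≤ ρm := by
    rw [hρdef]
    exact div_le_self hρm0.le (one_le_pow₀ (by norm_num))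
  have hnrm1 : κ.nrm 1 = 0 := κ.nrm_one
  refine ⟨Fin b → (Fin J → Fin n) × Fin A, inferInstance, inferInstance, 1 + (b + 1) * N.card,
    b * J + lq, fun ω => segR γ ω, ρ, ?_, ?_, hρ0, hρm.trans hρmx, ?_⟩
  · have h1 : 1 ≤ b := by omega
    have h2 : 1 ≤ b * J := Nat.mul_pos h1 hJ
    omega
  · intro ω k
    exact segR_ind γ (fun x => κ.nrm x < ε) (by rw [hnrm1]; exact hε) hγε ω k
  intro h X hH hLip hM
  have hRr : ∀ (ω : Fin b → (Fin J → Fin n) × Fin A) k, κ.nrm (segR γ ω k) ≤ r / 4 :=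
    fun ω k => segR_ind γ (fun x => κ.nrm x ≤ r / 4) (by rw [hnrm1]; linarith) hγr ω k
  refine ⟨fun ω => segZ (kick (segR γ ω) h) X N b J (b * J + lq),
    fun ω => segZ_card _ _ _ _ _ _, ?_⟩
  intro p
  -- the two kinds of bad words
  have hbad : ∀ ω : Fin b → (Fin J → Fin n) × Fin A,
      (¬ ∃ z ∈ segZ (kick (segR γ ω) h) X N b J (b * J + lq), ∀ x, dist x p ≤ ρ →
        dist (cp (kick (segR γ ω) h) 0 (b * J + lq) x) z < ρ) →
      (q - 1 + 1 ≤ ((Finset.range b).filter (fun i =>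
        ¬ dist (pos (segStep γ h) ω p i) (X (i * J)) ≤ 3 / 4 * r ∧
          Hit γ h X r J (i * J) (pos (segStep γ h) ω p i))).card) ∨
      (q ≤ (Finset.univ.filter (fun i => (ω i).2.val = 0)).card) := by
    intro ω hω
    by_contra hcon
    obtain ⟨hcA, hcB⟩ := not_or.1 hcon
    rw [not_le] at hcA hcB
    apply hω
    have hcB' : ((Finset.range b).filter (fun i => (ext ω i).2.val = 0)).card < q := by
      refine lt_of_le_of_lt ?_ hcB
      refine le_of_eq_of_le ?_ ((seg_act_count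
        (fun u : (Fin J → Fin n) × Fin A => u.2.val = 0) ω).trans (le_of_eq ?_)) <;> congr!
    have hE : ((Finset.range b).filter (fun i =>
      ¬ dist (cp (kick (segR γ ω) h) 0 (i * J) p) (X (i * J)) ≤ 3 / 4 * r ∧
      (Hit γ h X r J (i * J) (cp (kick (segR γ ω) h) 0 (i * J) p) ∨
        (ext ω i).2.val = 0))).card ≤ 2 * q := by
      have hsub : (Finset.range b).filter (fun i =>
          ¬ dist (cp (kick (segR γ ω) h) 0 (i * J) p) (X (i * J)) ≤ 3 / 4 * r ∧
          (Hit γ h X r J (i * J) (cp (kick (segR γ ω) h) 0 (i * J) p) ∨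
            (ext ω i).2.val = 0)) ⊆
          ((Finset.range b).filter (fun i =>
            ¬ dist (pos (segStep γ h) ω p i) (X (i * J)) ≤ 3 / 4 * r ∧
            Hit γ h X r J (i * J) (pos (segStep γ h) ω p i))) ∪
          ((Finset.range b).filter (fun i => (ext ω i).2.val = 0)) := by
        intro i hi
        rw [Finset.mem_filter] at hi
        obtain ⟨hir, hi1, hi2⟩ := hi
        rw [Finset.mem_union, Finset.mem_filter, Finset.mem_filter]
        have hps := seg_pos γ h ω p i (Finset.mem_range.1 hir).le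
        rcases hi2 with hi2 | hi2
        · left
          refine ⟨hir, ?_⟩
          rw [hps]
          exact ⟨hi1, hi2⟩
        · exact Or.inr ⟨hir, hi2⟩
      have h1 := (Finset.card_le_card hsub).trans (Finset.card_union_le _ _)
      omega
    obtain ⟨z, hz1, hz2⟩ := seg_det κ hL hr hρL hρ0 (b := b) (e := 2 * q) (lq := lq) hJ ha.le γ h X
      hLip hM (hblk h X hH hLip hM) N hN
      (by rw [hρdef, div_mul_cancel₀ _ (by positivity)]; exact hρmL)
      (by rw [hρdef, div_mul_cancel₀ _ (by positivity)]; exact hρmr)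
      (by rw [hρdef, hlq]; exact seg_h3 hr hc1)
      (by rw [hρdef, hlq, hb]; exact seg_h4 hρm0 hc2)
      (segR γ ω) (fun i => (ext ω i).2.val = 0)
      (fun k hk => by unfold segR; rw [if_neg (by omega)])
      (fun i hi hact j hj => by
        rw [segR_eq γ ω hi hj]; unfold segBlk; rw [dif_neg (fun hh => hact hh.2)])
      (hRr ω) p (by convert hE)
    exact ⟨z, segZ_mem hz1, hz2⟩
  -- counting
  have hcapA : ∀ (i : ℕ) (u : (Fin J → Fin n) × Fin A) (y : S), dist y (X (i * J)) ≤ 3 / 4 * r →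
      dist (segStep γ h i u y) (X ((i + 1) * J)) ≤ 3 / 4 * r := by
    intro i u y hy
    rw [Nat.succ_mul]
    exact seg_stay κ hr hM (segBlk γ u) (fun j => segBlk_ind γ (fun x => κ.nrm x ≤ r / 4)
      (by rw [hnrm1]; linarith) hγr u j) (i * J) y hy J
  have hnsA : ∀ (i : ℕ) (y : S), Hit γ h X r J (i * J) y →
      ∃ u : (Fin J → Fin n) × Fin A, dist (segStep γ h i u y) (X ((i + 1) * J)) ≤ 3 / 4 * r := by
    rintro i y ⟨u, hu⟩
    refine ⟨(u, ⟨0, hApos⟩), ?_⟩
    rw [Nat.succ_mul]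
    have h1 : segStep γ h i ((u, ⟨0, hApos⟩) : (Fin J → Fin n) × Fin A) y =
        cp (fun j x => (if hj : j < J then γ (u ⟨j, hj⟩) else 1) • h (i * J + j) x) 0 J y := by
      unfold segStep
      apply cp_congr
      intro j hj
      funext x
      simp only [Nat.zero_add]
      congr 1
      unfold segBlk
      rw [dif_pos ⟨hj, rfl⟩, dif_pos hj]
    rw [h1]
    exact hu
  have hcA := count_ns b (segStep γ h) (fun i y => dist y (X (i * J)) ≤ 3 / 4 * r)
    (fun i y => Hit γ h X r J (i * J) y) hcapA hnsA (q - 1) p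
  have hcB := count_act (fun u : (Fin J → Fin n) × Fin A => u.2.val = 0)
    ((2 : ℝ) ^ (2 * (a + 1) * (a + 2) + 1)) (one_le_pow₀ (by norm_num))
    (by
      have h1 := seg_act_card (n := n) (J := J) (A := A)
      have h2 : ((A : ℕ) : ℝ) = 2 ^ (2 * (a + 1) * (a + 2) + 1) := by
        rw [hA]; push_cast; ring
      have h3 : ((A : ℕ) : ℝ) * ((Finset.univ.filter
          (fun u : (Fin J → Fin n) × Fin A => u.2.val = 0)).card : ℝ) ≤
          Fintype.card ((Fin J → Fin n) × Fin A) := by exact_mod_cast h1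
      rw [← h2]
      convert h3) b q
  have hun := seg_union _ _ _ hbad
  have hfin := seg_final (M := ((1 + (b + 1) * N.card + B * (b * J + lq) : ℕ) : ℝ))
    (W := (Fintype.card ((Fin J → Fin n) × Fin A) : ℝ))
    (x := (1 - 1 / (Fintype.card ((Fin J → Fin n) × Fin A) : ℝ)) ^ (q - 1))
    (Nat.cast_nonneg _) (Nat.cast_nonneg _) hb hcA hcB (by rw [hb, hlq]; exact hq)
  have hcard : (Fintype.card (Fin b → (Fin J → Fin n) × Fin A) : ℝ) =
      (Fintype.card ((Fin J → Fin n) × Fin A) : ℝ) ^ b := by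
    rw [Fintype.card_fun, Fintype.card_fin]
    push_cast
    rfl
  have hgoal : 5 * (((1 + (b + 1) * N.card + B * (b * J + lq) : ℕ) : ℝ) *
      ((Finset.univ.filter (fun ω : Fin b → (Fin J → Fin n) × Fin A =>
        ¬ ∃ z ∈ segZ (kick (segR γ ω) h) X N b J (b * J + lq), ∀ x, dist x p ≤ ρ →
        dist (cp (kick (segR γ ω) h) 0 (b * J + lq) x) z < ρ)).card : ℝ)) ≤
      (Fintype.card (Fin b → (Fin J → Fin n) × Fin A) : ℝ) := by
    rw [hcard]
    refine le_trans ?_ hfin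
    gcongr
    refine le_of_eq_of_le ?_ (hun.trans (le_of_eq ?_)) <;> congr!
  exact_mod_cast hgoal

end Pool.Agent.H84.UC
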