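import Mathlib
import Pool.Agent.H76.Fatou.Sph
import Pool.Agent.H91.Fatou.Chord

/-!
# The Riemann sphere as a compact metric space (chordal metric)
-/

set_option autoImplicit false

open Filter Topology OnePoint
open scoped ComplexConjugate
open Pool.Agent.H44.Fatou
open Pool.Agent.H91.Fatou (chord chord_pt chord_nonneg chord_eq_zero chord_self nn nn_pos
  exists_cball isOpen_cball)

namespace Pool.Agent.H84.UC

/-- the Riemann sphere -/
abbrev Sph : Type := OnePoint ℂ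

theorem nn_sq (x y : ℂ) : nn x y ^ 2 = ‖x‖ ^ 2 + ‖y‖ ^ 2 := by
  unfold nn
  exact Real.sq_sqrt (by positivity)

theorem nn_unit {x y : ℂ} (h : ‖x‖ ^ 2 + ‖y‖ ^ 2 = 1) : nn x y = 1 := by
  unfold nn
  rw [h, Real.sqrt_one]

theorem unit_ne {x y : ℂ} (h : ‖x‖ ^ 2 + ‖y‖ ^ 2 = 1) : x ≠ 0 ∨ y ≠ 0 := by
  by_contra hc
  push Not at hc
  rw [hc.1, hc.2] at h
  simp at h

/-- every point has a unit representative -/
theorem exists_unit (x : Sph) : ∃ v : ℂ × ℂ, ‖v.1‖ ^ 2 + ‖v.2‖ ^ 2 = 1 ∧ pt v.1 v.2 = x := by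
  obtain ⟨v, hv, rfl⟩ := Pool.Agent.H76.Fatou.exists_pt x
  have hv' := Pool.Agent.H76.Fatou.ne_zero_iff.1 hv
  have hn := nn_pos hv'
  refine ⟨(v.1 * ((nn v.1 v.2)⁻¹ : ℝ), v.2 * ((nn v.1 v.2)⁻¹ : ℝ)), ?_, ?_⟩
  · show ‖v.1 * ((nn v.1 v.2)⁻¹ : ℝ)‖ ^ 2 + ‖v.2 * ((nn v.1 v.2)⁻¹ : ℝ)‖ ^ 2 = 1
    rw [norm_mul, norm_mul, Complex.norm_real, Real.norm_eq_abs, abs_of_pos (inv_pos.2 hn),
      mul_pow, mul_pow, ← add_mul, ← nn_sq, ← mul_pow, mul_inv_cancel₀ hn.ne', one_pow]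
  · apply pt_smul
    exact_mod_cast (inv_pos.2 hn).ne'

/-- the chordal distance in terms of unit representatives -/
theorem chord_unit {v w : ℂ × ℂ} (hv : ‖v.1‖ ^ 2 + ‖v.2‖ ^ 2 = 1) (hw : ‖w.1‖ ^ 2 + ‖w.2‖ ^ 2 = 1) :
    chord (pt v.1 v.2) (pt w.1 w.2) = ‖v.1 * w.2 - w.1 * v.2‖ := by
  rw [chord_pt (unit_ne hv) (unit_ne hw), nn_unit hv, nn_unit hw]
  simp

theorem chord_comm (x y : Sph) : chord x y = chord y x := by
  unfold chord
  rw [← norm_neg, neg_sub, mul_comm (√_)]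

theorem inner_le {v w : ℂ × ℂ} (hv : ‖v.1‖ ^ 2 + ‖v.2‖ ^ 2 = 1) (hw : ‖w.1‖ ^ 2 + ‖w.2‖ ^ 2 = 1) :
    ‖v.1 * conj w.1 + v.2 * conj w.2‖ ≤ 1 := by
  calc ‖v.1 * conj w.1 + v.2 * conj w.2‖ ≤ ‖v.1‖ * ‖w.1‖ + ‖v.2‖ * ‖w.2‖ := by
        refine (norm_add_le _ _).trans ?_
        rw [norm_mul, norm_mul, RCLike.norm_conj, RCLike.norm_conj]
    _ ≤ 1 := by nlinarith [sq_nonneg (‖v.1‖ - ‖w.1‖), sq_nonneg (‖v.2‖ - ‖w.2‖)]

theorem chord_triangle (x y z : Sph) : chord x z ≤ chord x y + chord y z := by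
  obtain ⟨u, hu, rfl⟩ := exists_unit x
  obtain ⟨v, hv, rfl⟩ := exists_unit y
  obtain ⟨w, hw, rfl⟩ := exists_unit z
  rw [chord_unit hu hw, chord_unit hu hv, chord_unit hv hw]
  have hvv : v.1 * conj v.1 + v.2 * conj v.2 = 1 := by
    rw [Complex.mul_conj, Complex.mul_conj, Complex.normSq_eq_norm_sq, Complex.normSq_eq_norm_sq]
    exact_mod_cast hv
  have key : u.1 * w.2 - w.1 * u.2 = (u.1 * conj v.1 + u.2 * conj v.2) * (v.1 * w.2 - w.1 * v.2)
      + (w.1 * conj v.1 + w.2 * conj v.2) * (u.1 * v.2 - v.1 * u.2) := by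
    linear_combination -(u.1 * w.2 - w.1 * u.2) * hvv
  rw [key]
  calc _ ≤ ‖u.1 * conj v.1 + u.2 * conj v.2‖ * ‖v.1 * w.2 - w.1 * v.2‖
        + ‖w.1 * conj v.1 + w.2 * conj v.2‖ * ‖u.1 * v.2 - v.1 * u.2‖ := by
        refine (norm_add_le _ _).trans ?_
        rw [norm_mul, norm_mul]
    _ ≤ 1 * ‖v.1 * w.2 - w.1 * v.2‖ + 1 * ‖u.1 * v.2 - v.1 * u.2‖ := by
        gcongr
        · exact inner_le hu hv
        · exact inner_le hw hv
    _ = _ := by ring

/-- the chordal metric; its topology is (definitionally) the topology of `OnePoint ℂ` -/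
@[reducible] noncomputable def sphMetric : MetricSpace Sph :=
  MetricSpace.ofDistTopology chord chord_self chord_comm chord_triangle
    (fun s => by
      constructor
      · intro hs x hx
        obtain ⟨ε, hε, h⟩ := exists_cball (hs.mem_nhds hx)
        exact ⟨ε, hε, fun y hy => h y (by rwa [chord_comm])⟩
      · intro h
        rw [isOpen_iff_mem_nhds]
        intro x hx
        obtain ⟨ε, hε, h⟩ := h x hx
        have h1 : {w | chord w x < ε} ∈ 𝓝 x :=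
          (isOpen_cball x ε).mem_nhds (by show chord x x < ε; rw [chord_self]; exact hε)
        exact mem_of_superset h1 (fun y hy => h y (by rw [chord_comm]; exact hy)))
    (fun _ _ h => chord_eq_zero h)

attribute [instance] sphMetric

theorem dist_eq_chord (x y : Sph) : dist x y = chord x y := rfl

theorem dist_unit {v w : ℂ × ℂ} (hv : ‖v.1‖ ^ 2 + ‖v.2‖ ^ 2 = 1)
    (hw : ‖w.1‖ ^ 2 + ‖w.2‖ ^ 2 = 1) :
    dist (pt v.1 v.2 : Sph) (pt w.1 w.2) = ‖v.1 * w.2 - w.1 * v.2‖ := chord_unit hv hw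

theorem dist_le_one (x y : Sph) : dist x y ≤ 1 := by
  obtain ⟨v, hv, rfl⟩ := exists_unit x
  obtain ⟨w, hw, rfl⟩ := exists_unit y
  rw [dist_unit hv hw]
  have hw' : ‖conj w.2‖ ^ 2 + ‖-conj w.1‖ ^ 2 = 1 := by
    rw [norm_neg, RCLike.norm_conj, RCLike.norm_conj]; linarith
  have := inner_le (v := v) (w := (conj w.2, -conj w.1)) hv hw'
  simp only [map_neg, Complex.conj_conj] at this
  have e : v.1 * w.2 + v.2 * -w.1 = v.1 * w.2 - w.1 * v.2 := by ring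
  rwa [e] at this

/-- distance of two finite points -/
theorem dist_coe (z w : ℂ) : dist (z : Sph) (w : Sph) = ‖z - w‖ / (nn z 1 * nn w 1) := by
  have h := chord_pt (x := z) (y := 1) (x' := w) (y' := 1) (Or.inr one_ne_zero) (Or.inr one_ne_zero)
  rw [Pool.Agent.H76.Fatou.pt_one, Pool.Agent.H76.Fatou.pt_one] at h
  rw [dist_eq_chord, h, mul_one, mul_one]

/-- distance of a finite point to infinity -/
theorem dist_coe_infty (z : ℂ) : dist (z : Sph) (∞ : Sph) = 1 / nn z 1 := by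
  have h := chord_pt (x := z) (y := 1) (x' := 1) (y' := 0) (Or.inr one_ne_zero) (Or.inl one_ne_zero)
  rw [Pool.Agent.H76.Fatou.pt_one, Pool.Agent.H76.Fatou.pt_zero] at h
  rw [dist_eq_chord, h]
  simp [nn]

theorem one_le_nn (z : ℂ) : 1 ≤ nn z 1 := by
  unfold nn
  rw [norm_one, one_pow]
  apply Real.one_le_sqrt.2
  nlinarith [sq_nonneg ‖z‖]

theorem dist_coe_le (z w : ℂ) : dist (z : Sph) (w : Sph) ≤ ‖z - w‖ := by
  rw [dist_coe]
  have h1 := one_le_nn z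
  have h2 := one_le_nn w
  apply div_le_self (norm_nonneg _)
  nlinarith

noncomputable example : CompactSpace Sph := inferInstance
example : (sphMetric.toPseudoMetricSpace.toUniformSpace.toTopologicalSpace : TopologicalSpace Sph)
    = (inferInstance : TopologicalSpace (OnePoint ℂ)) := rfl

end Pool.Agent.H84.UC
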