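import Mathlib
import Pool.Agent.H84.UC.Basic
import Pool.Agent.H84.UC.Sphere

/-!
# MODULE LCP: non-autonomous Earle-Hamilton contraction, targets at infinity, base point 0

`Lift` (H76/Fatou/Sph): holomorphic lift to homogeneous coordinates.

## LCP (`lc_zero`): targets at infinity, base point `0`.
`g k` (`k = 0, 1, ...`) liftable and `L`-Lipschitz; every `δ`-pseudo-orbit `p` of `0` satisfies
`r ≤ dist (p (k+1)) ∞` for `k < J`.  With constants `ρ, C, l` depending only on `L, δ, r`: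
`dist (G y') (G 0) ≤ C l^J dist y' 0` for `dist y' 0 ≤ ρ`, `G = cp g 0 J`.

PROOF.  `dist (z : Sph) ∞ = 1 / nn z 1` (`dist_coe_infty`), so `r ≤ dist z ∞` implies `‖z‖ ≤ 1/r =: R`
(may assume `r ≤ 1`, otherwise with `J ≥ 1` the hypothesis is impossible; or take `R = max 1 (1/r)`).
`dist z w ≤ ‖z - w‖` for finite points (`dist_coe_le`).  Let `ρ₀ = min 1 (δ / (2 L))`,
`V 0 = {z : ℂ | ‖z‖ < ρ₀}`, `V (k+1) = {w : ℂ | ∃ v ∈ V k, dist (w : Sph) (g k v) < δ/2}`.
(1) for `k ≤ J`, `w ∈ V k`, there is `p` with `p 0 = 0`, `p k = w` and steps `< δ` (`k ≥ 1`): by recursion on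
    `k`; in the first step `dist w (g 0 v) < δ/2` and `dist (g 0 v) (g 0 0) ≤ L ρ₀ ≤ δ/2`.  Hence for
    `1 ≤ k ≤ J`: `‖w‖ ≤ R` for `w ∈ V k`; also `V 0` is bounded by `1 ≤ R`.
(2) For `k < J`, `v ∈ V k`: `g k v ≠ ∞` (it is the endpoint of a pseudo-orbit: at distance `0 < r` from `∞`);
    let `ĝ k v = toC (g k v)`.  If `‖w - ĝ k v‖ < δ/2` then `w ∈ V (k+1)`.  `V k` is open.  `ĝ k` is
    differentiable on `V k` (`Lift.differentiableAt`).
(3) Let `Ĝ 0 = id`, `Ĝ (k+1) = ĝ k ∘ Ĝ k`: maps `V 0` to `V k` (`k ≤ J`), differentiable on `V 0`, and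
    `cp g 0 k (z : Sph) = Ĝ k z` for `z ∈ V 0`.
(4) Put `θ = δ / (8 R)`.  Claim: for all `k ≤ J`, all `u : ℂ → ℂ` differentiable on `V k` with `‖u‖ ≤ 1` on
    `V k`, all `z` with `‖z‖ < ρ₀`: `‖deriv (u ∘ Ĝ k) z‖ * (1+θ)^k ≤ 1 / (ρ₀ - ‖z‖)`.
    `k = 0`: Cauchy estimate on the circle of radius `t < ρ₀ - ‖z‖` around `z`, `t → ρ₀ - ‖z‖`
    (or use `2 / (ρ₀ - ‖z‖)` everywhere).  Step `k → k+1`: let `y = Ĝ k z`,
    `U w = u (ĝ k w + θ (ĝ k w - ĝ k y))` for `w ∈ V k`; the argument is within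
    `θ * 2R = δ/4 < δ/2` of `ĝ k w`, so it is in `V (k+1)`: `U` is differentiable on `V k`, bounded by `1`, and
    `deriv (U ∘ Ĝ k) z = (1 + θ) * deriv (u ∘ Ĝ (k+1)) z` by the chain rule.  Apply the claim for `k` to `U`.
(5) `u w = w / R` on `V J`: `‖deriv (Ĝ J) z‖ ≤ (2 R / ρ₀) (1+θ)^(-J)` for `‖z‖ ≤ ρ₀/2`, so by the mean value
    inequality on the disc `‖Ĝ J z - Ĝ J 0‖ ≤ (2 R / ρ₀) (1+θ)^(-J) ‖z‖`.  If `dist y' 0 ≤ ρ := ρ₀/4 ≤ 1/4` then
    `y' = z` is finite and `‖z‖ ≤ 2 dist z 0 ≤ ρ₀/2` (`dist (z) 0 = ‖z‖ / nn z 1`).  So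
    `l = 1/(1+θ)`, `C = max 1 (4 R / ρ₀)`.
-/

set_option autoImplicit false

open Filter Topology OnePoint
open scoped ComplexConjugate
open Pool.Agent.H44.Fatou
open Pool.Agent.H76.Fatou (Lift toC)

namespace Pool.Agent.H84.UC

/-- prolongation of a pseudo-orbit by an exact orbit -/
theorem lcp_ext {δ : ℝ} (hδ : 0 < δ) {g : ℕ → Sph → Sph} {p : ℕ → Sph}
    (hp : ∀ i, dist (p (i + 1)) (g i (p i)) < δ) (k : ℕ) {w : Sph}
    (hw : dist w (g k (p k)) < δ) :
    ∃ p' : ℕ → Sph, (∀ i ≤ k, p' i = p i) ∧ p' (k + 1) = w ∧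
      ∀ i, dist (p' (i + 1)) (g i (p' i)) < δ := by
  refine ⟨fun i => if i ≤ k then p i else cp g (k + 1) (i - (k + 1)) w, ?_, ?_, ?_⟩
  · intro i hi
    simp [hi]
  · have : ¬ (k + 1 ≤ k) := by omega
    simp only [this, if_false, Nat.sub_self, cp_zero]
  · intro i
    rcases lt_trichotomy i k with hi | hi | hi
    · have h1 : i + 1 ≤ k := hi
      have h2 : i ≤ k := hi.le
      simp only [h1, h2, if_true]
      exact hp i
    · subst hi
      have h1 : ¬ (i + 1 ≤ i) := by omega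
      simp only [h1, if_false, le_refl, if_true, Nat.sub_self, cp_zero]
      exact hw
    · have h1 : ¬ (i + 1 ≤ k) := by omega
      have h2 : ¬ (i ≤ k) := by omega
      simp only [h1, h2, if_false]
      obtain ⟨j, rfl⟩ : ∃ j, i = k + 1 + j := ⟨i - (k + 1), by omega⟩
      have h3 : k + 1 + j + 1 - (k + 1) = j + 1 := by omega
      have h4 : k + 1 + j - (k + 1) = j := by omega
      rw [h3, h4, cp_succ, dist_self]
      exact hδ

/-- the domains -/
def lcV (ρ δ : ℝ) (g : ℕ → Sph → Sph) : ℕ → Set ℂ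
  | 0 => {z | ‖z‖ < ρ}
  | k + 1 => {w | ∃ v ∈ lcV ρ δ g k, dist (w : Sph) (g k (v : Sph)) < δ / 2}

/-- the maps in the coordinate -/
noncomputable def lcG (g : ℕ → Sph → Sph) : ℕ → ℂ → ℂ
  | 0 => fun z => z
  | k + 1 => fun z => toC (g k ((lcG g k z : ℂ) : Sph))

theorem lcV_pseudo {L δ ρ : ℝ} (hL : 0 ≤ L) (hδ : 0 < δ) (hρ : L * ρ ≤ δ / 2)
    {g : ℕ → Sph → Sph} (hg : ∀ k a b, dist (g k a) (g k b) ≤ L * dist a b) (k : ℕ) :
    ∀ v ∈ lcV ρ δ g k, ∀ x : Sph, dist x (g k (v : Sph)) < δ / 2 →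
      ∃ p : ℕ → Sph, p 0 = ((0 : ℂ) : Sph) ∧ p (k + 1) = x ∧
        ∀ i, dist (p (i + 1)) (g i (p i)) < δ := by
  induction k with
  | zero =>
    intro v hv x hx
    have hv' : ‖v‖ < ρ := hv
    have h1 : ∀ i, dist (cp g 0 (i + 1) ((0 : ℂ) : Sph)) (g i (cp g 0 i ((0 : ℂ) : Sph))) < δ := by
      intro i
      rw [cp_succ, Nat.zero_add, dist_self]
      exact hδ
    have h2 : dist x (g 0 (cp g 0 0 ((0 : ℂ) : Sph))) < δ := by
      rw [cp_zero]
      have h3 : dist (g 0 (v : Sph)) (g 0 ((0 : ℂ) : Sph)) ≤ δ / 2 := by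
        refine (hg 0 _ _).trans ?_
        have h4 := dist_coe_le v 0
        rw [sub_zero] at h4
        calc L * dist (v : Sph) ((0 : ℂ) : Sph) ≤ L * ρ := by
              gcongr
              exact h4.trans hv'.le
          _ ≤ δ / 2 := hρ
      have h4 := dist_triangle x (g 0 (v : Sph)) (g 0 ((0 : ℂ) : Sph))
      linarith
    obtain ⟨p', hp1, hp2, hp3⟩ := lcp_ext hδ (p := fun i => cp g 0 i ((0 : ℂ) : Sph)) h1 0 h2
    exact ⟨p', by rw [hp1 0 le_rfl]; rfl, hp2, hp3⟩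
  | succ k ih =>
    intro v hv x hx
    obtain ⟨v', hv', hd⟩ := hv
    obtain ⟨p, hp0, hp1, hp2⟩ := ih v' hv' (v : Sph) hd
    have h2 : dist x (g (k + 1) (p (k + 1))) < δ := by
      rw [hp1]
      linarith
    obtain ⟨p', hp1', hp2', hp3'⟩ := lcp_ext hδ hp2 (k + 1) h2
    exact ⟨p', by rw [hp1' 0 (Nat.zero_le _), hp0], hp2', hp3'⟩

theorem norm_le_nn (z : ℂ) : ‖z‖ ≤ Pool.Agent.H91.Fatou.nn z 1 := by
  unfold Pool.Agent.H91.Fatou.nn
  apply Real.le_sqrt_of_sq_le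
  have : (0 : ℝ) ≤ ‖(1 : ℂ)‖ ^ 2 := by positivity
  linarith

theorem nn_le (z : ℂ) : Pool.Agent.H91.Fatou.nn z 1 ≤ 1 + ‖z‖ := by
  unfold Pool.Agent.H91.Fatou.nn
  rw [Real.sqrt_le_left (by positivity), norm_one]
  nlinarith [norm_nonneg z]

theorem norm_le_of_dist_infty {r : ℝ} (hr : 0 < r) {z : ℂ} (h : r ≤ dist (z : Sph) (∞ : Sph)) :
    ‖z‖ ≤ max 1 (1 / r) := by
  rw [dist_coe_infty] at h
  have h1 := one_le_nn z
  have h2 : Pool.Agent.H91.Fatou.nn z 1 ≤ 1 / r := by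
    rw [le_div_iff₀ hr]
    rw [le_div_iff₀ (by linarith)] at h
    linarith
  exact (norm_le_nn z).trans (h2.trans (le_max_right _ _))

/-- LCP: the case of targets at infinity and base point `0` -/
theorem lc_zero (L δ r : ℝ) (hL : 1 ≤ L) (hδ : 0 < δ) (hr : 0 < r) :
    ∃ ρ : ℝ, 0 < ρ ∧ ∃ C : ℝ, 1 ≤ C ∧ ∃ l : ℝ, 0 < l ∧ l < 1 ∧
      ∀ (J : ℕ) (g : ℕ → Sph → Sph),
        (∀ k, Lift (g k)) → (∀ k a b, dist (g k a) (g k b) ≤ L * dist a b) →
        (∀ p : ℕ → Sph, p 0 = ((0 : ℂ) : Sph) → (∀ k < J, dist (p (k + 1)) (g k (p k)) < δ) →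
          ∀ k < J, r ≤ dist (p (k + 1)) (∞ : Sph)) →
        ∀ y' : Sph, dist y' ((0 : ℂ) : Sph) ≤ ρ →
          dist (cp g 0 J y') (cp g 0 J ((0 : ℂ) : Sph)) ≤ C * l ^ J * dist y' ((0 : ℂ) : Sph) := by
  set R : ℝ := max 1 (1 / r) with hR
  have hR1 : 1 ≤ R := le_max_left _ _
  have hR0 : 0 < R := by linarith
  set ρ₀ : ℝ := min 1 (δ / (2 * L)) with hρ₀
  have hL0 : 0 < L := by linarith
  have hρpos : 0 < ρ₀ := lt_min one_pos (by positivity)
  have hρ1 : ρ₀ ≤ 1 := min_le_left _ _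
  have hρL : L * ρ₀ ≤ δ / 2 := by
    calc L * ρ₀ ≤ L * (δ / (2 * L)) := by gcongr; exact min_le_right _ _
      _ = δ / 2 := by field_simp
  set θ : ℝ := δ / (8 * R) with hθ
  have hθ0 : 0 < θ := by positivity
  refine ⟨ρ₀ / 4, by positivity, max 1 (8 * R / ρ₀), le_max_left _ _, 1 / (1 + θ), by positivity,
    ?_, ?_⟩
  · rw [div_lt_one (by positivity)]
    linarith
  intro J g hlift hg hpo y' hy'
  set V := lcV ρ₀ δ g with hV
  set G := lcG g with hG
  have hV0 : V 0 = Metric.ball (0 : ℂ) ρ₀ := by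
    ext z
    rw [mem_ball_zero_iff]
    exact Iff.rfl
  have hGsucc : ∀ k z, G (k + 1) z = toC (g k ((G k z : ℂ) : Sph)) := fun k z => rfl
  -- distance from infinity
  have far : ∀ k < J, ∀ v ∈ V k, ∀ x : Sph, dist x (g k (v : Sph)) < δ / 2 →
      r ≤ dist x (∞ : Sph) := by
    intro k hk v hv x hx
    obtain ⟨p, hp0, hp1, hp2⟩ := lcV_pseudo hL0.le hδ hρL hg k v hv x hx
    have := hpo p hp0 (fun i _ => hp2 i) k hk
    rwa [hp1] at this
  have fin : ∀ k < J, ∀ v ∈ V k, g k (v : Sph) ≠ ∞ := by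
    intro k hk v hv h1
    have := far k hk v hv (g k (v : Sph)) (by rw [dist_self]; positivity)
    rw [h1, dist_self] at this
    linarith
  have coeg : ∀ k < J, ∀ v ∈ V k, ((toC (g k (v : Sph)) : ℂ) : Sph) = g k (v : Sph) :=
    fun k hk v hv => Pool.Agent.H76.Fatou.coe_toC (fin k hk v hv)
  have near : ∀ k < J, ∀ v ∈ V k, ∀ w : ℂ, ‖w - toC (g k (v : Sph))‖ < δ / 2 → w ∈ V (k + 1) := by
    intro k hk v hv w hw
    refine ⟨v, hv, ?_⟩
    rw [← coeg k hk v hv]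
    exact (dist_coe_le _ _).trans_lt hw
  have bdd : ∀ k < J, ∀ w ∈ V (k + 1), ‖w‖ ≤ R := by
    intro k hk w hw
    obtain ⟨v, hv, hd⟩ := hw
    exact norm_le_of_dist_infty hr (far k hk v hv _ hd)
  have memg : ∀ k < J, ∀ v ∈ V k, toC (g k (v : Sph)) ∈ V (k + 1) := by
    intro k hk v hv
    exact near k hk v hv _ (by rw [sub_self, norm_zero]; positivity)
  have diffg : ∀ k < J, ∀ v ∈ V k, DifferentiableAt ℂ (fun w : ℂ => toC (g k (w : Sph))) v :=
    fun k hk v hv => (hlift k).differentiableAt (fin k hk v hv)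
  -- the orbit maps
  have orb : ∀ k ≤ J, ∀ z ∈ V 0, G k z ∈ V k ∧ cp g 0 k (z : Sph) = ((G k z : ℂ) : Sph) ∧
      DifferentiableAt ℂ (G k) z := by
    intro k
    induction k with
    | zero =>
      intro _ z hz
      exact ⟨hz, rfl, differentiableAt_id⟩
    | succ k ih =>
      intro hk z hz
      obtain ⟨h1, h2, h3⟩ := ih (by omega) z hz
      have hk' : k < J := hk
      refine ⟨?_, ?_, ?_⟩
      · rw [hGsucc]
        exact memg k hk' _ h1
      · rw [cp_succ, h2, Nat.zero_add, hGsucc, coeg k hk' _ h1]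
      · have h4 := diffg k hk' _ h1
        have h5 : G (k + 1) = fun z => (fun w : ℂ => toC (g k (w : Sph))) (G k z) := by
          funext z
          exact hGsucc k z
        rw [h5]
        exact DifferentiableAt.comp z h4 h3
  -- the derivative estimate
  have claim : ∀ k ≤ J, ∀ z ∈ V 0, ∀ u : ℂ → ℂ, (∀ w ∈ V k, DifferentiableAt ℂ u w) →
      (∀ w ∈ V k, ‖u w‖ ≤ 1) →
      ‖deriv (fun z => u (G k z)) z‖ * (1 + θ) ^ k ≤ 2 / (ρ₀ - ‖z‖) := by
    intro k
    induction k with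
    | zero =>
      intro _ z hz u hu1 hu2
      have hz' : ‖z‖ < ρ₀ := hz
      rw [pow_zero, mul_one]
      have h1 : (fun z => u (G 0 z)) = u := rfl
      rw [h1]
      have ht : 0 < (ρ₀ - ‖z‖) / 2 := by linarith
      have hsub : Metric.closedBall z ((ρ₀ - ‖z‖) / 2) ⊆ V 0 := by
        intro w hw
        rw [mem_closedBall_iff_norm] at hw
        show ‖w‖ < ρ₀
        have h2 : ‖w‖ ≤ ‖w - z‖ + ‖z‖ := by
          calc ‖w‖ = ‖(w - z) + z‖ := by ring_nf
            _ ≤ _ := norm_add_le _ _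
        linarith
      have h2 := Complex.norm_deriv_le_of_forall_mem_sphere_norm_le (f := u) (c := z) (C := 1) ht
        (by
          apply DifferentiableOn.diffContOnCl
          intro w hw
          exact (hu1 w (hsub (Metric.closure_ball_subset_closedBall hw))).differentiableWithinAt)
        (fun w hw => hu2 w (hsub (Metric.sphere_subset_closedBall hw)))
      calc ‖deriv u z‖ ≤ 1 / ((ρ₀ - ‖z‖) / 2) := h2
        _ = 2 / (ρ₀ - ‖z‖) := by rw [one_div_div]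
    | succ k ih =>
      intro hk z hz u hu1 hu2
      have hk' : k < J := hk
      obtain ⟨h1, -, h3⟩ := orb k (by omega) z hz
      obtain ⟨h1', -, h3'⟩ := orb (k + 1) hk z hz
      set c : ℂ := G (k + 1) z with hc
      set U : ℂ → ℂ := fun w => u (toC (g k (w : Sph)) + (θ : ℂ) * (toC (g k (w : Sph)) - c)) with hU
      have harg : ∀ w ∈ V k, toC (g k (w : Sph)) + (θ : ℂ) * (toC (g k (w : Sph)) - c) ∈ V (k + 1) := by
        intro w hw
        apply near k hk' w hw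
        rw [add_sub_cancel_left, norm_mul, Complex.norm_real, Real.norm_eq_abs, abs_of_pos hθ0]
        have e1 := bdd k hk' _ (memg k hk' w hw)
        have e2 : ‖c‖ ≤ R := bdd k hk' _ h1'
        have e3 := norm_sub_le (toC (g k (w : Sph))) c
        calc θ * ‖toC (g k (w : Sph)) - c‖ ≤ θ * (R + R) := by
              gcongr
              linarith
          _ = δ / 4 := by rw [hθ]; field_simp; ring
          _ < δ / 2 := by linarith
      have h4 := ih (by omega) z hz U (by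
        intro w hw
        have e1 := diffg k hk' w hw
        have e2 : DifferentiableAt ℂ
            (fun w : ℂ => toC (g k (w : Sph)) + (θ : ℂ) * (toC (g k (w : Sph)) - c)) w :=
          e1.add ((e1.sub_const c).const_mul _)
        exact DifferentiableAt.comp w (hu1 _ (harg w hw)) e2)
        (fun w hw => hu2 _ (harg w hw))
      have hda : HasDerivAt (G (k + 1)) (deriv (G (k + 1)) z) z := h3'.hasDerivAt
      have hdu : HasDerivAt u (deriv u c) c := (hu1 c h1').hasDerivAt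
      have d1 : HasDerivAt (fun z => u (G (k + 1) z)) (deriv u c * deriv (G (k + 1)) z) z :=
        HasDerivAt.comp z hdu hda
      have d2 : HasDerivAt (fun z' => G (k + 1) z' + (θ : ℂ) * (G (k + 1) z' - c))
          (deriv (G (k + 1)) z + (θ : ℂ) * deriv (G (k + 1)) z) z :=
        hda.add ((hda.sub_const c).const_mul _)
      have hval : G (k + 1) z + (θ : ℂ) * (G (k + 1) z - c) = c := by
        rw [← hc, sub_self, mul_zero, add_zero]
      have d3 : HasDerivAt (fun z' => U (G k z'))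
          (deriv u c * (deriv (G (k + 1)) z + (θ : ℂ) * deriv (G (k + 1)) z)) z := by
        have hdu' : HasDerivAt u (deriv u c) (G (k + 1) z + (θ : ℂ) * (G (k + 1) z - c)) := by
          rw [hval]
          exact hdu
        exact HasDerivAt.comp z hdu' d2
      rw [d3.deriv] at h4
      rw [d1.deriv]
      have e1 : deriv u c * (deriv (G (k + 1)) z + (θ : ℂ) * deriv (G (k + 1)) z)
          = ((1 + θ : ℝ) : ℂ) * (deriv u c * deriv (G (k + 1)) z) := by
        push_cast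
        ring
      rw [e1, norm_mul, Complex.norm_real, Real.norm_eq_abs, abs_of_pos (by linarith : 0 < 1 + θ)] at h4
      calc ‖deriv u c * deriv (G (k + 1)) z‖ * (1 + θ) ^ (k + 1)
          = (1 + θ) * ‖deriv u c * deriv (G (k + 1)) z‖ * (1 + θ) ^ k := by ring
        _ ≤ _ := h4
  -- bound on `V J`
  have bddJ : ∀ w ∈ V J, ‖w‖ ≤ R := by
    intro w hw
    rcases Nat.eq_zero_or_pos J with hJ | hJ
    · rw [hJ] at hw
      have : ‖w‖ < ρ₀ := hw
      linarith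
    · obtain ⟨j, rfl⟩ : ∃ j, J = j + 1 := ⟨J - 1, by omega⟩
      exact bdd j (Nat.lt_succ_self j) w hw
  have hp1 : (0 : ℝ) < (1 + θ) ^ J := by positivity
  have hder : ∀ z ∈ Metric.closedBall (0 : ℂ) (ρ₀ / 2),
      ‖deriv (G J) z‖ ≤ 4 * R / ρ₀ * (1 / (1 + θ)) ^ J := by
    intro z hz
    rw [mem_closedBall_zero_iff] at hz
    have hz0 : z ∈ V 0 := by
      show ‖z‖ < ρ₀
      linarith
    have h1 := claim J le_rfl z hz0 (fun w => w * ((R : ℂ))⁻¹) (fun w _ => by fun_prop) (by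
      intro w hw
      rw [norm_mul, norm_inv, Complex.norm_real, Real.norm_eq_abs, abs_of_pos hR0]
      rw [← div_eq_mul_inv, div_le_one hR0]
      exact bddJ w hw)
    have h2 : deriv (fun z => G J z * ((R : ℂ))⁻¹) z = deriv (G J) z * ((R : ℂ))⁻¹ :=
      (((orb J le_rfl z hz0).2.2.hasDerivAt).mul_const _).deriv
    rw [h2, norm_mul, norm_inv, Complex.norm_real, Real.norm_eq_abs, abs_of_pos hR0] at h1
    have h3 : 2 / (ρ₀ - ‖z‖) ≤ 4 / ρ₀ := by
      rw [div_le_div_iff₀ (by linarith) hρpos]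
      nlinarith
    have h4 : ‖deriv (G J) z‖ * R⁻¹ * (1 + θ) ^ J ≤ 4 / ρ₀ := h1.trans h3
    rw [one_div_pow]
    rw [← sub_nonneg]
    have h5 : 4 * R / ρ₀ * (1 / (1 + θ) ^ J) - ‖deriv (G J) z‖
        = (4 / ρ₀ - ‖deriv (G J) z‖ * R⁻¹ * (1 + θ) ^ J) * (R / (1 + θ) ^ J) := by
      field_simp
    rw [h5]
    exact mul_nonneg (by linarith) (by positivity)
  -- the point `y'`
  have hy1 : y' ≠ ∞ := by
    rintro rfl
    rw [dist_comm, dist_coe_infty] at hy'
    have h1 : Pool.Agent.H91.Fatou.nn (0 : ℂ) 1 ≤ 1 := by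
      have := nn_le 0
      rwa [norm_zero, add_zero] at this
    have h2 := one_le_nn 0
    have h3 : (1 : ℝ) / Pool.Agent.H91.Fatou.nn (0 : ℂ) 1 = 1 := by
      rw [le_antisymm h1 h2, div_one]
    rw [h3] at hy'
    linarith
  obtain ⟨z, rfl⟩ : ∃ z : ℂ, ((z : ℂ) : Sph) = y' :=
    ⟨toC y', Pool.Agent.H76.Fatou.coe_toC hy1⟩
  set d := dist (z : Sph) ((0 : ℂ) : Sph) with hd
  have hz2 : ‖z‖ ≤ 2 * d := by
    have h1 : Pool.Agent.H91.Fatou.nn (0 : ℂ) 1 = 1 := by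
      refine le_antisymm ?_ (one_le_nn 0)
      have := nn_le 0
      rwa [norm_zero, add_zero] at this
    have h2 : d = ‖z‖ / Pool.Agent.H91.Fatou.nn z 1 := by
      rw [hd, dist_coe, h1, mul_one, sub_zero]
    have h3 := one_le_nn z
    have h4 : ‖z‖ = d * Pool.Agent.H91.Fatou.nn z 1 := by
      rw [h2]
      field_simp
    have h5 : 0 ≤ d := dist_nonneg
    have h6 := nn_le z
    have h7 : d ≤ 1 / 4 := by linarith
    nlinarith [norm_nonneg z]
  have hz3 : ‖z‖ ≤ ρ₀ / 2 := by linarith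
  have hz0 : z ∈ V 0 := by
    show ‖z‖ < ρ₀
    linarith
  have h00 : (0 : ℂ) ∈ V 0 := by
    show ‖(0 : ℂ)‖ < ρ₀
    rw [norm_zero]
    exact hρpos
  rw [(orb J le_rfl z hz0).2.1, (orb J le_rfl 0 h00).2.1]
  have hmv := Convex.norm_image_sub_le_of_norm_deriv_le (𝕜 := ℂ) (f := G J)
    (s := Metric.closedBall (0 : ℂ) (ρ₀ / 2)) (x := 0) (y := z)
    (fun w hw => by
      rw [mem_closedBall_zero_iff] at hw
      exact (orb J le_rfl w (by show ‖w‖ < ρ₀; linarith)).2.2)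
    hder (convex_closedBall _ _) (by rw [mem_closedBall_zero_iff, norm_zero]; positivity)
    (by rw [mem_closedBall_zero_iff]; exact hz3)
  rw [sub_zero] at hmv
  have hl : (0 : ℝ) ≤ (1 / (1 + θ)) ^ J := by positivity
  calc dist ((G J z : ℂ) : Sph) ((G J 0 : ℂ) : Sph) ≤ ‖G J z - G J 0‖ := dist_coe_le _ _
    _ ≤ 4 * R / ρ₀ * (1 / (1 + θ)) ^ J * ‖z‖ := hmv
    _ ≤ 4 * R / ρ₀ * (1 / (1 + θ)) ^ J * (2 * d) := by gcongr
    _ = 8 * R / ρ₀ * (1 / (1 + θ)) ^ J * d := by ring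
    _ ≤ max 1 (8 * R / ρ₀) * (1 / (1 + θ)) ^ J * d := by
        have h5 : 0 ≤ d := dist_nonneg
        gcongr
        exact le_max_right _ _

end Pool.Agent.H84.UC
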