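import Mathlib
import Pool.Agent.H84.UC.Basic
import Pool.Agent.H84.UC.Sphere
import Pool.Agent.H35.NA.Rotations

/-!
# MODULE ROT: the rotations of the sphere form a kick system

`SU` = unit vectors `(a, b)` of `ℂ²`, standing for the matrix `(a, -b̄; b, ā)` and the rotation
`z ↦ (a z - b̄) / (b z + ā)`; size `nrm (a, b) = ‖a - 1‖ + ‖b‖`.

PROOFS of the fields of `kickSU` (all points are `pt v` with a unit vector `v`, `exists_unit`; write
`(a,b) v = (a v₁ - b̄ v₂, b v₁ + ā v₂)`, again a unit vector; `dist (pt v) (pt w) = ‖v₁ w₂ - w₁ v₂‖`,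
`dist_unit`; `smul_pt` below).
* `nrm_mul`: `a c - b̄ d - 1 = a (c - 1) - b̄ d + (a - 1)`, `b c + ā d = b (c-1) + b + ā d`, `‖a‖, ‖b‖ ≤ 1`, hence
  `nrm ≤ ‖c-1‖ + ‖d‖ + ‖a-1‖ + ‖c-1‖ + ‖b‖ + ‖d‖`.
* `dist_smul`: `(Mv)₁ (Mw)₂ - (Mw)₁ (Mv)₂ = det M (v₁ w₂ - w₁ v₂)`, `det M = 1`.
* `dist_le`: `(Mv)₁ v₂ - v₁ (Mv)₂ = ((Mv)₁ - v₁) v₂ - v₁ ((Mv)₂ - v₂)`,
  `(Mv)₁ - v₁ = (a-1) v₁ - b̄ v₂`, `(Mv)₂ - v₂ = b v₁ + (ā - 1) v₂`; so it equals
  `(a-1) v₁ v₂ - b̄ v₂² - b v₁² - (ā-1) v₁ v₂`, of modulus `≤ 2 ‖a-1‖ ‖v₁‖ ‖v₂‖ + ‖b‖ (‖v₁‖²+‖v₂‖²) ≤ nrm`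
  (`2 ‖v₁‖ ‖v₂‖ ≤ 1`).
* `exists_smul`: unit vectors `v, w` with `x = pt v`, `y = pt w`; multiplying `w` by a unimodular number
  we may assume that `w₁ v̄₁ + w₂ v̄₂` is real and `≥ 0` (if it is zero there is nothing to do).  Let
  `a = w₁ v̄₁ + w̄₂ v₂`, `b = w₂ v̄₁ - w̄₁ v₂`.  Then `a v₁ - b̄ v₂ = w₁`, `b v₁ + ā v₂ = w₂`, `‖a‖²+‖b‖² = 1`, and
  `a - 1 = (w₁ - v₁) v̄₁ + (w̄₂ - v̄₂) v₂`, `b = (w₂ - v₂) v̄₁ - (w̄₁ - v̄₁) v₂` have modulus `≤ ‖w - v‖`, and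
  `‖w-v‖² = 2 - 2 s`, `s = Re (w₁ v̄₁ + w₂ v̄₂) ≥ 0`, `s² = 1 - dist²` (Lagrange identity), so
  `‖w - v‖² ≤ 2 (1 - s²) = 2 dist²`.  Total `nrm ≤ 2 √2 dist ≤ 4 dist`.
* `net`: `{p : ℂ × ℂ | ‖p.1 - 1‖ + ‖p.2‖ < δ}` intersected with the unit sphere is totally bounded; take a
  finite `τ/4`-net consisting of elements of the set; for `(a,b), (a',b')` and a unit vector `v`:
  `(Mv)₁ (M'v)₂ - (M'v)₁ (Mv)₂ = ((M-M')v)₁ (M'v)₂ - (M'v)₁ ((M-M')v)₂` of modulus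
  `≤ 2 (‖a-a'‖ + ‖b-b'‖)`.
-/

set_option autoImplicit false

open Filter Topology OnePoint
open scoped ComplexConjugate
open Pool.Agent.H44.Fatou
open Pool.Agent.H35.NA (Rot rot rot_pt)

namespace Pool.Agent.H84.UC

/-- parameters of rotations -/
def SU : Type := Rot

/-- the parameters of a rotation -/
def SU.a (r : SU) : ℂ := r.1.1

/-- the parameters of a rotation -/
def SU.b (r : SU) : ℂ := r.1.2

theorem SU.norm_sq (r : SU) : ‖r.a‖ ^ 2 + ‖r.b‖ ^ 2 = 1 := r.2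

/-- constructor -/
def SU.mk (a b : ℂ) (h : ‖a‖ ^ 2 + ‖b‖ ^ 2 = 1) : SU := ⟨(a, b), h⟩

@[simp] theorem SU.mk_a (a b : ℂ) (h : ‖a‖ ^ 2 + ‖b‖ ^ 2 = 1) : (SU.mk a b h).a = a := rfl
@[simp] theorem SU.mk_b (a b : ℂ) (h : ‖a‖ ^ 2 + ‖b‖ ^ 2 = 1) : (SU.mk a b h).b = b := rfl

theorem SU.ext {r s : SU} (h1 : r.a = s.a) (h2 : r.b = s.b) : r = s :=
  Subtype.ext (Prod.ext h1 h2)

theorem norm_act {a b x y : ℂ} (h : ‖a‖ ^ 2 + ‖b‖ ^ 2 = 1) :
    ‖a * x - conj b * y‖ ^ 2 + ‖b * x + conj a * y‖ ^ 2 = ‖x‖ ^ 2 + ‖y‖ ^ 2 := by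
  have hab : a * conj a + b * conj b = 1 := by
    rw [Complex.mul_conj, Complex.mul_conj, Complex.normSq_eq_norm_sq, Complex.normSq_eq_norm_sq]
    exact_mod_cast h
  have key : ((‖a * x - conj b * y‖ ^ 2 + ‖b * x + conj a * y‖ ^ 2 : ℝ) : ℂ)
      = ((‖x‖ ^ 2 + ‖y‖ ^ 2 : ℝ) : ℂ) := by
    push_cast
    rw [← Complex.mul_conj', ← Complex.mul_conj', ← Complex.mul_conj', ← Complex.mul_conj']
    simp only [map_sub, map_add, map_mul, Complex.conj_conj]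
    linear_combination (x * conj x + y * conj y) * hab
  exact_mod_cast key

noncomputable instance : Monoid SU where
  mul r s := SU.mk (r.a * s.a - conj r.b * s.b) (r.b * s.a + conj r.a * s.b)
    (by rw [norm_act r.norm_sq]; exact s.norm_sq)
  one := SU.mk 1 0 (by simp)
  mul_assoc r s t := by
    apply SU.ext
    · show (r.a * s.a - conj r.b * s.b) * t.a - conj (r.b * s.a + conj r.a * s.b) * t.b
        = r.a * (s.a * t.a - conj s.b * t.b) - conj r.b * (s.b * t.a + conj s.a * t.b)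
      simp only [map_add, map_mul, Complex.conj_conj]
      ring
    · show (r.b * s.a + conj r.a * s.b) * t.a + conj (r.a * s.a - conj r.b * s.b) * t.b
        = r.b * (s.a * t.a - conj s.b * t.b) + conj r.a * (s.b * t.a + conj s.a * t.b)
      simp only [map_sub, map_mul, Complex.conj_conj]
      ring
  one_mul r := by
    apply SU.ext
    · show (1 : ℂ) * r.a - conj (0 : ℂ) * r.b = r.a
      simp
    · show (0 : ℂ) * r.a + conj (1 : ℂ) * r.b = r.b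
      simp
  mul_one r := by
    apply SU.ext
    · show r.a * (1 : ℂ) - conj r.b * (0 : ℂ) = r.a
      simp
    · show r.b * (1 : ℂ) + conj r.a * (0 : ℂ) = r.b
      simp

theorem SU.mul_a (r s : SU) : (r * s).a = r.a * s.a - conj r.b * s.b := rfl
theorem SU.mul_b (r s : SU) : (r * s).b = r.b * s.a + conj r.a * s.b := rfl
@[simp] theorem SU.one_a : (1 : SU).a = 1 := rfl
@[simp] theorem SU.one_b : (1 : SU).b = 0 := rfl

theorem act_ne (r : SU) {x y : ℂ} (h : x ≠ 0 ∨ y ≠ 0) :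
    r.a * x - conj r.b * y ≠ 0 ∨ r.b * x + conj r.a * y ≠ 0 := by
  by_contra hc
  push Not at hc
  have := norm_act (x := x) (y := y) r.norm_sq
  rw [hc.1, hc.2, norm_zero] at this
  have hx : ‖x‖ ^ 2 = 0 := by nlinarith [sq_nonneg ‖x‖, sq_nonneg ‖y‖]
  have hy : ‖y‖ ^ 2 = 0 := by nlinarith [sq_nonneg ‖x‖, sq_nonneg ‖y‖]
  rcases h with h | h
  · exact h (norm_eq_zero.1 (pow_eq_zero_iff two_ne_zero |>.1 hx))
  · exact h (norm_eq_zero.1 (pow_eq_zero_iff two_ne_zero |>.1 hy))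

noncomputable instance : SMul SU Sph := ⟨fun r x => rot r x⟩

theorem smul_def (r : SU) (x : Sph) : r • x = rot r x := rfl

theorem smul_pt (r : SU) {x y : ℂ} (h : x ≠ 0 ∨ y ≠ 0) :
    r • (pt x y : Sph) = pt (r.a * x - conj r.b * y) (r.b * x + conj r.a * y) :=
  rot_pt r h

noncomputable instance : MulAction SU Sph where
  one_smul x := by
    obtain ⟨v, hv, rfl⟩ := exists_unit x
    rw [smul_pt _ (unit_ne hv)]
    simp
  mul_smul r s x := by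
    obtain ⟨v, hv, rfl⟩ := exists_unit x
    rw [smul_pt _ (unit_ne hv), smul_pt _ (unit_ne hv), smul_pt _ (act_ne s (unit_ne hv)),
      SU.mul_a, SU.mul_b]
    simp only [map_add, map_sub, map_mul, Complex.conj_conj]
    congr 1 <;> ring

theorem SU.norm_a_le (r : SU) : ‖r.a‖ ≤ 1 := by
  have := r.norm_sq
  nlinarith [sq_nonneg ‖r.b‖, norm_nonneg r.a]

theorem SU.norm_b_le (r : SU) : ‖r.b‖ ≤ 1 := by
  have := r.norm_sq
  nlinarith [sq_nonneg ‖r.a‖, norm_nonneg r.b]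

theorem act_unit (r : SU) {v : ℂ × ℂ} (hv : ‖v.1‖ ^ 2 + ‖v.2‖ ^ 2 = 1) :
    ‖r.a * v.1 - conj r.b * v.2‖ ^ 2 + ‖r.b * v.1 + conj r.a * v.2‖ ^ 2 = 1 := by
  rw [norm_act r.norm_sq]; exact hv

theorem fst_le_one {v : ℂ × ℂ} (hv : ‖v.1‖ ^ 2 + ‖v.2‖ ^ 2 = 1) : ‖v.1‖ ≤ 1 := by
  nlinarith [sq_nonneg ‖v.2‖, norm_nonneg v.1]

theorem snd_le_one {v : ℂ × ℂ} (hv : ‖v.1‖ ^ 2 + ‖v.2‖ ^ 2 = 1) : ‖v.2‖ ≤ 1 := by
  nlinarith [sq_nonneg ‖v.1‖, norm_nonneg v.2]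

theorem su_nrm_mul (r s : SU) : ‖(r * s).a - 1‖ + ‖(r * s).b‖ ≤
    2 * ((‖r.a - 1‖ + ‖r.b‖) + (‖s.a - 1‖ + ‖s.b‖)) := by
  rw [SU.mul_a, SU.mul_b]
  have h1 : r.a * s.a - conj r.b * s.b - 1 = r.a * (s.a - 1) + (r.a - 1) - conj r.b * s.b := by ring
  have h2 : r.b * s.a + conj r.a * s.b = r.b * (s.a - 1) + r.b + conj r.a * s.b := by ring
  have ha := r.norm_a_le
  have hb := r.norm_b_le
  have e1 : ‖r.a * s.a - conj r.b * s.b - 1‖ ≤ ‖s.a - 1‖ + ‖r.a - 1‖ + ‖s.b‖ := by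
    rw [h1]
    refine (norm_sub_le _ _).trans ?_
    refine add_le_add ((norm_add_le _ _).trans ?_) ?_
    · gcongr
      rw [norm_mul]
      exact mul_le_of_le_one_left (norm_nonneg _) ha
    · rw [norm_mul, RCLike.norm_conj]
      exact mul_le_of_le_one_left (norm_nonneg _) hb
  have e2 : ‖r.b * s.a + conj r.a * s.b‖ ≤ ‖s.a - 1‖ + ‖r.b‖ + ‖s.b‖ := by
    rw [h2]
    refine (norm_add_le _ _).trans ?_
    refine add_le_add ((norm_add_le _ _).trans ?_) ?_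
    · gcongr
      rw [norm_mul]
      exact mul_le_of_le_one_left (norm_nonneg _) hb
    · rw [norm_mul, RCLike.norm_conj]
      exact mul_le_of_le_one_left (norm_nonneg _) ha
  have n1 := norm_nonneg (r.a - 1)
  have n2 := norm_nonneg r.b
  linarith

theorem su_dist_smul (r : SU) (x y : Sph) : dist (r • x) (r • y) = dist x y := by
  obtain ⟨v, hv, rfl⟩ := exists_unit x
  obtain ⟨w, hw, rfl⟩ := exists_unit y
  rw [smul_pt _ (unit_ne hv), smul_pt _ (unit_ne hw), dist_unit hv hw]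
  have h := dist_unit (v := (r.a * v.1 - conj r.b * v.2, r.b * v.1 + conj r.a * v.2))
    (w := (r.a * w.1 - conj r.b * w.2, r.b * w.1 + conj r.a * w.2)) (act_unit r hv) (act_unit r hw)
  rw [h]
  have hab : r.a * conj r.a + r.b * conj r.b = 1 := by
    rw [Complex.mul_conj, Complex.mul_conj, Complex.normSq_eq_norm_sq, Complex.normSq_eq_norm_sq]
    exact_mod_cast r.norm_sq
  congr 1
  linear_combination (v.1 * w.2 - w.1 * v.2) * hab

theorem su_dist_le (r : SU) (x : Sph) : dist (r • x) x ≤ ‖r.a - 1‖ + ‖r.b‖ := by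
  obtain ⟨v, hv, rfl⟩ := exists_unit x
  rw [smul_pt _ (unit_ne hv)]
  have h := dist_unit (v := (r.a * v.1 - conj r.b * v.2, r.b * v.1 + conj r.a * v.2))
    (w := v) (act_unit r hv) hv
  rw [h]
  have e : (r.a * v.1 - conj r.b * v.2) * v.2 - v.1 * (r.b * v.1 + conj r.a * v.2) =
      ((r.a - 1) * (v.1 * v.2) - (conj (r.a - 1)) * (v.1 * v.2)) -
        (conj r.b * v.2 ^ 2 + r.b * v.1 ^ 2) := by
    simp only [map_sub, map_one]
    ring
  show ‖(r.a * v.1 - conj r.b * v.2) * v.2 - v.1 * (r.b * v.1 + conj r.a * v.2)‖ ≤ _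
  rw [e]
  have h1 : ‖(r.a - 1) * (v.1 * v.2) - (conj (r.a - 1)) * (v.1 * v.2)‖ ≤ ‖r.a - 1‖ := by
    refine (norm_sub_le _ _).trans ?_
    simp only [norm_mul, RCLike.norm_conj]
    have h2 : 2 * (‖v.1‖ * ‖v.2‖) ≤ 1 := by nlinarith [sq_nonneg (‖v.1‖ - ‖v.2‖)]
    nlinarith [norm_nonneg (r.a - 1)]
  have h2 : ‖conj r.b * v.2 ^ 2 + r.b * v.1 ^ 2‖ ≤ ‖r.b‖ := by
    refine (norm_add_le _ _).trans ?_
    rw [norm_mul, norm_mul, norm_pow, norm_pow, RCLike.norm_conj, ← mul_add, add_comm, hv, mul_one]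
  exact (norm_sub_le _ _).trans (add_le_add h1 h2)

theorem su_exists_aux {v w : ℂ × ℂ} (hv : ‖v.1‖ ^ 2 + ‖v.2‖ ^ 2 = 1)
    (hw : ‖w.1‖ ^ 2 + ‖w.2‖ ^ 2 = 1) (t : ℝ) (ht : 0 ≤ t)
    (hs : w.1 * conj v.1 + w.2 * conj v.2 = (t : ℂ)) :
    ∃ r : SU, r • (pt v.1 v.2 : Sph) = pt w.1 w.2 ∧
      ‖r.a - 1‖ + ‖r.b‖ ≤ 4 * ‖v.1 * w.2 - w.1 * v.2‖ := by
  have hv' : v.1 * conj v.1 + v.2 * conj v.2 = 1 := by
    rw [Complex.mul_conj, Complex.mul_conj, Complex.normSq_eq_norm_sq, Complex.normSq_eq_norm_sq]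
    exact_mod_cast hv
  have hw' : w.1 * conj w.1 + w.2 * conj w.2 = 1 := by
    rw [Complex.mul_conj, Complex.mul_conj, Complex.normSq_eq_norm_sq, Complex.normSq_eq_norm_sq]
    exact_mod_cast hw
  have hs' : conj w.1 * v.1 + conj w.2 * v.2 = (t : ℂ) := by
    have := congrArg (starRingEnd ℂ) hs
    simpa only [map_add, map_mul, Complex.conj_conj, Complex.conj_ofReal] using this
  have hab : ‖w.1 * conj v.1 + conj w.2 * v.2‖ ^ 2 + ‖w.2 * conj v.1 - conj w.1 * v.2‖ ^ 2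
      = 1 := by
    have key : ((‖w.1 * conj v.1 + conj w.2 * v.2‖ ^ 2 +
        ‖w.2 * conj v.1 - conj w.1 * v.2‖ ^ 2 : ℝ) : ℂ) = ((1 : ℝ) : ℂ) := by
      push_cast
      rw [← Complex.mul_conj', ← Complex.mul_conj']
      simp only [map_sub, map_add, map_mul, Complex.conj_conj]
      linear_combination (w.1 * conj w.1 + w.2 * conj w.2) * hv' + hw'
    exact_mod_cast key
  have hD : ‖v.1 * w.2 - w.1 * v.2‖ ^ 2 + t ^ 2 = 1 := by
    have key : ((‖v.1 * w.2 - w.1 * v.2‖ ^ 2 + t ^ 2 : ℝ) : ℂ) = ((1 : ℝ) : ℂ) := by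
      push_cast
      rw [← Complex.mul_conj']
      simp only [map_sub, map_mul]
      linear_combination (w.1 * conj w.1 + w.2 * conj w.2) * hv' + hw' - (t : ℂ) * hs
        - (w.1 * conj v.1 + w.2 * conj v.2) * hs'
    exact_mod_cast key
  have hN : ‖w.1 * conj v.1 + conj w.2 * v.2 - 1‖ ^ 2 + ‖w.2 * conj v.1 - conj w.1 * v.2‖ ^ 2
      = 2 - 2 * t := by
    have key : ((‖w.1 * conj v.1 + conj w.2 * v.2 - 1‖ ^ 2 +
        ‖w.2 * conj v.1 - conj w.1 * v.2‖ ^ 2 : ℝ) : ℂ) = ((2 - 2 * t : ℝ) : ℂ) := by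
      push_cast
      rw [← Complex.mul_conj', ← Complex.mul_conj']
      simp only [map_sub, map_add, map_mul, Complex.conj_conj, map_one]
      linear_combination (w.1 * conj w.1 + w.2 * conj w.2) * hv' + hw' - hs - hs'
    exact_mod_cast key
  refine ⟨SU.mk _ _ hab, ?_, ?_⟩
  · rw [smul_pt _ (unit_ne hv), SU.mk_a, SU.mk_b]
    congr 1
    · simp only [map_sub, map_mul, Complex.conj_conj]
      linear_combination w.1 * hv'
    · simp only [map_add, map_mul, Complex.conj_conj]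
      linear_combination w.2 * hv'
  · rw [SU.mk_a, SU.mk_b]
    have hD0 := norm_nonneg (v.1 * w.2 - w.1 * v.2)
    have ht1 : t ≤ 1 := by nlinarith [sq_nonneg ‖v.1 * w.2 - w.1 * v.2‖]
    have hle : 2 - 2 * t ≤ 2 * ‖v.1 * w.2 - w.1 * v.2‖ ^ 2 := by nlinarith
    have h1 : ‖w.1 * conj v.1 + conj w.2 * v.2 - 1‖ ≤ 2 * ‖v.1 * w.2 - w.1 * v.2‖ := by
      apply abs_le_of_sq_le_sq' _ (by positivity) |>.2
      nlinarith [sq_nonneg ‖w.2 * conj v.1 - conj w.1 * v.2‖]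
    have h2 : ‖w.2 * conj v.1 - conj w.1 * v.2‖ ≤ 2 * ‖v.1 * w.2 - w.1 * v.2‖ := by
      apply abs_le_of_sq_le_sq' _ (by positivity) |>.2
      nlinarith [sq_nonneg ‖w.1 * conj v.1 + conj w.2 * v.2 - 1‖]
    linarith

theorem su_exists_smul (x y : Sph) : ∃ r : SU, r • x = y ∧ ‖r.a - 1‖ + ‖r.b‖ ≤ 4 * dist x y := by
  obtain ⟨v, hv, rfl⟩ := exists_unit x
  obtain ⟨w, hw, rfl⟩ := exists_unit y
  by_cases h0 : w.1 * conj v.1 + w.2 * conj v.2 = 0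
  · obtain ⟨r, h1, h2⟩ := su_exists_aux hv hw 0 le_rfl (by rw [h0]; simp)
    exact ⟨r, h1, by rwa [dist_unit hv hw]⟩
  · set s := w.1 * conj v.1 + w.2 * conj v.2 with hs
    have hn : (‖s‖ : ℂ) ≠ 0 := by exact_mod_cast (norm_ne_zero_iff.2 h0)
    set u : ℂ := conj s / ‖s‖ with hu
    have hu1 : ‖u‖ = 1 := by
      rw [hu, norm_div, RCLike.norm_conj, Complex.norm_real, norm_norm,
        div_self (norm_ne_zero_iff.2 h0)]
    have hu0 : u ≠ 0 := by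
      intro h; rw [h, norm_zero] at hu1; exact zero_ne_one hu1
    have hw2 : ‖w.1 * u‖ ^ 2 + ‖w.2 * u‖ ^ 2 = 1 := by
      rw [norm_mul, norm_mul, hu1, mul_one, mul_one]; exact hw
    have hpt : (pt (w.1 * u) (w.2 * u) : Sph) = pt w.1 w.2 := pt_smul hu0
    obtain ⟨r, h1, h2⟩ := su_exists_aux (v := v) (w := (w.1 * u, w.2 * u)) hv hw2 ‖s‖
      (norm_nonneg _) (by
        show w.1 * u * conj v.1 + w.2 * u * conj v.2 = _
        have : w.1 * u * conj v.1 + w.2 * u * conj v.2 = s * u := by rw [hs]; ring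
        rw [this, hu, ← mul_div_assoc, Complex.mul_conj', div_eq_iff hn, sq])
    refine ⟨r, h1.trans hpt, ?_⟩
    rw [dist_unit hv hw]
    have e : v.1 * (w.2 * u) - w.1 * u * v.2 = (v.1 * w.2 - w.1 * v.2) * u := by ring
    have h3 : ‖v.1 * (w.2 * u) - w.1 * u * v.2‖ = ‖v.1 * w.2 - w.1 * v.2‖ := by
      rw [e, norm_mul, hu1, mul_one]
    rw [← h3]
    exact h2

theorem su_dist_two (r s : SU) (x : Sph) :
    dist (r • x) (s • x) ≤ 2 * (‖r.a - s.a‖ + ‖r.b - s.b‖) := by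
  obtain ⟨v, hv, rfl⟩ := exists_unit x
  rw [smul_pt _ (unit_ne hv), smul_pt _ (unit_ne hv)]
  have h := dist_unit (v := (r.a * v.1 - conj r.b * v.2, r.b * v.1 + conj r.a * v.2))
    (w := (s.a * v.1 - conj s.b * v.2, s.b * v.1 + conj s.a * v.2)) (act_unit r hv) (act_unit s hv)
  rw [h]
  show ‖(r.a * v.1 - conj r.b * v.2) * (s.b * v.1 + conj s.a * v.2) -
    (s.a * v.1 - conj s.b * v.2) * (r.b * v.1 + conj r.a * v.2)‖ ≤ _
  have e : (r.a * v.1 - conj r.b * v.2) * (s.b * v.1 + conj s.a * v.2) -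
      (s.a * v.1 - conj s.b * v.2) * (r.b * v.1 + conj r.a * v.2) =
      ((r.a - s.a) * v.1 - conj (r.b - s.b) * v.2) * (s.b * v.1 + conj s.a * v.2) -
      (s.a * v.1 - conj s.b * v.2) * ((r.b - s.b) * v.1 + conj (r.a - s.a) * v.2) := by
    simp only [map_sub]; ring
  rw [e]
  have hs := act_unit s hv
  have m1 : ‖s.a * v.1 - conj s.b * v.2‖ ≤ 1 := fst_le_one
    (v := (s.a * v.1 - conj s.b * v.2, s.b * v.1 + conj s.a * v.2)) hs
  have m2 : ‖s.b * v.1 + conj s.a * v.2‖ ≤ 1 := snd_le_one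
    (v := (s.a * v.1 - conj s.b * v.2, s.b * v.1 + conj s.a * v.2)) hs
  have v1 := fst_le_one hv
  have v2 := snd_le_one hv
  have d1 : ‖(r.a - s.a) * v.1 - conj (r.b - s.b) * v.2‖ ≤ ‖r.a - s.a‖ + ‖r.b - s.b‖ := by
    refine (norm_sub_le _ _).trans ?_
    rw [norm_mul, norm_mul, RCLike.norm_conj]
    exact add_le_add (mul_le_of_le_one_right (norm_nonneg _) v1)
      (mul_le_of_le_one_right (norm_nonneg _) v2)
  have d2 : ‖(r.b - s.b) * v.1 + conj (r.a - s.a) * v.2‖ ≤ ‖r.a - s.a‖ + ‖r.b - s.b‖ := by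
    refine (norm_add_le _ _).trans ?_
    rw [norm_mul, norm_mul, RCLike.norm_conj, add_comm ‖r.a - s.a‖]
    exact add_le_add (mul_le_of_le_one_right (norm_nonneg _) v1)
      (mul_le_of_le_one_right (norm_nonneg _) v2)
  refine (norm_sub_le _ _).trans ?_
  rw [norm_mul, norm_mul]
  have p1 := mul_le_mul d1 m2 (norm_nonneg _) (by positivity)
  have p2 := mul_le_mul m1 d2 (norm_nonneg _) zero_le_one
  linarith

theorem su_net (δ : ℝ) (_hδ : 0 < δ) (τ : ℝ) (hτ : 0 < τ) :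
    ∃ Γ : Finset SU, (∀ r ∈ Γ, ‖r.a - 1‖ + ‖r.b‖ < δ) ∧
      ∀ r : SU, ‖r.a - 1‖ + ‖r.b‖ < δ → ∃ s ∈ Γ, ∀ x : Sph, dist (r • x) (s • x) ≤ τ := by
  have hinj : Function.Injective (fun r : SU => (r.a, r.b)) := by
    intro r s h
    have h' := Prod.mk.inj h
    exact SU.ext h'.1 h'.2
  let T : Set (ℂ × ℂ) := (fun r : SU => (r.a, r.b)) '' {r | ‖r.a - 1‖ + ‖r.b‖ < δ}
  have hT : T ⊆ Metric.closedBall 0 1 := by
    rintro _ ⟨r, -, rfl⟩
    rw [mem_closedBall_zero_iff, Prod.norm_def]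
    exact max_le r.norm_a_le r.norm_b_le
  have hTB : TotallyBounded T :=
    (isCompact_closedBall (0 : ℂ × ℂ) 1).totallyBounded.subset hT
  obtain ⟨t, htT, htf, hcov⟩ := Metric.finite_approx_of_totallyBounded hTB (τ / 4) (by positivity)
  have hpf := htf.preimage (f := fun r : SU => (r.a, r.b)) hinj.injOn
  refine ⟨hpf.toFinset, ?_, ?_⟩
  · intro r hr
    rw [Set.Finite.mem_toFinset, Set.mem_preimage] at hr
    obtain ⟨r', hr', he⟩ := htT hr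
    have : r' = r := hinj he
    rw [← this]; exact hr'
  · intro r hr
    have h1 := hcov (show ((fun r : SU => (r.a, r.b)) r) ∈ T from ⟨r, hr, rfl⟩)
    rw [Set.mem_iUnion₂] at h1
    obtain ⟨y, hy, hry⟩ := h1
    obtain ⟨s, hs, rfl⟩ := htT hy
    refine ⟨s, ?_, fun x => ?_⟩
    · rw [Set.Finite.mem_toFinset, Set.mem_preimage]; exact hy
    · refine (su_dist_two r s x).trans ?_
      rw [Metric.mem_ball, Prod.dist_eq, max_lt_iff, dist_eq_norm, dist_eq_norm] at hry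
      have h2 := hry.1
      have h3 := hry.2
      simp only at h2 h3
      linarith

/-- the rotations form a kick system -/
noncomputable def kickSU : Kick SU Sph where
  nrm r := ‖r.a - 1‖ + ‖r.b‖
  nrm_one := by simp
  nrm_mul := su_nrm_mul
  dist_smul := su_dist_smul
  dist_le := su_dist_le
  exists_smul := su_exists_smul
  net := su_net

end Pool.Agent.H84.UC
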