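import Mathlib
import Pool.Agent.H84.UC.Rot

/-!
# Inverse rotations, lifts of rotations


-/

set_option autoImplicit false

open Filter Topology OnePoint
open scoped ComplexConjugate
open Pool.Agent.H44.Fatou
open Pool.Agent.H76.Fatou (Lift toC)

namespace Pool.Agent.H84.UC

/-- the inverse rotation -/
noncomputable def SU.inv (r : SU) : SU :=
  SU.mk (conj r.a) (-r.b) (by rw [norm_neg, RCLike.norm_conj]; exact r.norm_sq)

theorem SU.inv_mul (r : SU) : r.inv * r = 1 := by
  have h := r.norm_sq
  have hab : r.a * conj r.a + r.b * conj r.b = 1 := by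
    rw [Complex.mul_conj, Complex.mul_conj, Complex.normSq_eq_norm_sq, Complex.normSq_eq_norm_sq]
    exact_mod_cast h
  apply SU.ext
  · show conj r.a * r.a - conj (-r.b) * r.b = 1
    simp only [map_neg]
    linear_combination hab
  · show -r.b * r.a + conj (conj r.a) * r.b = 0
    rw [Complex.conj_conj]
    ring

theorem SU.mul_inv (r : SU) : r * r.inv = 1 := by
  have h := r.norm_sq
  have hab : r.a * conj r.a + r.b * conj r.b = 1 := by
    rw [Complex.mul_conj, Complex.mul_conj, Complex.normSq_eq_norm_sq, Complex.normSq_eq_norm_sq]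
    exact_mod_cast h
  apply SU.ext
  · show r.a * conj r.a - conj r.b * -r.b = 1
    linear_combination hab
  · show r.b * conj r.a + conj r.a * -r.b = 0
    ring

theorem SU.inv_smul_smul (r : SU) (x : Sph) : r.inv • r • x = x := by
  rw [← mul_smul, SU.inv_mul, one_smul]

theorem SU.smul_inv_smul (r : SU) (x : Sph) : r • r.inv • x = x := by
  rw [← mul_smul, SU.mul_inv, one_smul]

theorem lift_smul (r : SU) : Lift (fun x : Sph => r • x) := by
  refine ⟨fun v => r.a * v.1 - conj r.b * v.2, fun v => r.b * v.1 + conj r.a * v.2,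
    by fun_prop, by fun_prop, ?_, ?_⟩
  · intro v hv
    exact act_ne r (Pool.Agent.H76.Fatou.ne_zero_iff.1 hv)
  · intro v hv
    exact smul_pt r (Pool.Agent.H76.Fatou.ne_zero_iff.1 hv)

end Pool.Agent.H84.UC
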