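import Mathlib
import Pool.Agent.H84.UC.RotInv
import Pool.Agent.H84.UC.LCP

/-!
# MODULE LCS: the contraction property LC holds for maps of the sphere with holomorphic lifts

## LCS (`lc_lift`): reduction to LCP.
PROOF.  Same constants as in `lc_zero`.  For every point `x` there is a rotation `A x : SU` with
`A x • x = ∞` and one `A' : SU` with `A' • y = 0` (`kickSU.exists_smul`), and inverses
(`B x • A x • z = z = A x • B x • z`: parameters `(ā, -b)`, or take `exists_smul` ... ; the simplest is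
`SU.inv` below).  Let `P 0 = A'`, `P k = A (x k)` for `k ≥ 1`, and
`g' k = fun z => P (k+1) • g k ((P k)⁻¹ • z)`: liftable (`lift_smul`, `Lift.comp`), `L`-Lipschitz
(`kickSU.dist_smul`), and `cp g' 0 k (P 0 • z) = P k • cp g 0 k z`.  If `p'` is a `δ`-pseudo-orbit of `g'` from
`0 = P 0 • y` then `p k = (P k)⁻¹ • p' k` is one of `g` from `y`, and
`dist (p' (k+1)) ∞ = dist (p (k+1)) (x (k+1)) ≥ r`.
-/

set_option autoImplicit false

open Filter Topology OnePoint
open scoped ComplexConjugate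
open Pool.Agent.H44.Fatou
open Pool.Agent.H76.Fatou (Lift toC)

namespace Pool.Agent.H84.UC

theorem lc_lift : LC {F : Sph → Sph | Lift F} := by
  intro L δ r hL hδ hr
  obtain ⟨ρ, hρ, C, hC, l, hl0, hl1, H⟩ := lc_zero L δ r hL hδ hr
  refine ⟨ρ, hρ, C, hC, l, hl0, hl1, ?_⟩
  intro J g x y hg hlip hpo y' hy'
  have hA : ∀ k, ∃ a : SU, a • x k = (∞ : Sph) := fun k => by
    obtain ⟨a, ha, -⟩ := kickSU.exists_smul (x k) (∞ : Sph)
    exact ⟨a, ha⟩
  choose A hA using hA
  obtain ⟨A0, hA0, -⟩ := kickSU.exists_smul y ((0 : ℂ) : Sph)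
  let P : ℕ → SU := fun k => if k = 0 then A0 else A k
  have hP0 : P 0 = A0 := if_pos rfl
  have hPs : ∀ k, P (k + 1) = A (k + 1) := fun k => if_neg (by omega)
  let g' : ℕ → Sph → Sph := fun k z => P (k + 1) • g k ((P k).inv • z)
  have hd := kickSU.dist_smul
  have hg' : ∀ k, Lift (g' k) := fun k =>
    Lift.comp (lift_smul (P (k + 1))) (Lift.comp (hg k) (lift_smul (P k).inv))
  have hlip' : ∀ k a b, dist (g' k a) (g' k b) ≤ L * dist a b := by
    intro k a b
    show dist (P (k + 1) • g k ((P k).inv • a)) (P (k + 1) • g k ((P k).inv • b)) ≤ _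
    rw [hd]
    refine (hlip k _ _).trans ?_
    rw [hd]
  have hcp : ∀ (z : Sph) (k : ℕ), cp g' 0 k (P 0 • z) = P k • cp g 0 k z := by
    intro z k
    induction k with
    | zero => rfl
    | succ k ih =>
      rw [cp_succ, cp_succ, ih, Nat.zero_add]
      show P (k + 1) • g k ((P k).inv • P k • cp g 0 k z) = _
      rw [SU.inv_smul_smul]
  have h0 : P 0 • y = ((0 : ℂ) : Sph) := by rw [hP0, hA0]
  have hpo' : ∀ p : ℕ → Sph, p 0 = ((0 : ℂ) : Sph) →
      (∀ k < J, dist (p (k + 1)) (g' k (p k)) < δ) → ∀ k < J, r ≤ dist (p (k + 1)) (∞ : Sph) := by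
    intro p hp0 hp k hk
    have h1 := hpo (fun k => (P k).inv • p k) (by
      show (P 0).inv • p 0 = y
      rw [hp0, ← h0, SU.inv_smul_smul]) (by
      intro j hj
      have h2 := hp j hj
      have h3 : dist ((P (j + 1)).inv • p (j + 1)) (g j ((P j).inv • p j)) =
          dist (p (j + 1)) (g' j (p j)) := by
        rw [← hd (P (j + 1)), SU.smul_inv_smul]
      show dist ((P (j + 1)).inv • p (j + 1)) (g j ((P j).inv • p j)) < δ
      rw [h3]
      exact h2) k hk
    have h4 : dist ((P (k + 1)).inv • p (k + 1)) (x (k + 1)) = dist (p (k + 1)) (∞ : Sph) := by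
      rw [← hd (P (k + 1)), SU.smul_inv_smul, hPs, hA]
    rw [← h4]
    exact h1
  have h5 : dist (P 0 • y') ((0 : ℂ) : Sph) = dist y' y := by
    rw [← h0, hd]
  have h6 := H J g' hg' hlip' hpo' (P 0 • y') (by rw [h5]; exact hy')
  rw [h5, ← h0, hcp, hcp, hd] at h6
  exact h6

end Pool.Agent.H84.UC
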