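import Mathlib

/-!
# MODULE CHAIN: cyclic selection (pure combinatorics)

PROOF.  Let `N = |Ω|`.  For `Good (m-1)`: the number of bad pairs is
`Σ_ω #{ω' | bad} = Σ_ω' #{ω | bad}` (`Finset.sum_card_bipartiteAbove_eq_sum_card_bipartiteBelow` or
`Finset.card_filter` on the product), and four times it is `< N * N`, so there is `ω₀` with
`4 * #{ω | ¬ Good (m-1) ω ω₀} < N`.  Choose `ω 0 = ω₀`; recursively choose `ω (j+1)` for `j+1 < m-1` with
`Good j (ω j) (ω (j+1))` (possible, since less than a quarter is bad).  Finally choose `ω (m-1)` outside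
the two bad sets `{ω' | ¬ Good (m-2) (ω (m-2)) ω'}` and `{ω' | ¬ Good (m-1) ω' ω₀}`, which together have
less than `N/2` elements.  (For `m = 2` the element `ω (m-2)` is `ω 0 = ω₀`.)
-/

set_option autoImplicit false

namespace Pool.Agent.H84.UC

open Classical in
theorem chain {Ω : Type} [Fintype Ω] [Nonempty Ω] (m : ℕ) (hm : 2 ≤ m)
    (Good : ℕ → Ω → Ω → Prop)
    (h : ∀ j < m, ∀ ω, 4 * (Finset.univ.filter (fun ω' => ¬ Good j ω ω')).card < Fintype.card Ω) :
    ∃ ω : ℕ → Ω, (∀ j, j + 1 < m → Good j (ω j) (ω (j + 1))) ∧ Good (m - 1) (ω (m - 1)) (ω 0) := by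
  have hN : 0 < Fintype.card Ω := Fintype.card_pos
  -- double counting
  have hex : ∃ ω₀ : Ω, 4 * (Finset.univ.filter (fun ω => ¬ Good (m - 1) ω ω₀)).card
      < Fintype.card Ω := by
    by_contra hcon
    push Not at hcon
    have hsum : ∑ ω : Ω, (Finset.univ.filter (fun ω' => ¬ Good (m - 1) ω ω')).card
        = ∑ ω' : Ω, (Finset.univ.filter (fun ω => ¬ Good (m - 1) ω ω')).card := by
      simp only [Finset.card_filter]
      exact Finset.sum_comm
    have h1 : ∑ ω : Ω, 4 * (Finset.univ.filter (fun ω' => ¬ Good (m - 1) ω ω')).card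
        < ∑ _ω : Ω, Fintype.card Ω := by
      apply Finset.sum_lt_sum_of_nonempty Finset.univ_nonempty
      intro ω _
      exact h (m - 1) (by omega) ω
    have h2 : ∑ _ω : Ω, Fintype.card Ω
        ≤ ∑ ω' : Ω, 4 * (Finset.univ.filter (fun ω => ¬ Good (m - 1) ω ω')).card := by
      apply Finset.sum_le_sum
      intro ω _
      exact hcon ω
    rw [← Finset.mul_sum] at h1 h2
    rw [hsum] at h1
    omega
  obtain ⟨ω₀, hω₀⟩ := hex
  have hstep : ∀ j < m, ∀ ω : Ω, ∃ ω', Good j ω ω' := by
    intro j hj ω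
    by_contra hcon
    push Not at hcon
    have h1 := h j hj ω
    rw [Finset.filter_true_of_mem (fun x _ => hcon x), Finset.card_univ] at h1
    omega
  have hstep' : ∀ (j : ℕ) (ω : Ω), ∃ ω', j < m → Good j ω ω' := by
    intro j ω
    by_cases hj : j < m
    · obtain ⟨w, hw⟩ := hstep j hj ω
      exact ⟨w, fun _ => hw⟩
    · exact ⟨ω, fun h => absurd h hj⟩
  choose f hf using hstep'
  let s : ℕ → Ω := fun j => Nat.rec ω₀ (fun j w => f j w) j
  have hs : ∀ j, s (j + 1) = f j (s j) := fun j => rfl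
  have hs0 : s 0 = ω₀ := rfl
  have hw : ∃ w, Good (m - 2) (s (m - 2)) w ∧ Good (m - 1) w ω₀ := by
    by_contra hcon
    push Not at hcon
    have hcov : (Finset.univ : Finset Ω) ⊆
        (Finset.univ.filter (fun ω' => ¬ Good (m - 2) (s (m - 2)) ω')) ∪
        (Finset.univ.filter (fun ω => ¬ Good (m - 1) ω ω₀)) := by
      intro x _
      rw [Finset.mem_union, Finset.mem_filter, Finset.mem_filter]
      by_cases hx : Good (m - 2) (s (m - 2)) x
      · exact Or.inr ⟨Finset.mem_univ _, hcon x hx⟩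
      · exact Or.inl ⟨Finset.mem_univ _, hx⟩
    have hc := (Finset.card_le_card hcov).trans (Finset.card_union_le _ _)
    rw [Finset.card_univ] at hc
    have h1 := h (m - 2) (by omega) (s (m - 2))
    omega
  obtain ⟨w, hw1, hw2⟩ := hw
  refine ⟨fun j => if j = m - 1 then w else s j, ?_, ?_⟩
  · intro j hj
    have hj1 : j ≠ m - 1 := by omega
    simp only [if_neg hj1]
    by_cases hj2 : j + 1 = m - 1
    · simp only [if_pos hj2]
      have : j = m - 2 := by omega
      subst this
      exact hw1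
    · simp only [if_neg hj2]
      rw [hs]
      exact hf j (s j) (by omega)
  · have h0 : (0 : ℕ) ≠ m - 1 := by omega
    simp only [if_true, if_neg h0, hs0]
    exact hw2

end Pool.Agent.H84.UC
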