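import Mathlib
import Pool.Agent.H84.UC.Basic

/-!
# MODULE TRANSFER: from windows to single steps

Data: time steps `F 0, F 1, ...` (maps `S → S`), window boundaries `τ 0 = 0 < τ 1 < ...`, skeleton kicks
`a k : ℕ → K` of window `k` (indexed by the time inside the window) and final kicks `R k`.
`h k` is the window map: `h k = cp (kick (a k) (fun t => F (τ k + t))) 0 (τ (k+1) - τ k)`.

PROOF.  For `t : ℕ` let `idx t` be the window containing `t` (`τ (idx t) ≤ t < τ (idx t + 1)`; it exists
because `τ` is strictly increasing with `τ 0 = 0`, e.g. `Nat.findGreatest (fun k => τ k ≤ t) t`; it is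
unique).  Put `A t = (if t + 1 = τ (idx t + 1) then R (idx t) else 1) * a (idx t) (t - τ (idx t))`.
* Inside window `k`, for `i + l < τ(k+1) - τ k`:
  `cp (kick A F) (τ k + i) l = cp (kick (a k) (fun t => F (τ k + t))) i l` (`cp_congr`, `one_mul`).
* For `i + l = τ(k+1) - τ k`, `l ≥ 1`: the last step has the extra factor `R k`, so
  `cp (kick A F) (τ k + i) l x = R k • cp (kick (a k) ..) i l x` (`mul_smul`).  In particular
  `cp (kick A F) (τ k) (τ (k+1) - τ k) = kick R h k`.
* Induction: `cp (kick A F) (τ k) (τ l - τ k) = cp (kick R h) k (l - k)` for `k ≤ l`, first conclusion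
  for `k = 0`.
* A birth at time `t` of window `k < M` with `t' = t - τ k`: if `t + 1 < τ (k+1)` then
  `A t = a k t'` and the rest of the window sends `A t • v` to
  `R k • cp (kick (a k) ..) (t'+1) (τ(k+1) - τ k - (t'+1)) (a k t' • v)`; if `t + 1 = τ (k+1)` then
  `A t • v = R k • (a k t' • v)`.  Then apply the previous item from `k+1` to `M`.
-/

set_option autoImplicit false

namespace Pool.Agent.H84.UC

theorem transfer {S K : Type} [Monoid K] [MulAction K S] (F : ℕ → S → S) (τ : ℕ → ℕ)
    (h0 : τ 0 = 0) (hτ : StrictMono τ) (a : ℕ → ℕ → K) (R : ℕ → K) (h : ℕ → S → S)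
    (hh : ∀ k, h k = cp (kick (a k) (fun t => F (τ k + t))) 0 (τ (k + 1) - τ k)) :
    ∃ A : ℕ → K,
      (∀ t, ∃ k, ∃ t', t' < τ (k + 1) - τ k ∧ t = τ k + t' ∧
        A t = (if t + 1 = τ (k + 1) then R k else 1) * a k t') ∧
      (∀ M x, cp (kick A F) 0 (τ M) x = cp (kick R h) 0 M x) ∧
      (∀ M k t' : ℕ, k < M → t' < τ (k + 1) - τ k → ∀ v : S,
        cp (kick A F) (τ k + t' + 1) (τ M - (τ k + t' + 1)) (A (τ k + t') • v) =
          cp (kick R h) (k + 1) (M - (k + 1)) (R k •
            cp (kick (a k) (fun t => F (τ k + t))) (t' + 1) (τ (k + 1) - τ k - (t' + 1))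
              (a k t' • v))) := by
  classical
  have hle : ∀ k, k ≤ τ k := fun k => hτ.le_apply
  let idx : ℕ → ℕ := fun t => Nat.findGreatest (fun k => τ k ≤ t) t
  have hidx1 : ∀ t, τ (idx t) ≤ t := by
    intro t
    exact Nat.findGreatest_spec (P := fun k => τ k ≤ t) (m := 0) (Nat.zero_le t)
      (by show τ 0 ≤ t; rw [h0]; exact Nat.zero_le t)
  have hidx2 : ∀ t, t < τ (idx t + 1) := by
    intro t
    by_contra hc
    have hc' : τ (idx t + 1) ≤ t := not_lt.1 hc
    have h1 : idx t + 1 ≤ idx t :=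
      Nat.le_findGreatest (P := fun k => τ k ≤ t) ((hle _).trans hc') hc'
    omega
  have huniq : ∀ k t, τ k ≤ t → t < τ (k + 1) → idx t = k := by
    intro k t h1 h2
    have h3 : idx t < k + 1 := hτ.lt_iff_lt.1 ((hidx1 t).trans_lt h2)
    have h4 : k < idx t + 1 := hτ.lt_iff_lt.1 (h1.trans_lt (hidx2 t))
    omega
  have hlt : ∀ k, τ k < τ (k + 1) := fun k => hτ (Nat.lt_succ_self k)
  let A : ℕ → K := fun t =>
    (if t + 1 = τ (idx t + 1) then R (idx t) else 1) * a (idx t) (t - τ (idx t))
  have hA : ∀ k t', t' < τ (k + 1) - τ k →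
      A (τ k + t') = (if τ k + t' + 1 = τ (k + 1) then R k else 1) * a k t' := by
    intro k t' ht
    have hi : idx (τ k + t') = k := huniq k _ (by omega) (by omega)
    show (if τ k + t' + 1 = τ (idx (τ k + t') + 1) then R (idx (τ k + t')) else 1) *
      a (idx (τ k + t')) (τ k + t' - τ (idx (τ k + t'))) = _
    rw [hi, Nat.add_sub_cancel_left]
  have hin : ∀ k i l, i + l < τ (k + 1) - τ k → ∀ x,
      cp (kick A F) (τ k + i) l x = cp (kick (a k) (fun t => F (τ k + t))) i l x := by
    intro k i l hil x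
    refine cp_congr (fun j hj => ?_) x
    funext y
    show A (τ k + i + j) • F (τ k + i + j) y = a k (i + j) • F (τ k + (i + j)) y
    rw [Nat.add_assoc, hA k (i + j) (by omega), if_neg (by omega), one_mul]
  have hend : ∀ k i l, i + l = τ (k + 1) - τ k → 1 ≤ l → ∀ x,
      cp (kick A F) (τ k + i) l x =
        R k • cp (kick (a k) (fun t => F (τ k + t))) i l x := by
    intro k i l hil hl x
    obtain ⟨l', rfl⟩ : ∃ l', l = l' + 1 := ⟨l - 1, by omega⟩
    rw [cp_succ, cp_succ, hin k i l' (by omega)]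
    show A (τ k + i + l') • F (τ k + i + l') _ = R k • (a k (i + l') • F (τ k + (i + l')) _)
    have hk := hlt k
    rw [Nat.add_assoc, hA k (i + l') (by omega), if_pos (by omega), mul_smul]
  have hwin : ∀ j k x, cp (kick A F) (τ k) (τ (k + j) - τ k) x = cp (kick R h) k j x := by
    intro j
    induction j with
    | zero => intro k x; simp
    | succ j ih =>
      intro k x
      have hk1 : τ k ≤ τ (k + j) := hτ.monotone (Nat.le_add_right k j)
      have hk2 := hlt (k + j)
      have e : τ (k + (j + 1)) - τ k = (τ (k + j) - τ k) + (τ (k + j + 1) - τ (k + j)) := by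
        rw [← Nat.add_assoc]; omega
      rw [e, cp_add, ih, cp_succ]
      have e2 : τ k + (τ (k + j) - τ k) = τ (k + j) + 0 := by omega
      rw [e2, hend (k + j) 0 (τ (k + j + 1) - τ (k + j)) (by omega) (by omega), ← hh]
      rfl
  refine ⟨A, ?_, ?_, ?_⟩
  · intro t
    have h1 := hidx1 t
    have h2 := hidx2 t
    refine ⟨idx t, t - τ (idx t), by omega, by omega, rfl⟩
  · intro M x
    have := hwin M 0 x
    rwa [h0, Nat.zero_add, Nat.sub_zero] at this
  · intro M k t' hkM ht v
    have hk := hlt k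
    have hM : τ (k + 1) ≤ τ M := hτ.monotone hkM
    have e : τ M - (τ k + t' + 1) =
        (τ (k + 1) - τ k - (t' + 1)) + (τ M - τ (k + 1)) := by omega
    have e2 : τ k + t' + 1 + (τ (k + 1) - τ k - (t' + 1)) = τ (k + 1) := by omega
    rw [e, cp_add, e2]
    have e3 : τ M - τ (k + 1) = τ (k + 1 + (M - (k + 1))) - τ (k + 1) := by
      congr 2; omega
    rw [e3, hwin (M - (k + 1)) (k + 1)]
    congr 1
    by_cases hc : t' + 1 = τ (k + 1) - τ k
    · have e4 : τ (k + 1) - τ k - (t' + 1) = 0 := by omega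
      rw [e4, cp_zero, cp_zero, hA k t' ht, if_pos (by omega), mul_smul]
    · rw [Nat.add_assoc (τ k) t' 1, hend k (t' + 1) (τ (k + 1) - τ k - (t' + 1)) (by omega)
        (by omega), hA k t' ht, if_neg (by omega), one_mul]

end Pool.Agent.H84.UC
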