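import Mathlib
import Pool.Agent.H84.UC.Sphere
import Pool.Agent.H84.UC.Basic
import Pool.Agent.H44.Fatou.Coset
import Pool.Agent.H35.NA.Alg

/-!
# MODULE CVU: at most `2 d` critical values; critical points of compositions

PROOFS.
`cv_card`: a critical point is `∞` or a finite zero of `Wr P Q` (`crit_coe`); `Wr P Q ≠ 0` (`wr_ne_zero`), its
degree is at most `2d - 1`, so there are at most `2d - 1` finite ones.  `W` = image under `rat P Q`.
`crit_cp`: induction on `n`; if `g n` is injective on a neighbourhood of `cp g 0 n x` and `cp g 0 n` on a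
neighbourhood of `x` then the composition is injective near `x` (compare `H35.NA.crit_comp`, which can
be used directly: `crit f = {c | ¬ ∃ U ∈ 𝓝 c, InjOn f U}`).
-/

set_option autoImplicit false

open Filter Topology OnePoint
open Pool.Agent.H44.Fatou

namespace Pool.Agent.H84.UC

theorem wr_natDegree {P Q : Polynomial ℂ} {d : ℕ} (hd : 1 ≤ d)
    (hdeg : max P.natDegree Q.natDegree = d) : (Wr P Q).natDegree ≤ 2 * d - 1 := by
  have hP : P.natDegree ≤ d := hdeg ▸ le_max_left _ _
  have hQ : Q.natDegree ≤ d := hdeg ▸ le_max_right _ _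
  have hP' := Polynomial.natDegree_derivative_le P
  have hQ' := Polynomial.natDegree_derivative_le Q
  unfold Wr
  refine (Polynomial.natDegree_sub_le _ _).trans (max_le ?_ ?_)
  · exact Polynomial.natDegree_mul_le.trans (by omega)
  · exact Polynomial.natDegree_mul_le.trans (by omega)

theorem cv_card {P Q : Polynomial ℂ} (h : IsCoprime P Q) {d : ℕ} (hd : 2 ≤ d)
    (hdeg : max P.natDegree Q.natDegree = d) :
    ∃ W : Finset Sph, W.card ≤ 2 * d ∧
      ∀ y : Sph, (¬ ∃ U ∈ 𝓝 y, Set.InjOn (rat P Q) U) → rat P Q y ∈ W := by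
  classical
  have hW := wr_ne_zero h (hdeg ▸ (by omega : 1 ≤ d))
  refine ⟨insert (rat P Q ∞) ((Wr P Q).roots.toFinset.image fun c : ℂ => rat P Q (c : Sph)), ?_, ?_⟩
  · refine (Finset.card_insert_le _ _).trans ?_
    have h1 : ((Wr P Q).roots.toFinset.image fun c : ℂ => rat P Q (c : Sph)).card ≤ 2 * d - 1 :=
      Finset.card_image_le.trans ((Multiset.toFinset_card_le _).trans
        ((Polynomial.card_roots' _).trans (wr_natDegree (by omega) hdeg)))
    omega
  · intro y hy
    induction y using OnePoint.rec with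
    | infty => exact Finset.mem_insert_self _ _
    | coe c =>
      refine Finset.mem_insert_of_mem (Finset.mem_image_of_mem _ ?_)
      rw [Multiset.mem_toFinset, Polynomial.mem_roots hW]
      exact crit_coe hy

theorem crit_cp {g : ℕ → Sph → Sph} (hg : ∀ t, Continuous (g t)) {n : ℕ} {x : Sph}
    (hx : ¬ ∃ U ∈ 𝓝 x, Set.InjOn (cp g 0 n) U) :
    ∃ t < n, ¬ ∃ U ∈ 𝓝 (cp g 0 t x), Set.InjOn (g t) U := by
  induction n with
  | zero =>
    exact absurd ⟨Set.univ, Filter.univ_mem, fun a _ b _ hab => hab⟩ hx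
  | succ n ih =>
    by_cases h1 : ∃ U ∈ 𝓝 x, Set.InjOn (cp g 0 n) U
    · refine ⟨n, by omega, ?_⟩
      rintro ⟨U2, hU2, h2⟩
      obtain ⟨U1, hU1, h1⟩ := h1
      apply hx
      have hc : Continuous (cp g 0 n) := by
        clear hx ih h1 h2 hU2 U2 hU1 U1
        induction n with
        | zero => exact continuous_id
        | succ n ih => exact (hg _).comp ih
      refine ⟨U1 ∩ (cp g 0 n) ⁻¹' U2, Filter.inter_mem hU1 (hc.continuousAt hU2), ?_⟩
      intro a ha b hb hab
      apply h1 ha.1 hb.1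
      apply h2 ha.2 hb.2
      have hab' : g (0 + n) (cp g 0 n a) = g (0 + n) (cp g 0 n b) := hab
      rwa [Nat.zero_add] at hab'
    · obtain ⟨t, ht, h2⟩ := ih h1
      exact ⟨t, by omega, h2⟩

end Pool.Agent.H84.UC
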