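import Mathlib
import Pool.Agent.H84.UC.Sphere

/-!
# MODULE CLOSE: unit representatives close to a given one

PROOF.  Let `w` be a unit representative of `x` (`exists_unit`).  Let `s = w₁ v̄₁ + w₂ v̄₂`.  Multiplying `w` by the
unimodular number `conj s / ‖s‖` (by `1` if `s = 0`; `pt_smul`) we may assume that `s` is real and
`s ≥ 0`, i.e. `s = ‖s‖`.  Then `‖w-v‖² = ‖w‖² + ‖v‖² - 2 Re s = 2 - 2 s` (Hermitian norm), and by the Lagrange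
identity `s² + ‖w₁ v₂ - v₁ w₂‖² = 1`, i.e. `dist x (pt v)² = 1 - s² ≥ 1 - s` as `0 ≤ s ≤ 1`.
-/

set_option autoImplicit false

open scoped ComplexConjugate
open Pool.Agent.H44.Fatou

namespace Pool.Agent.H84.UC

private theorem close_real {a1 b1 a2 b2 c1 e1 c2 e2 t : ℝ} (ht : 0 ≤ t)
    (hv : c1 * c1 + e1 * e1 + (c2 * c2 + e2 * e2) = 1)
    (hw : a1 * a1 + b1 * b1 + (a2 * a2 + b2 * b2) = 1)
    (h1 : a1 * c1 + b1 * e1 + (a2 * c2 + b2 * e2) = t)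
    (h2 : b1 * c1 - a1 * e1 + (b2 * c2 - a2 * e2) = 0) :
    (a1 - c1) * (a1 - c1) + (b1 - e1) * (b1 - e1) +
      ((a2 - c2) * (a2 - c2) + (b2 - e2) * (b2 - e2)) ≤
    2 * ((a1 * c2 - b1 * e2 - (c1 * a2 - e1 * b2)) * (a1 * c2 - b1 * e2 - (c1 * a2 - e1 * b2)) +
      (a1 * e2 + b1 * c2 - (c1 * b2 + e1 * a2)) * (a1 * e2 + b1 * c2 - (c1 * b2 + e1 * a2))) := by
  have hD : (a1 * c2 - b1 * e2 - (c1 * a2 - e1 * b2)) * (a1 * c2 - b1 * e2 - (c1 * a2 - e1 * b2)) +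
      (a1 * e2 + b1 * c2 - (c1 * b2 + e1 * a2)) * (a1 * e2 + b1 * c2 - (c1 * b2 + e1 * a2)) =
      1 - t ^ 2 := by
    have h5 : t ^ 2 = (a1 * c1 + b1 * e1 + (a2 * c2 + b2 * e2)) ^ 2 +
      (b1 * c1 - a1 * e1 + (b2 * c2 - a2 * e2)) ^ 2 := by rw [h1, h2]; ring
    have h6 : (a1 * a1 + b1 * b1 + (a2 * a2 + b2 * b2)) * (c1 * c1 + e1 * e1 + (c2 * c2 + e2 * e2))
      = 1 := by rw [hv, hw]; norm_num
    rw [h5]
    linear_combination h6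
  have hpos : 0 ≤ (a1 * c2 - b1 * e2 - (c1 * a2 - e1 * b2)) *
      (a1 * c2 - b1 * e2 - (c1 * a2 - e1 * b2)) +
      (a1 * e2 + b1 * c2 - (c1 * b2 + e1 * a2)) * (a1 * e2 + b1 * c2 - (c1 * b2 + e1 * a2)) :=
    add_nonneg (mul_self_nonneg _) (mul_self_nonneg _)
  rw [hD] at hpos ⊢
  have ht2 : t ≤ 1 := by nlinarith only [hpos, ht]
  have hL : (a1 - c1) * (a1 - c1) + (b1 - e1) * (b1 - e1) +
      ((a2 - c2) * (a2 - c2) + (b2 - e2) * (b2 - e2)) = 2 - 2 * t := by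
    linear_combination hv + hw - 2 * h1
  rw [hL]
  nlinarith only [ht2, ht]

private theorem close_aux {v w : ℂ × ℂ} {t : ℝ} (ht : 0 ≤ t) (hv : ‖v.1‖ ^ 2 + ‖v.2‖ ^ 2 = 1)
    (hw : ‖w.1‖ ^ 2 + ‖w.2‖ ^ 2 = 1) (hs : w.1 * conj v.1 + w.2 * conj v.2 = (t : ℂ)) :
    ‖w.1 - v.1‖ ^ 2 + ‖w.2 - v.2‖ ^ 2 ≤ 2 * ‖w.1 * v.2 - v.1 * w.2‖ ^ 2 := by
  have h1 := congrArg Complex.re hs
  have h2 := congrArg Complex.im hs
  simp only [Complex.sq_norm, Complex.normSq_apply] at hv hw ⊢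
  simp only [Complex.add_re, Complex.add_im, Complex.mul_re, Complex.mul_im, Complex.conj_re,
    Complex.conj_im, Complex.ofReal_re, Complex.ofReal_im, Complex.sub_re, Complex.sub_im]
    at h1 h2 ⊢
  exact close_real ht hv hw (by linear_combination h1) (by linear_combination h2)

theorem exists_close {v : ℂ × ℂ} (hv : ‖v.1‖ ^ 2 + ‖v.2‖ ^ 2 = 1) (x : Sph) :
    ∃ w : ℂ × ℂ, ‖w.1‖ ^ 2 + ‖w.2‖ ^ 2 = 1 ∧ pt w.1 w.2 = x ∧
      ‖w.1 - v.1‖ ^ 2 + ‖w.2 - v.2‖ ^ 2 ≤ 2 * dist x (pt v.1 v.2 : Sph) ^ 2 := by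
  obtain ⟨w, hw, rfl⟩ := exists_unit x
  obtain ⟨c, hc, s, hs0, hs⟩ : ∃ c : ℂ, ‖c‖ = 1 ∧ ∃ s : ℝ, 0 ≤ s ∧
      c * (w.1 * conj v.1 + w.2 * conj v.2) = (s : ℂ) := by
    generalize w.1 * conj v.1 + w.2 * conj v.2 = s
    by_cases h : s = 0
    · exact ⟨1, by simp, 0, le_rfl, by simp [h]⟩
    · have hn : ‖s‖ ≠ 0 := norm_ne_zero_iff.2 h
      refine ⟨conj s / ‖s‖, ?_, ‖s‖, norm_nonneg s, ?_⟩
      · rw [norm_div, RCLike.norm_conj, Complex.norm_real, norm_norm, div_self hn]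
      · rw [div_mul_eq_mul_div, mul_comm, Complex.mul_conj, Complex.normSq_eq_norm_sq]
        have hn' : ((‖s‖ : ℝ) : ℂ) ≠ 0 := by exact_mod_cast hn
        field_simp
        push_cast
        ring
  have hc0 : c ≠ 0 := by
    rintro rfl
    simp at hc
  have hw' : ‖(w.1 * c, w.2 * c).1‖ ^ 2 + ‖(w.1 * c, w.2 * c).2‖ ^ 2 = 1 := by
    show ‖w.1 * c‖ ^ 2 + ‖w.2 * c‖ ^ 2 = 1
    rw [norm_mul, norm_mul, hc, mul_one, mul_one, hw]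
  have hpt : pt (w.1 * c) (w.2 * c) = pt w.1 w.2 := pt_smul hc0
  refine ⟨(w.1 * c, w.2 * c), hw', hpt, ?_⟩
  have h := close_aux (v := v) (w := (w.1 * c, w.2 * c)) hs0 hv hw'
    (by rw [← hs]; show w.1 * c * conj v.1 + w.2 * c * conj v.2 = _; ring)
  rw [← hpt, show dist (pt (w.1 * c) (w.2 * c) : Sph) (pt v.1 v.2) = ‖(w.1 * c) * v.2 - v.1 * (w.2 * c)‖
    from dist_unit (v := (w.1 * c, w.2 * c)) (w := v) hw' hv]
  exact h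

end Pool.Agent.H84.UC
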