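import Mathlib
import Pool.Agent.H84.UC.Close
import Pool.Agent.H44.Fatou.PowDense
import Pool.Agent.H35.NA.Alg

/-!
# MODULE RATU: uniform estimates for a compact family of rational maps

`pv a` is the polynomial with coefficient vector `a` (H44/Fatou/PowDense), `rat P Q` the self map of the
sphere given by `P/Q` (H44/Fatou/Basic), `hom P d v = Σ_{i ≤ d} P_i v₁^i v₂^(d-i)` (H76/Fatou/Sph).

PROOF.  For `p = (a, b)` put `H_p(v) = (Σ a_i v₁^i v₂^(d-i), Σ b_i v₁^i v₂^(d-i))` (equal to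
`(hom (pv a) d v, hom (pv b) d v)`).  From `lift_rat` and its proof: for `p ∈ 𝒦`, `v ≠ 0`: `H_p(v) ≠ 0` and
`rat (pv a) (pv b) (pt v) = pt (H_p v)` (here `dg = d`).

BEZOUTIAN.  With `S k x y = Σ_{l < k} x^l y^(k-1-l)`, `x^k - y^k = (x - y) S k x y` (`geom_sum₂_mul`), put
`Ψ(p, w, v) = Σ_{i,j ≤ d} a_i b_j c_{ij}(w, v)`,
`c_{ij} = (w₁v₁)^j (w₂v₂)^(d-i) S (i-j) (w₁v₂) (v₁w₂)` for `j ≤ i`,
`c_{ij} = -(w₁v₁)^i (w₂v₂)^(d-j) S (j-i) (w₁v₂) (v₁w₂)` for `i < j`.  Then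
`H_p(w)₁ H_p(v)₂ - H_p(v)₁ H_p(w)₂ = (w₁ v₂ - v₁ w₂) Ψ(p, w, v)` and `Ψ` is continuous in `(p, w, v)`.

LIPSCHITZ.  `Σ = {v : ℂ × ℂ | ‖v₁‖² + ‖v₂‖² = 1}` is compact.  `nn (H_p v)` is continuous and positive on the
compact set `𝒦 × Σ`, so it is `≥ μ > 0` there; `‖Ψ‖ ≤ C` on `𝒦 × Σ × Σ`.  By `chord_pt`
`dist (rat (pt w)) (rat (pt v)) = ‖w₁ v₂ - v₁ w₂‖ ‖Ψ‖ / (nn (H w) nn (H v)) ≤ (C / μ²) dist (pt w) (pt v)`.
`L = max 1 (C/μ²)`.  (If `𝒦` is empty everything is trivial.)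

CRITICAL POINTS.  For `p ∈ 𝒦` let `z` be a zero of `Wr (pv a) (pv b)` (`H35.NA.wr_root`, `dg = d ≥ 2`), and
`c p = (z : Sph) = pt v` with the unit vector `v = t (z, 1)`, `t = 1 / nn z 1`.
Claim `Ψ(p, v, v) = 0`: for `z' ≠ z` near `z` and `w = t (z', 1)` the Bezout identity reads
`t^(2d) (P z' Q z - P z Q z') = t² (z' - z) Ψ(p, w, v)`; divide by `z' - z` and let `z' → z`: the left side
tends to `t^(2d) (P' z Q z - P z Q' z) = 0`, the right side to `t² Ψ(p, v, v)`.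
Given `η > 0`: by uniform continuity of `Ψ` on the compact set `𝒦 × Σ × Σ` there is `ρ' > 0` with
`‖Ψ(p, w, v)‖ ≤ η μ²` whenever `Ψ(p, v, v) = 0` and `‖w - v‖ ≤ ρ'` (sup norm).  Take `ρ = ρ'/2`, use
`exists_close`: `‖w - v‖ ≤ √2 dist x (c p)`.
-/

set_option autoImplicit false

open Filter Topology OnePoint
open Pool.Agent.H44.Fatou

namespace Pool.Agent.H84.UC

/-- homogeneous form with coefficient vector `a` -/
noncomputable def ruH {d : ℕ} (a : Fin (d + 1) → ℂ) (v : ℂ × ℂ) : ℂ :=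
  ∑ i : Fin (d + 1), a i * (v.1 ^ (i : ℕ) * v.2 ^ (d - (i : ℕ)))

noncomputable def ruS (k : ℕ) (x y : ℂ) : ℂ := ∑ l ∈ Finset.range k, x ^ l * y ^ (k - 1 - l)

noncomputable def ruC (d i j : ℕ) (w v : ℂ × ℂ) : ℂ :=
  if j ≤ i then (w.1 * v.1) ^ j * (w.2 * v.2) ^ (d - i) * ruS (i - j) (w.1 * v.2) (v.1 * w.2)
  else -((w.1 * v.1) ^ i * (w.2 * v.2) ^ (d - j) * ruS (j - i) (w.1 * v.2) (v.1 * w.2))

/-- the Bezoutian -/
noncomputable def ruP {d : ℕ} (a b : Fin (d + 1) → ℂ) (w v : ℂ × ℂ) : ℂ :=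
  ∑ i : Fin (d + 1), ∑ j : Fin (d + 1), a i * b j * ruC d i j w v

theorem ruS_mul (k : ℕ) (x y : ℂ) : (x - y) * ruS k x y = x ^ k - y ^ k := by
  rw [mul_comm]
  exact geom_sum₂_mul x y k

theorem ruC_eq {d i j : ℕ} (hi : i ≤ d) (hj : j ≤ d) (w v : ℂ × ℂ) :
    w.1 ^ i * w.2 ^ (d - i) * (v.1 ^ j * v.2 ^ (d - j))
      - v.1 ^ i * v.2 ^ (d - i) * (w.1 ^ j * w.2 ^ (d - j))
      = (w.1 * v.2 - v.1 * w.2) * ruC d i j w v := by
  unfold ruC
  split_ifs with h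
  · obtain ⟨k, rfl⟩ := Nat.exists_eq_add_of_le h
    obtain ⟨m, rfl⟩ := Nat.exists_eq_add_of_le hi
    have e1 : j + k + m - (j + k) = m := by omega
    have e2 : j + k + m - j = k + m := by omega
    have e3 : j + k - j = k := by omega
    rw [e1, e2, e3]
    have hS := ruS_mul k (w.1 * v.2) (v.1 * w.2)
    calc _ = (w.1 * v.1) ^ j * (w.2 * v.2) ^ m * ((w.1 * v.2) ^ k - (v.1 * w.2) ^ k) := by ring
      _ = _ := by rw [← hS]; ring
  · obtain ⟨k, rfl⟩ := Nat.exists_eq_add_of_le (by omega : i ≤ j)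
    obtain ⟨m, rfl⟩ := Nat.exists_eq_add_of_le hj
    have e1 : i + k + m - (i + k) = m := by omega
    have e2 : i + k + m - i = k + m := by omega
    have e3 : i + k - i = k := by omega
    rw [e1, e2, e3]
    have hS := ruS_mul k (w.1 * v.2) (v.1 * w.2)
    calc _ = -((w.1 * v.1) ^ i * (w.2 * v.2) ^ m * ((w.1 * v.2) ^ k - (v.1 * w.2) ^ k)) := by ring
      _ = _ := by rw [← hS]; ring

theorem ru_bezout {d : ℕ} (a b : Fin (d + 1) → ℂ) (w v : ℂ × ℂ) :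
    ruH a w * ruH b v - ruH a v * ruH b w = (w.1 * v.2 - v.1 * w.2) * ruP a b w v := by
  unfold ruH ruP
  rw [Finset.sum_mul_sum, Finset.sum_mul_sum, ← Finset.sum_sub_distrib, Finset.mul_sum]
  refine Finset.sum_congr rfl fun i _ => ?_
  rw [← Finset.sum_sub_distrib, Finset.mul_sum]
  refine Finset.sum_congr rfl fun j _ => ?_
  have h := ruC_eq (Nat.lt_succ_iff.1 i.2) (Nat.lt_succ_iff.1 j.2) w v
  linear_combination a i * b j * h

theorem ruS_continuous (k : ℕ) : Continuous fun q : ℂ × ℂ => ruS k q.1 q.2 := by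
  unfold ruS
  fun_prop

theorem ruC_continuous (d i j : ℕ) :
    Continuous fun q : (ℂ × ℂ) × (ℂ × ℂ) => ruC d i j q.1 q.2 := by
  have h : ∀ k, Continuous fun q : (ℂ × ℂ) × (ℂ × ℂ) =>
      ruS k (q.1.1 * q.2.2) (q.2.1 * q.1.2) := fun k =>
    (ruS_continuous k).comp (by fun_prop :
      Continuous fun q : (ℂ × ℂ) × (ℂ × ℂ) => (q.1.1 * q.2.2, q.2.1 * q.1.2))
  unfold ruC
  split_ifs with hij
  · exact (by fun_prop : Continuous fun q : (ℂ × ℂ) × (ℂ × ℂ) =>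
      (q.1.1 * q.2.1) ^ j * (q.1.2 * q.2.2) ^ (d - i)).mul (h _)
  · exact ((by fun_prop : Continuous fun q : (ℂ × ℂ) × (ℂ × ℂ) =>
      (q.1.1 * q.2.1) ^ i * (q.1.2 * q.2.2) ^ (d - j)).mul (h _)).neg

theorem ruP_continuous (d : ℕ) :
    Continuous fun q : ((Fin (d + 1) → ℂ) × (Fin (d + 1) → ℂ)) × ((ℂ × ℂ) × (ℂ × ℂ)) =>
      ruP q.1.1 q.1.2 q.2.1 q.2.2 := by
  unfold ruP
  refine continuous_finsetSum _ fun i _ => continuous_finsetSum _ fun j _ => ?_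
  have h1 : Continuous fun q : ((Fin (d + 1) → ℂ) × (Fin (d + 1) → ℂ)) × ((ℂ × ℂ) × (ℂ × ℂ)) =>
      q.1.1 i * q.1.2 j := by fun_prop
  exact h1.mul ((ruC_continuous d i j).comp continuous_snd)

theorem ruH_continuous (d : ℕ) :
    Continuous fun q : (Fin (d + 1) → ℂ) × (ℂ × ℂ) => ruH q.1 q.2 := by
  unfold ruH
  fun_prop

theorem ruP_differentiable {d : ℕ} (a b : Fin (d + 1) → ℂ) (v : ℂ × ℂ) (t : ℂ) :
    Differentiable ℂ fun z : ℂ => ruP a b (z * t, t) v := by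
  unfold ruP ruC ruS
  refine Differentiable.fun_sum fun i _ => Differentiable.fun_sum fun j _ => ?_
  split_ifs
  · fun_prop
  · fun_prop

open Pool.Agent.H76.Fatou in
theorem hom_pv {d : ℕ} (a : Fin (d + 1) → ℂ) (v : ℂ × ℂ) : hom (pv a) d v = ruH a v := by
  unfold hom ruH
  rw [Finset.sum_range]
  refine Finset.sum_congr rfl fun i _ => ?_
  rw [pv_coeff, dif_pos i.2]

open Pool.Agent.H76.Fatou in
theorem rat_hom {P Q : Polynomial ℂ} (h : IsCoprime P Q) {v : ℂ × ℂ} (hv : v ≠ 0) :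
    (hom P (dg P Q) v ≠ 0 ∨ hom Q (dg P Q) v ≠ 0) ∧
      rat P Q (pt v.1 v.2) = pt (hom P (dg P Q) v) (hom Q (dg P Q) v) := by
  constructor
  · by_cases h2 : v.2 = 0
    · have h1 : v.1 ≠ 0 := by
        rcases ne_zero_iff.1 hv with h1 | h1
        · exact h1
        · exact absurd h2 h1
      rw [hom_zero h2, hom_zero h2]
      rcases coeff_dg h with h3 | h3
      · left; exact mul_ne_zero h3 (pow_ne_zero _ h1)
      · right; exact mul_ne_zero h3 (pow_ne_zero _ h1)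
    · rw [hom_eq (d := dg P Q) (le_max_left _ _) h2, hom_eq (d := dg P Q) (le_max_right _ _) h2]
      rcases coprime_eval h (v.1 / v.2) with h3 | h3
      · left; exact mul_ne_zero h3 (pow_ne_zero _ h2)
      · right; exact mul_ne_zero h3 (pow_ne_zero _ h2)
  · by_cases h2 : v.2 = 0
    · have h1 : v.1 ≠ 0 := by
        rcases ne_zero_iff.1 hv with h1 | h1
        · exact h1
        · exact absurd h2 h1
      rw [hom_zero h2, hom_zero h2, h2, pt_zero, rat_infty, pt_smul (pow_ne_zero _ h1)]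
    · rw [hom_eq (d := dg P Q) (le_max_left _ _) h2, hom_eq (d := dg P Q) (le_max_right _ _) h2,
        pt_smul (pow_ne_zero _ h2)]
      have : pt v.1 v.2 = ((v.1 / v.2 : ℂ) : OnePoint ℂ) := by unfold pt; rw [if_neg h2]
      rw [this, rat_coe]

/-- the sphere of unit vectors -/
def ruSig : Set (ℂ × ℂ) := {v | ‖v.1‖ ^ 2 + ‖v.2‖ ^ 2 = 1}

theorem ruSig_compact : IsCompact ruSig := by
  refine Metric.isCompact_of_isClosed_isBounded ?_ ?_
  · exact isClosed_eq (by fun_prop) continuous_const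
  · refine (Metric.isBounded_closedBall (x := (0 : ℂ × ℂ)) (r := 1)).subset ?_
    intro v hv
    have hv' : ‖v.1‖ ^ 2 + ‖v.2‖ ^ 2 = 1 := hv
    rw [mem_closedBall_zero_iff, Prod.norm_def]
    refine max_le ?_ ?_
    · nlinarith [norm_nonneg v.1, sq_nonneg ‖v.2‖]
    · nlinarith [norm_nonneg v.2, sq_nonneg ‖v.1‖]

theorem rat_unif {d : ℕ} (hd : 2 ≤ d) {𝒦 : Set ((Fin (d + 1) → ℂ) × (Fin (d + 1) → ℂ))}
    (hK : IsCompact 𝒦)
    (h : ∀ p ∈ 𝒦, IsCoprime (pv p.1) (pv p.2) ∧ max (pv p.1).natDegree (pv p.2).natDegree = d) :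
    ∃ L : ℝ, 1 ≤ L ∧
      (∀ p ∈ 𝒦, ∀ x y : Sph, dist (rat (pv p.1) (pv p.2) x) (rat (pv p.1) (pv p.2) y)
        ≤ L * dist x y) ∧
      ∃ c : (Fin (d + 1) → ℂ) × (Fin (d + 1) → ℂ) → Sph, ∀ η : ℝ, 0 < η → ∃ ρ : ℝ, 0 < ρ ∧
        ∀ p ∈ 𝒦, ∀ x : Sph, dist x (c p) ≤ ρ →
          dist (rat (pv p.1) (pv p.2) x) (rat (pv p.1) (pv p.2) (c p)) ≤ η * dist x (c p) := by
  have hdg : ∀ p ∈ 𝒦, dg (pv p.1) (pv p.2) = d := fun p hp => (h p hp).2
  have hrat : ∀ p ∈ 𝒦, ∀ v : ℂ × ℂ, v ≠ 0 → (ruH p.1 v ≠ 0 ∨ ruH p.2 v ≠ 0) ∧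
      rat (pv p.1) (pv p.2) (pt v.1 v.2) = pt (ruH p.1 v) (ruH p.2 v) := by
    intro p hp v hv
    have h1 := rat_hom (h p hp).1 hv
    rw [hdg p hp, hom_pv, hom_pv] at h1
    exact h1
  have hne : ∀ v ∈ ruSig, v ≠ 0 := by
    rintro v hv rfl
    have hv' : ‖(0 : ℂ × ℂ).1‖ ^ 2 + ‖(0 : ℂ × ℂ).2‖ ^ 2 = 1 := hv
    simp at hv'
  -- lower bound
  obtain ⟨μ, hμ, hμ'⟩ := (hK.prod ruSig_compact).exists_forall_le' (a := (0 : ℝ))
    (f := fun q : ((Fin (d + 1) → ℂ) × (Fin (d + 1) → ℂ)) × (ℂ × ℂ) =>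
      Pool.Agent.H91.Fatou.nn (ruH q.1.1 q.2) (ruH q.1.2 q.2)) (by
      have h1 : Continuous fun q : ((Fin (d + 1) → ℂ) × (Fin (d + 1) → ℂ)) × (ℂ × ℂ) =>
          ruH q.1.1 q.2 := (ruH_continuous d).comp (by fun_prop :
        Continuous fun q : ((Fin (d + 1) → ℂ) × (Fin (d + 1) → ℂ)) × (ℂ × ℂ) => (q.1.1, q.2))
      have h2 : Continuous fun q : ((Fin (d + 1) → ℂ) × (Fin (d + 1) → ℂ)) × (ℂ × ℂ) =>
          ruH q.1.2 q.2 := (ruH_continuous d).comp (by fun_prop :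
        Continuous fun q : ((Fin (d + 1) → ℂ) × (Fin (d + 1) → ℂ)) × (ℂ × ℂ) => (q.1.2, q.2))
      unfold Pool.Agent.H91.Fatou.nn
      exact (Real.continuous_sqrt.comp ((h1.norm.pow 2).add (h2.norm.pow 2))).continuousOn)
    (by
      rintro ⟨p, v⟩ ⟨hp, hv⟩
      exact Pool.Agent.H91.Fatou.nn_pos (hrat p hp v (hne v hv)).1)
  -- the compact set
  set T : Set (((Fin (d + 1) → ℂ) × (Fin (d + 1) → ℂ)) × ((ℂ × ℂ) × (ℂ × ℂ))) :=
    𝒦 ×ˢ (ruSig ×ˢ ruSig) with hT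
  have hTc : IsCompact T := hK.prod (ruSig_compact.prod ruSig_compact)
  obtain ⟨C, hC⟩ := hTc.exists_bound_of_continuousOn (ruP_continuous d).continuousOn
  -- the distance formula
  have key : ∀ p ∈ 𝒦, ∀ w ∈ ruSig, ∀ v ∈ ruSig, ∀ E : ℝ, 0 ≤ E → ‖ruP p.1 p.2 w v‖ ≤ E * μ ^ 2 →
      dist (rat (pv p.1) (pv p.2) (pt w.1 w.2)) (rat (pv p.1) (pv p.2) (pt v.1 v.2))
        ≤ E * dist (pt w.1 w.2 : Sph) (pt v.1 v.2) := by
    intro p hp w hw v hv E hE hb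
    have h1 := hrat p hp w (hne w hw)
    have h2 := hrat p hp v (hne v hv)
    rw [h1.2, h2.2, dist_eq_chord, Pool.Agent.H91.Fatou.chord_pt h1.1 h2.1, dist_unit hw hv,
      ru_bezout, norm_mul]
    have h3 : μ ≤ Pool.Agent.H91.Fatou.nn (ruH p.1 w) (ruH p.2 w) := hμ' (p, w) ⟨hp, hw⟩
    have h4 : μ ≤ Pool.Agent.H91.Fatou.nn (ruH p.1 v) (ruH p.2 v) := hμ' (p, v) ⟨hp, hv⟩
    have h5 : μ ^ 2 ≤ Pool.Agent.H91.Fatou.nn (ruH p.1 w) (ruH p.2 w) *
        Pool.Agent.H91.Fatou.nn (ruH p.1 v) (ruH p.2 v) := by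
      rw [sq]
      exact mul_le_mul h3 h4 hμ.le (hμ.le.trans h3)
    rw [div_le_iff₀ (lt_of_lt_of_le (by positivity) h5)]
    calc ‖w.1 * v.2 - v.1 * w.2‖ * ‖ruP p.1 p.2 w v‖
        ≤ ‖w.1 * v.2 - v.1 * w.2‖ * (E * μ ^ 2) := by gcongr
      _ ≤ ‖w.1 * v.2 - v.1 * w.2‖ * (E * (Pool.Agent.H91.Fatou.nn (ruH p.1 w) (ruH p.2 w) *
        Pool.Agent.H91.Fatou.nn (ruH p.1 v) (ruH p.2 v))) := by gcongr
      _ = _ := by ring
  refine ⟨max 1 (C / μ ^ 2), le_max_left _ _, ?_, ?_⟩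
  · intro p hp x y
    obtain ⟨w, hw, rfl⟩ := exists_unit x
    obtain ⟨v, hv, rfl⟩ := exists_unit y
    refine key p hp w hw v hv _ (zero_le_one.trans (le_max_left _ _)) ?_
    have h1 := hC (p, (w, v)) ⟨hp, hw, hv⟩
    calc ‖ruP p.1 p.2 w v‖ ≤ C := h1
      _ = C / μ ^ 2 * μ ^ 2 := by field_simp
      _ ≤ _ := by gcongr; exact le_max_right _ _
  · -- critical points
    have hz : ∀ p, p ∈ 𝒦 → ∃ z : ℂ, (Wr (pv p.1) (pv p.2)).eval z = 0 := fun p hp =>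
      Pool.Agent.H35.NA.wr_root (h p hp).1 (by rw [hdg p hp]; exact hd)
    choose! z hz using hz
    refine ⟨fun p => ((z p : ℂ) : Sph), ?_⟩
    intro η hη
    have huc := hTc.uniformContinuousOn_of_continuous (ruP_continuous d).continuousOn
    rw [Metric.uniformContinuousOn_iff] at huc
    obtain ⟨ρ', hρ', huc⟩ := huc (η * μ ^ 2) (by positivity)
    refine ⟨ρ' / 2, by positivity, ?_⟩
    intro p hp x hx
    -- the unit vector of the critical point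
    set n := Pool.Agent.H91.Fatou.nn (z p) 1 with hn
    have hn0 : 0 < n := Pool.Agent.H91.Fatou.nn_pos (Or.inr one_ne_zero)
    set t : ℂ := ((n⁻¹ : ℝ) : ℂ) with ht
    have ht0 : t ≠ 0 := by
      rw [ht]
      exact_mod_cast (inv_pos.2 hn0).ne'
    have hsig : (z p * t, t) ∈ ruSig := by
      show ‖z p * t‖ ^ 2 + ‖t‖ ^ 2 = 1
      have e1 : ‖t‖ = n⁻¹ := by
        rw [ht, Complex.norm_real, Real.norm_eq_abs, abs_of_pos (inv_pos.2 hn0)]
      have e2 : n ^ 2 = ‖z p‖ ^ 2 + ‖(1 : ℂ)‖ ^ 2 := nn_sq _ _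
      rw [norm_mul, e1, mul_pow, inv_pow, e2, norm_one]
      have e3 : (0 : ℝ) < ‖z p‖ ^ 2 + 1 ^ 2 := by positivity
      field_simp
    have hpt : (pt (z p * t) t : Sph) = ((z p : ℂ) : Sph) := by
      have := pt_smul (x := z p) (y := 1) ht0
      rw [one_mul] at this
      rw [this, Pool.Agent.H76.Fatou.pt_one]
    have hΨ : ruP p.1 p.2 (z p * t, t) (z p * t, t) = 0 := by
      have hev : ∀ (a : Fin (d + 1) → ℂ) (y : ℂ),
          ruH a (y * t, t) = (pv a).eval y * t ^ d := by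
        intro a y
        rw [← hom_pv, Pool.Agent.H76.Fatou.hom_eq (pv_natDegree a) (by exact ht0)]
        simp only
        rw [mul_div_cancel_right₀ _ ht0]
      have hid : (fun y : ℂ => (pv p.1).eval y * t ^ d * ((pv p.2).eval (z p) * t ^ d)
          - (pv p.1).eval (z p) * t ^ d * ((pv p.2).eval y * t ^ d))
          = fun y : ℂ => (y * t * t - z p * t * t) * ruP p.1 p.2 (y * t, t) (z p * t, t) := by
        funext y
        have := ru_bezout p.1 p.2 (y * t, t) (z p * t, t)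
        rw [hev, hev, hev, hev] at this
        exact this
      have d1 : HasDerivAt (fun y : ℂ => (pv p.1).eval y * t ^ d * ((pv p.2).eval (z p) * t ^ d)
          - (pv p.1).eval (z p) * t ^ d * ((pv p.2).eval y * t ^ d))
          ((pv p.1).derivative.eval (z p) * t ^ d * ((pv p.2).eval (z p) * t ^ d)
          - (pv p.1).eval (z p) * t ^ d * ((pv p.2).derivative.eval (z p) * t ^ d)) (z p) := by
        refine HasDerivAt.sub ?_ ?_
        · exact (((pv p.1).hasDerivAt (z p)).mul_const _).mul_const _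
        · exact (((pv p.2).hasDerivAt (z p)).mul_const _).const_mul _
      have d2 : HasDerivAt (fun y : ℂ => (y * t * t - z p * t * t) *
          ruP p.1 p.2 (y * t, t) (z p * t, t))
          ((1 * t * t) * ruP p.1 p.2 (z p * t, t) (z p * t, t) +
            (z p * t * t - z p * t * t) *
              deriv (fun y : ℂ => ruP p.1 p.2 (y * t, t) (z p * t, t)) (z p)) (z p) := by
        refine HasDerivAt.mul ?_ ?_
        · exact (((hasDerivAt_id (z p)).mul_const t).mul_const t).sub_const _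
        · exact ((ruP_differentiable p.1 p.2 (z p * t, t) t) (z p)).hasDerivAt
      rw [hid] at d1
      have h1 := d1.unique d2
      have h2 := hz p hp
      unfold Wr at h2
      rw [Polynomial.eval_sub, Polynomial.eval_mul, Polynomial.eval_mul] at h2
      have h3 : t * t * ruP p.1 p.2 (z p * t, t) (z p * t, t) = 0 := by
        linear_combination -h1 + t ^ d * t ^ d * h2
      rcases mul_eq_zero.1 h3 with h4 | h4
      · exact absurd h4 (mul_ne_zero ht0 ht0)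
      · exact h4
    obtain ⟨w, hw, hwx, hwd⟩ := exists_close (v := (z p * t, t)) hsig x
    simp only at hwd
    rw [hpt] at hwd
    have hdw : dist w (z p * t, t) < ρ' := by
      rw [dist_eq_norm, Prod.norm_def]
      have hx0 : 0 ≤ dist x ((z p : ℂ) : Sph) := dist_nonneg
      have e3 : 2 * dist x ((z p : ℂ) : Sph) ^ 2 ≤ 2 * (ρ' / 2) ^ 2 := by gcongr
      have e4 : 2 * (ρ' / 2) ^ 2 < ρ' ^ 2 := by nlinarith
      have e5 : 0 ≤ ‖w.1 - z p * t‖ ^ 2 := by positivity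
      have e6 : 0 ≤ ‖w.2 - t‖ ^ 2 := by positivity
      refine max_lt ?_ ?_
      · show ‖w.1 - z p * t‖ < ρ'
        exact lt_of_pow_lt_pow_left₀ 2 hρ'.le (by linarith)
      · show ‖w.2 - t‖ < ρ'
        exact lt_of_pow_lt_pow_left₀ 2 hρ'.le (by linarith)
    have hfin := huc (p, (w, (z p * t, t))) ⟨hp, hw, hsig⟩ (p, ((z p * t, t), (z p * t, t)))
      ⟨hp, hsig, hsig⟩ (by
        have e7 : dist (p, (w, (z p * t, t))) (p, ((z p * t, t), (z p * t, t)))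
            = max (dist p p) (max (dist w (z p * t, t))
              (dist (z p * t, t) (z p * t, t))) := rfl
        rw [e7, dist_self, dist_self]
        exact max_lt hρ' (max_lt hdw hρ'))
    simp only at hfin
    rw [hΨ, dist_zero_right] at hfin
    have h9 := key p hp w hw (z p * t, t) hsig η hη.le hfin.le
    rw [hwx] at h9
    simp only at h9
    rw [hpt] at h9
    exact h9

end Pool.Agent.H84.UC
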