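import Mathlib
import Pool.Agent.H84.UC.Sphere
import Pool.Agent.H35.NA.TrapS

/-!
# Finitely many discs mapped into each other carry attracting cycles

Uses `attr_of_trap` and `attr_of_iterate` of helper35 (H35/NA/TrapS).
-/

set_option autoImplicit false

open Filter Topology OnePoint
open scoped ComplexConjugate
open Pool.Agent.H44.Fatou
open Pool.Agent.H76.Fatou (Lift toC)
open Pool.Agent.H35.NA (Attr SphHol attr_of_trap attr_of_iterate)

namespace Pool.Agent.H84.UC

theorem exists_far (z : Sph) : ∃ x : Sph, dist x z = 1 := by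
  obtain ⟨v, hv, rfl⟩ := exists_unit z
  have hw : ‖(-conj v.2)‖ ^ 2 + ‖conj v.1‖ ^ 2 = 1 := by
    rw [norm_neg, RCLike.norm_conj, RCLike.norm_conj]; linarith
  refine ⟨pt (-conj v.2) (conj v.1), ?_⟩
  rw [dist_unit (v := (-conj v.2, conj v.1)) hw hv]
  show ‖-conj v.2 * v.2 - v.1 * conj v.1‖ = 1
  have : -conj v.2 * v.2 - v.1 * conj v.1 = ((-(‖v.1‖ ^ 2 + ‖v.2‖ ^ 2) : ℝ) : ℂ) := by
    push_cast
    rw [← Complex.mul_conj', ← Complex.mul_conj']
    ring
  rw [this, hv]
  simp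

theorem sphHol_of_lift {F : Sph → Sph} (hF : Lift F) : SphHol F := by
  obtain ⟨p, q, hp, hq, h1, h2⟩ := hF
  refine ⟨fun v => (p v, q v), hp.prodMk hq, ?_, ?_⟩
  · intro v hv h
    rw [Prod.ext_iff] at h
    rcases h1 v hv with h3 | h3
    · exact h3 h.1
    · exact h3 h.2
  · intro v hv
    exact h2 v hv

theorem attr_of_power {F : Sph → Sph} {m : ℕ} (hm : 0 < m) {x : Sph} (h : Attr F^[m] x) :
    Attr F x := by
  obtain ⟨z, n, hn, hz, ⟨U, hU, hconv⟩, ht⟩ := h
  have e : ∀ (k : ℕ) (w : Sph), F^[m * n * k] w = (F^[m])^[n * k] w := by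
    intro k w
    rw [← Function.iterate_mul, Nat.mul_assoc]
  refine ⟨z, m * n, Nat.mul_pos hm hn, ?_, ⟨U, hU, ?_⟩, ?_⟩
  · rw [Function.iterate_mul]; exact hz
  · intro w hw
    simp only [e]
    exact hconv w hw
  · simp only [e]
    exact ht

theorem lift_iterate {F : Sph → Sph} (hF : Lift F) (m : ℕ) : Lift F^[m] := by
  induction m with
  | zero => exact Lift.id
  | succ m ih => rw [Function.iterate_succ]; exact ih.comp hF

theorem sink {F : Sph → Sph} (hF : Lift F) {Z : Finset Sph} {ρ : ℝ} (hρ : 0 < ρ)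
    (hρ2 : ρ ≤ 1 / 2) (hZ : ∀ z ∈ Z, ∃ z' ∈ Z, ∀ x, dist x z ≤ ρ → dist (F x) z' < ρ) {c : Sph}
    {k : ℕ} (hc : ∃ z ∈ Z, dist (F^[k] c) z < ρ) : Attr F c := by
  classical
  obtain ⟨z, hz, hcz⟩ := hc
  -- a choice of successors
  choose! σ hσ1 hσ2 using hZ
  have hit : ∀ n, ∀ x, dist x z < ρ → σ^[n] z ∈ Z ∧ dist (F^[n] x) (σ^[n] z) < ρ := by
    intro n
    induction n with
    | zero => intro x hx; exact ⟨hz, hx⟩
    | succ n ih =>
      intro x hx
      obtain ⟨h1, h2⟩ := ih x hx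
      rw [Function.iterate_succ_apply', Function.iterate_succ_apply']
      exact ⟨hσ1 _ h1, hσ2 _ h1 _ h2.le⟩
  -- pigeonhole
  obtain ⟨i, j, hij, heq⟩ : ∃ i j, i < j ∧ σ^[i] z = σ^[j] z := by
    have hmem : ∀ n, σ^[n] z ∈ Z := fun n => (hit n z (by simpa using hρ)).1
    have hmaps : Set.MapsTo (fun n : ℕ => σ^[n] z) Set.univ (Z : Set Sph) := fun n _ => hmem n
    obtain ⟨i, _, j, _, hne, he⟩ :=
      Set.infinite_univ.exists_ne_map_eq_of_mapsTo hmaps Z.finite_toSet
    rcases lt_or_gt_of_ne hne with h | h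
    · exact ⟨i, j, h, he⟩
    · exact ⟨j, i, h, he.symm⟩
  set z0 := σ^[i] z with hz0
  set m := j - i with hm
  have hm0 : 0 < m := by omega
  have hper : σ^[m] z0 = z0 := by
    rw [hz0, ← Function.iterate_add_apply, hm, Nat.sub_add_cancel hij.le, ← heq]
  have hz0Z : z0 ∈ Z := (hit i z (by simpa using hρ)).1
  have hstep : ∀ n, ∀ x, dist x z0 ≤ ρ → (0 < n → dist (F^[n] x) (σ^[n] z0) < ρ) ∧
      σ^[n] z0 ∈ Z := by
    intro n
    induction n with
    | zero => intro x hx; exact ⟨fun h => absurd h (lt_irrefl 0), hz0Z⟩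
    | succ n ih =>
      intro x hx
      obtain ⟨h1, h2⟩ := ih x hx
      rw [Function.iterate_succ_apply', Function.iterate_succ_apply']
      refine ⟨fun _ => ?_, hσ1 _ h2⟩
      rcases Nat.eq_zero_or_pos n with hn | hn
      · subst hn
        exact hσ2 _ h2 _ hx
      · exact hσ2 _ h2 _ (h1 hn).le
  have hT : ∀ x, dist x z0 ≤ ρ → dist (F^[m] x) z0 < ρ := by
    intro x hx
    have := (hstep m x hx).1 hm0
    rwa [hper] at this
  have hcont : Continuous F := hF.continuous
  have hD : IsOpen (Metric.ball z0 ρ : Set Sph) := Metric.isOpen_ball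
  have hcl : closure (Metric.ball z0 ρ : Set Sph) ⊆ Metric.closedBall z0 ρ :=
    Metric.closure_ball_subset_closedBall
  obtain ⟨xf, hxf⟩ := exists_far z0
  have hattr : Attr F^[m] (F^[k + i] c) := by
    apply attr_of_trap (hcont.iterate m) (sphHol_of_lift (lift_iterate hF m)) hD
    · intro huniv
      have : xf ∈ Metric.closedBall z0 ρ := hcl (by rw [huniv]; trivial)
      rw [Metric.mem_closedBall, hxf] at this
      linarith
    · intro x hx
      exact hT x (hcl hx)
    · rw [Metric.mem_ball, Nat.add_comm, Function.iterate_add_apply]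
      exact (hit i _ hcz).2
  exact attr_of_iterate hcont (k + i) (attr_of_power hm0 hattr)

end Pool.Agent.H84.UC
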