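import Mathlib
import Pool.Agent.H84.UC.Segment
import Pool.Agent.H84.UC.Chain

/-!
# MODULE WINMAIN: the theorem at the level of windows

`m ≥ 2` segments of `Lw` windows each, `births k` = finitely many points born in window `k` (before the
kick at the end of this window).

PROOF.  Let `Ω, m₀, Lw, R₀, ρ` be given by `segment` (constant `B`).  For every `j < m` apply `segment`
to the shifted sequences `h_j = fun i => h (j Lw + i)`, `X_j = fun i => X (j Lw + i)`: get `Z_j`.  For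
`ω ∈ Ω` let `Bi_j(ω)` be the finite set of the points
`cp (kick (R₀ ω) h_j) (i+1) (Lw - (i+1)) (R₀ ω i • β)`, `i < Lw`, `β ∈ births (j Lw + i)` (positions at the
end of the segment), at most `B * Lw` points, and `P_j(ω) = Z_j(ω) ∪ Bi_j(ω)`, at most `m₀ + B * Lw`
points.  With `j' = (j+1) % m` put
`Good j ω ω' := ∀ p ∈ P_j(ω), ∃ z ∈ Z_{j'}(ω'), ∀ x, dist x p ≤ ρ → dist (cp (kick (R₀ ω') h_{j'}) 0 Lw x) z < ρ`.
By the union bound `#{ω' | ¬ Good j ω ω'} ≤ |Ω| / 5`, so `4 * # < |Ω|`, and `chain` gives `ω_0, ..., ω_{m-1}`.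
Put `R k = R₀ (ω_{k / Lw}) (k % Lw)`.  Then `cp (kick R h) (j Lw + i) l = cp (kick (R₀ ω_j) h_j) i l`
as long as `i + l ≤ Lw` (`cp_congr`, `cp_shift`).

CLAIM (*).  If `p ∈ P_j(ω_j)` (`j < m`) then there is `z ∈ Z := Z_{m-1}(ω_{m-1})` such that all `x` with
`dist x p ≤ ρ` satisfy: `j < m-1`: `dist (cp (kick R h) ((j+1) Lw) ((m-1-j) Lw) x) z < ρ` (segments
`j+1, ..., m-1`); `j = m-1`: `dist (cp (kick R h) 0 (m Lw) x) z < ρ` (all segments `0, ..., m-1`).
Induction over the segments, using `Good` and `Z_i(ω_i) ⊆ P_i(ω_i)`.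

* First conclusion: (*) with `j = m-1`, `p = z ∈ Z ⊆ P_{m-1}`.
* Second conclusion: let `k = j Lw + i < m Lw`, `β ∈ births k`; the position at time `(j+1) Lw` is
  `p ∈ Bi_j(ω_j)`.  If `j = m-1` use (*) with `x = p`.  If `j < m-1`, (*) says that the position `x'` at
  time `m Lw` is within `ρ` of some `z ∈ Z`; apply the first conclusion to `x'`.
-/

set_option autoImplicit false

namespace Pool.Agent.H84.UC

theorem win_main {S K : Type} [MetricSpace S] [CompactSpace S] [Nonempty S] [Monoid K] [MulAction K S]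
    (κ : Kick K S) {H : Set (S → S)} (hLC : LC H) (L r ε ρmax : ℝ) (hL : 1 ≤ L) (hr : 0 < r)
    (hε : 0 < ε) (hρ : 0 < ρmax) (B : ℕ) :
    ∃ (Lw : ℕ) (ρ : ℝ), 1 ≤ Lw ∧ 0 < ρ ∧ ρ ≤ ρmax ∧
      ∀ m : ℕ, 2 ≤ m → ∀ (h : ℕ → S → S) (X : ℕ → S), (∀ k, h k ∈ H) →
        (∀ k a b, dist (h k a) (h k b) ≤ L * dist a b) → MovingDisc h X r →
        ∀ births : ℕ → Finset S, (∀ k, (births k).card ≤ B) →
        ∃ R : ℕ → K, (∀ k, κ.nrm (R k) < ε) ∧ ∃ Z : Finset S,
          (∀ z ∈ Z, ∃ z' ∈ Z, ∀ x, dist x z ≤ ρ → dist (cp (kick R h) 0 (m * Lw) x) z' < ρ) ∧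
          (∀ k < m * Lw, ∀ β ∈ births k, ∃ z ∈ Z,
            dist (cp (kick R h) 0 (m * Lw)
              (cp (kick R h) (k + 1) (m * Lw - (k + 1)) (R k • β))) z < ρ) := by
  classical
  obtain ⟨Ω, iF, iN, m₀, Lw, R₀, ρ, hLw, hR₀, hρ0, hρm, hseg⟩ :=
    segment κ hLC L r ε ρmax hL hr hε hρ B
  refine ⟨Lw, ρ, hLw, hρ0, hρm, ?_⟩
  intro m hm h X hH hLip hM births hbirths
  have hseg' := fun j : ℕ => hseg (fun i => h (j * Lw + i)) (fun i => X (j * Lw + i))
    (fun k => hH _) (fun k => hLip _) (fun k => hM (j * Lw + k))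
  choose Z hZc hZ using hseg'
  set hj : ℕ → ℕ → S → S := fun j i => h (j * Lw + i) with hhj
  set Bi : ℕ → Ω → Finset S := fun j ω => (Finset.range Lw).biUnion (fun i =>
    (births (j * Lw + i)).image (fun β =>
      cp (kick (R₀ ω) (hj j)) (i + 1) (Lw - (i + 1)) (R₀ ω i • β))) with hBi
  have hBic : ∀ j ω, (Bi j ω).card ≤ B * Lw := by
    intro j ω
    refine Finset.card_biUnion_le.trans ?_
    calc ∑ i ∈ Finset.range Lw, ((births (j * Lw + i)).image (fun β =>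
          cp (kick (R₀ ω) (hj j)) (i + 1) (Lw - (i + 1)) (R₀ ω i • β))).card
        ≤ ∑ _i ∈ Finset.range Lw, B :=
          Finset.sum_le_sum (fun i _ => Finset.card_image_le.trans (hbirths _))
      _ = B * Lw := by rw [Finset.sum_const, Finset.card_range, smul_eq_mul, Nat.mul_comm]
  set P : ℕ → Ω → Finset S := fun j ω => Z j ω ∪ Bi j ω with hP
  have hPc : ∀ j ω, (P j ω).card ≤ m₀ + B * Lw := fun j ω =>
    (Finset.card_union_le _ _).trans (Nat.add_le_add (hZc j ω) (hBic j ω))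
  set Gd : ℕ → Ω → S → Prop := fun j ω' p => ∃ z ∈ Z j ω', ∀ x, dist x p ≤ ρ →
    dist (cp (kick (R₀ ω') (hj j)) 0 Lw x) z < ρ with hGd
  have hZ' : ∀ j p, 5 * ((m₀ + B * Lw) *
      (Finset.univ.filter (fun ω' : Ω => ¬ Gd j ω' p)).card) ≤ Fintype.card Ω := by
    intro j p
    convert hZ j p
  have hgood : ∀ j j' : ℕ, ∀ ω, 4 * (Finset.univ.filter (fun ω' : Ω =>
      ¬ (∀ p ∈ P j ω, Gd j' ω' p))).card < Fintype.card Ω := by
    intro j j' ω
    have hsub : Finset.univ.filter (fun ω' : Ω => ¬ (∀ p ∈ P j ω, Gd j' ω' p)) ⊆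
        (P j ω).biUnion (fun p => Finset.univ.filter (fun ω' : Ω => ¬ Gd j' ω' p)) := by
      intro ω' hω'
      rw [Finset.mem_filter] at hω'
      have h1 := hω'.2
      push Not at h1
      obtain ⟨p, hp, hnp⟩ := h1
      rw [Finset.mem_biUnion]
      exact ⟨p, hp, Finset.mem_filter.2 ⟨Finset.mem_univ _, hnp⟩⟩
    have hc1 : (Finset.univ.filter (fun ω' : Ω => ¬ (∀ p ∈ P j ω, Gd j' ω' p))).card ≤
        ∑ p ∈ P j ω, (Finset.univ.filter (fun ω' : Ω => ¬ Gd j' ω' p)).card :=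
      (Finset.card_le_card hsub).trans Finset.card_biUnion_le
    have hpos : 0 < Fintype.card Ω := Fintype.card_pos
    rcases Nat.eq_zero_or_pos (m₀ + B * Lw) with h0 | h0
    · have hP0 : P j ω = ∅ := by
        have := hPc j ω
        rw [h0] at this
        exact Finset.card_eq_zero.1 (Nat.le_zero.1 this)
      have hc1' := hc1.trans_eq (by rw [hP0, Finset.sum_empty])
      omega
    · have hc2 : 5 * ((m₀ + B * Lw) *
          ∑ p ∈ P j ω, (Finset.univ.filter (fun ω' : Ω => ¬ Gd j' ω' p)).card) ≤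
          (m₀ + B * Lw) * Fintype.card Ω := by
        rw [Finset.mul_sum, Finset.mul_sum]
        calc ∑ p ∈ P j ω, 5 * ((m₀ + B * Lw) *
              (Finset.univ.filter (fun ω' : Ω => ¬ Gd j' ω' p)).card)
            ≤ ∑ _p ∈ P j ω, Fintype.card Ω := Finset.sum_le_sum (fun p _ => hZ' j' p)
          _ = (P j ω).card * Fintype.card Ω := by
              rw [Finset.sum_const, smul_eq_mul]
          _ ≤ (m₀ + B * Lw) * Fintype.card Ω := Nat.mul_le_mul_right _ (hPc j ω)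
      have hc3 : 5 * ∑ p ∈ P j ω, (Finset.univ.filter (fun ω' : Ω => ¬ Gd j' ω' p)).card ≤
          Fintype.card Ω := by
        apply Nat.le_of_mul_le_mul_left _ h0
        calc (m₀ + B * Lw) * (5 * ∑ p ∈ P j ω,
              (Finset.univ.filter (fun ω' : Ω => ¬ Gd j' ω' p)).card)
            = 5 * ((m₀ + B * Lw) * ∑ p ∈ P j ω,
              (Finset.univ.filter (fun ω' : Ω => ¬ Gd j' ω' p)).card) := by ring
          _ ≤ _ := hc2
      omega
  obtain ⟨ω, hω1, hω2⟩ := chain m hm (fun j ω ω' => ∀ p ∈ P j ω, Gd ((j + 1) % m) ω' p)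
    (fun j _ ω => by convert hgood j ((j + 1) % m) ω)
  have hLw0 : 0 < Lw := hLw
  set R : ℕ → K := fun k => R₀ (ω (k / Lw)) (k % Lw) with hR
  have hcp : ∀ j i l, i + l ≤ Lw → ∀ x, cp (kick R h) (j * Lw + i) l x =
      cp (kick (R₀ (ω j)) (hj j)) i l x := by
    intro j i l hil x
    apply cp_congr
    intro t ht
    have h1 : (j * Lw + (i + t)) / Lw = j := by
      rw [Nat.add_comm (j * Lw), Nat.add_mul_div_right _ _ hLw0, Nat.div_eq_of_lt (by omega),
        Nat.zero_add]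
    have h2 : (j * Lw + (i + t)) % Lw = i + t := by
      rw [Nat.add_comm (j * Lw), Nat.add_mul_mod_self_right, Nat.mod_eq_of_lt (by omega)]
    funext y
    simp only [kick, hR, hhj, h1, h2, Nat.add_assoc]
  have hZP : ∀ j ω, Z j ω ⊆ P j ω := fun j ω => Finset.subset_union_left
  have claim1 : ∀ j, j + 1 < m → ∀ p ∈ P j (ω j), ∃ z ∈ Z (j + 1) (ω (j + 1)),
      ∀ x, dist x p ≤ ρ → dist (cp (kick R h) ((j + 1) * Lw) Lw x) z < ρ := by
    intro j hjm p hp
    have h1 := hω1 j hjm p hp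
    rw [Nat.mod_eq_of_lt hjm] at h1
    obtain ⟨z, hz, hzx⟩ := h1
    refine ⟨z, hz, fun x hx => ?_⟩
    have h2 := hcp (j + 1) 0 Lw (by omega) x
    rw [Nat.add_zero] at h2
    rw [h2]
    exact hzx x hx
  have claim0 : ∀ p ∈ P (m - 1) (ω (m - 1)), ∃ z ∈ Z 0 (ω 0),
      ∀ x, dist x p ≤ ρ → dist (cp (kick R h) 0 Lw x) z < ρ := by
    intro p hp
    have h1 := hω2 p hp
    have h3 : (m - 1 + 1) % m = 0 := by
      rw [Nat.sub_add_cancel (by omega), Nat.mod_self]
    rw [h3] at h1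
    obtain ⟨z, hz, hzx⟩ := h1
    refine ⟨z, hz, fun x hx => ?_⟩
    have h2 := hcp 0 0 Lw (by omega) x
    rw [Nat.zero_mul, Nat.add_zero] at h2
    rw [h2]
    exact hzx x hx
  have claim2 : ∀ d j, j + (d + 1) + 1 = m → ∀ p ∈ P j (ω j), ∃ z ∈ Z (m - 1) (ω (m - 1)),
      ∀ x, dist x p ≤ ρ → dist (cp (kick R h) ((j + 1) * Lw) ((d + 1) * Lw) x) z < ρ := by
    intro d
    induction d with
    | zero =>
      intro j hjm p hp
      obtain ⟨z, hz, hzx⟩ := claim1 j (by omega) p hp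
      have h1 : j + 1 = m - 1 := by omega
      rw [h1] at hz
      refine ⟨z, hz, fun x hx => ?_⟩
      rw [Nat.zero_add, Nat.one_mul]
      exact hzx x hx
    | succ d ih =>
      intro j hjm p hp
      obtain ⟨z1, hz1, hzx1⟩ := claim1 j (by omega) p hp
      obtain ⟨z, hz, hzx⟩ := ih (j + 1) (by omega) z1 (hZP _ _ hz1)
      refine ⟨z, hz, fun x hx => ?_⟩
      have h1 : (d + 1 + 1) * Lw = Lw + (d + 1) * Lw := by ring
      have h2 : (j + 1) * Lw + Lw = (j + 1 + 1) * Lw := by ring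
      rw [h1, cp_add, h2]
      exact hzx _ (hzx1 x hx).le
  have claim3 : ∀ p ∈ P (m - 1) (ω (m - 1)), ∃ z ∈ Z (m - 1) (ω (m - 1)),
      ∀ x, dist x p ≤ ρ → dist (cp (kick R h) 0 (m * Lw) x) z < ρ := by
    intro p hp
    obtain ⟨z0, hz0, hzx0⟩ := claim0 p hp
    obtain ⟨z, hz, hzx⟩ := claim2 (m - 2) 0 (by omega) z0 (hZP _ _ hz0)
    refine ⟨z, hz, fun x hx => ?_⟩
    have h1 : m * Lw = Lw + (m - 2 + 1) * Lw := by
      obtain ⟨m', rfl⟩ : ∃ m', m = m' + 2 := ⟨m - 2, by omega⟩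
      have : m' + 2 - 2 = m' := by omega
      rw [this]
      ring
    rw [h1, cp_add]
    have h2 : (0 + 1) * Lw = 0 + Lw := by ring
    rw [← h2]
    exact hzx _ (hzx0 x hx).le
  refine ⟨R, fun k => hR₀ _ _, Z (m - 1) (ω (m - 1)), ?_, ?_⟩
  · intro z hz
    exact claim3 z (hZP _ _ hz)
  · intro k hk β hβ
    obtain ⟨j, i, hi, hjm, rfl⟩ : ∃ j i, i < Lw ∧ j < m ∧ k = j * Lw + i := by
      refine ⟨k / Lw, k % Lw, Nat.mod_lt _ hLw0, ?_, ?_⟩
      · rw [Nat.div_lt_iff_lt_mul hLw0]; exact hk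
      · exact (Nat.div_add_mod' k Lw).symm
    have hRk : R (j * Lw + i) = R₀ (ω j) i := by
      have h1 : (j * Lw + i) / Lw = j := by
        rw [Nat.add_comm (j * Lw), Nat.add_mul_div_right _ _ hLw0, Nat.div_eq_of_lt hi,
          Nat.zero_add]
      have h2 : (j * Lw + i) % Lw = i := by
        rw [Nat.add_comm (j * Lw), Nat.add_mul_mod_self_right, Nat.mod_eq_of_lt hi]
      simp only [hR, h1, h2]
    set p : S := cp (kick (R₀ (ω j)) (hj j)) (i + 1) (Lw - (i + 1)) (R₀ (ω j) i • β) with hp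
    have hpP : p ∈ P j (ω j) := by
      apply Finset.mem_union_right
      rw [hBi]
      simp only [Finset.mem_biUnion, Finset.mem_range, Finset.mem_image]
      exact ⟨i, hi, β, hβ, rfl⟩
    have hposn : cp (kick R h) (j * Lw + i + 1) (m * Lw - (j * Lw + i + 1))
        (R (j * Lw + i) • β) = cp (kick R h) ((j + 1) * Lw) ((m - 1 - j) * Lw) p := by
      obtain ⟨d, hd⟩ : ∃ d, m = j + 1 + d := ⟨m - (j + 1), by omega⟩
      have h1 : m * Lw - (j * Lw + i + 1) = (Lw - (i + 1)) + (m - 1 - j) * Lw := by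
        have e1 : m - 1 - j = d := by omega
        rw [e1, hd]
        have e2 : (j + 1 + d) * Lw = j * Lw + Lw + d * Lw := by ring
        rw [e2]
        omega
      rw [h1, cp_add]
      have h2 : j * Lw + i + 1 + (Lw - (i + 1)) = (j + 1) * Lw := by
        have : (j + 1) * Lw = j * Lw + Lw := by ring
        rw [this]
        omega
      rw [h2, hRk]
      congr 1
      exact hcp j (i + 1) (Lw - (i + 1)) (by omega) _
    rw [hposn]
    by_cases hjl : j = m - 1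
    · have h1 : m - 1 - j = 0 := by omega
      rw [h1, Nat.zero_mul, cp_zero]
      rw [hjl] at hpP
      obtain ⟨z, hz, hzx⟩ := claim3 p hpP
      exact ⟨z, hz, hzx p (by rw [dist_self]; exact hρ0.le)⟩
    · obtain ⟨z1, hz1, hzx1⟩ := claim2 (m - 2 - j) j (by omega) p hpP
      have h1 : m - 1 - j = m - 2 - j + 1 := by omega
      rw [h1]
      obtain ⟨z, hz, hzx⟩ := claim3 z1 (hZP _ _ hz1)
      exact ⟨z, hz, hzx _ (hzx1 p (by rw [dist_self]; exact hρ0.le)).le⟩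

end Pool.Agent.H84.UC
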