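import Mathlib
import Pool.Agent.H84.UC.Basic

/-!
# MODULE WINDOW: the window lemma (pure metric argument)

From every point `x` and for every word of length `T` (or `T+1`) there are small kicks such that the
kicked composition halves distances to `x` within a fixed radius `r`.

PROOF. Put `δ = ε/4`: if `dist x y < δ` there is `a : K` with `a • x = y`, `nrm a < ε`
(`κ.exists_smul`).  Take `ρ, C, l` from `hLC` for the constants `L`, `δ/2`, `r := δ/2`.  Choose `T ≥ 1`
with `C * l^(T-1) * L ≤ 1/2` (then also `C * l^T * L ≤ 1/2`).  Put `η = 1 / (2 * L^(T+1))`, let `ρ'` be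
the radius given by `hc η`, and `r = min ρ (ρ' / L^(T+1))`.  Let `T' ∈ {T, T+1}`, `w`, `x` be given;
write `F t = f (w t)`.

CASE 1: there are `t < T'` and `p : ℕ → S` with `p 0 = x`, `dist (p (k+1)) (F k (p k)) < δ` for `k < t`
and `p t = c (w t)`.  For `k < t` choose `a k` with `a k • F k (p k) = p (k+1)`, `nrm (a k) < ε`
(apply `exists_smul` to the points `F k (p k)`, `p (k+1)`), for `k ≥ t` put `a k = 1`.  By induction
`cp (kick a F) 0 k x = p k` for `k ≤ t`.  For `dist y x ≤ r`: the kicked maps are `L`-Lipschitz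
(`κ.dist_smul`), so at time `t` the distance is `≤ L^t * dist y x ≤ ρ'` (`cp_lip`); step `t` multiplies
it by at most `η` (`hc`), the remaining `T' - t - 1` steps by at most `L` each (use `cp_add`).  Total
factor `≤ η * L^(T'-1) ≤ 1/2`.

CASE 2: no such `t, p`.  Take `a = fun _ => 1` (`kick a F = F` by `one_smul`).  Apply the `LC` estimate
with `J = T' - 1`, `g = F`, targets `x k := c (w k)`, base point `x`.  Its hypothesis: let `p 0 = x`,
`dist (p (k+1)) (F k (p k)) < δ/2` for `k < J`, and `k < J`.  If `dist (p (k+1)) (c (w (k+1))) < δ/2`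
then `p' := Function.update p (k+1) (c (w (k+1)))` contradicts the assumption of case 2 with
`t = k+1 < T'` (`dist (c ..) (F k (p k)) < δ/2 + δ/2`).  So `cp F 0 J` contracts near `x` with factor
`C * l^J`, and the last map is `L`-Lipschitz (`cp_succ`).
-/

set_option autoImplicit false

namespace Pool.Agent.H84.UC

private theorem window_case1 {S K : Type} [MetricSpace S] [Monoid K] [MulAction K S]
    (κ : Kick K S) (F : ℕ → S → S) (L : ℝ) (hL1 : 1 ≤ L)
    (hL : ∀ i x y, dist (F i x) (F i y) ≤ L * dist x y) (ε δ : ℝ) (hε : 0 < ε) (hδ : δ = ε / 4)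
    (T' t : ℕ) (ht : t < T') (p : ℕ → S) (x : S) (hp0 : p 0 = x)
    (hp : ∀ k < t, dist (p (k + 1)) (F k (p k)) < δ) (η ρ' N : ℝ) (hη : 0 < η)
    (hc : ∀ z, dist z (p t) ≤ ρ' → dist (F t z) (F t (p t)) ≤ η * dist z (p t))
    (hN : L ^ T' ≤ N) (hηN : η * N ≤ 1 / 2) (r : ℝ) (hrN : N * r ≤ ρ') :
    ∃ a : ℕ → K, (∀ t, κ.nrm (a t) < ε) ∧
        ∀ y, dist y x ≤ r → dist (cp (kick a F) 0 T' y) (cp (kick a F) 0 T' x) ≤ dist y x / 2 := by
  classical
  have hch : ∀ k, ∃ a : K, κ.nrm a < ε ∧ (k < t → a • F k (p k) = p (k + 1)) := by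
    intro k
    by_cases hk : k < t
    · obtain ⟨a, h1, h2⟩ := κ.exists_smul (F k (p k)) (p (k + 1))
      refine ⟨a, ?_, fun _ => h1⟩
      have h3 := hp k hk
      rw [dist_comm] at h3
      linarith
    · exact ⟨1, by rw [κ.nrm_one]; exact hε, fun h => absurd h hk⟩
  choose a ha1 ha2 using hch
  refine ⟨a, ha1, fun y hy => ?_⟩
  have hlip : ∀ i u v, dist (kick a F i u) (kick a F i v) ≤ L * dist u v := by
    intro i u v
    unfold kick
    rw [κ.dist_smul]
    exact hL i u v
  have hcp : ∀ k, k ≤ t → cp (kick a F) 0 k x = p k := by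
    intro k
    induction k with
    | zero =>
      intro _
      rw [cp_zero, hp0]
    | succ k ih =>
      intro hk
      rw [cp_succ, ih (by omega), Nat.zero_add]
      exact ha2 k (by omega)
  have hL0 : (0 : ℝ) ≤ L := by linarith
  obtain ⟨m, rfl⟩ : ∃ m, T' = t + 1 + m := ⟨T' - (t + 1), by omega⟩
  have hd0 : 0 ≤ dist y x := dist_nonneg
  have h1 : dist (cp (kick a F) 0 t y) (p t) ≤ L ^ t * dist y x := by
    have := cp_lip hL0 (g := kick a F) (s := 0) (k := t) (fun i _ u v => hlip _ u v) y x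
    rwa [hcp t le_rfl] at this
  have hLt : L ^ t ≤ N := le_trans (pow_le_pow_right₀ hL1 (by omega)) hN
  have h2 : dist (cp (kick a F) 0 t y) (p t) ≤ ρ' := by
    refine h1.trans (le_trans ?_ hrN)
    exact mul_le_mul hLt hy hd0 (le_trans (pow_nonneg hL0 _) hLt)
  have h3 : dist (cp (kick a F) 0 (t + 1) y) (cp (kick a F) 0 (t + 1) x) ≤
      η * (L ^ t * dist y x) := by
    rw [cp_succ, cp_succ, hcp t le_rfl, Nat.zero_add]
    have : dist (kick a F t (cp (kick a F) 0 t y)) (kick a F t (p t)) =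
        dist (F t (cp (kick a F) 0 t y)) (F t (p t)) := by
      unfold kick
      rw [κ.dist_smul]
    rw [this]
    exact (hc _ h2).trans (mul_le_mul_of_nonneg_left h1 hη.le)
  have h4 : dist (cp (kick a F) 0 (t + 1 + m) y) (cp (kick a F) 0 (t + 1 + m) x) ≤
      L ^ m * (η * (L ^ t * dist y x)) := by
    rw [cp_add _ 0 (t + 1) m y, cp_add _ 0 (t + 1) m x]
    refine (cp_lip hL0 (fun i _ u v => hlip _ u v) _ _).trans ?_
    exact mul_le_mul_of_nonneg_left h3 (pow_nonneg hL0 _)
  refine h4.trans ?_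
  have h5 : L ^ m * (η * (L ^ t * dist y x)) = (η * L ^ (t + m)) * dist y x := by
    rw [pow_add]
    ring
  have h6 : η * L ^ (t + m) ≤ 1 / 2 := by
    refine le_trans ?_ hηN
    refine mul_le_mul_of_nonneg_left ?_ hη.le
    exact le_trans (pow_le_pow_right₀ hL1 (by omega)) hN
  rw [h5]
  calc (η * L ^ (t + m)) * dist y x ≤ (1 / 2) * dist y x := mul_le_mul_of_nonneg_right h6 hd0
    _ = dist y x / 2 := by ring

theorem window {S K ι : Type} [MetricSpace S] [Monoid K] [MulAction K S] (κ : Kick K S)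
    {H : Set (S → S)} (hLC : LC H) (f : ι → S → S) (hf : ∀ i, f i ∈ H) (L : ℝ) (hL1 : 1 ≤ L)
    (hL : ∀ i x y, dist (f i x) (f i y) ≤ L * dist x y)
    (c : ι → S) (hc : ∀ η : ℝ, 0 < η → ∃ ρ : ℝ, 0 < ρ ∧ ∀ i x, dist x (c i) ≤ ρ →
        dist (f i x) (f i (c i)) ≤ η * dist x (c i))
    (ε : ℝ) (hε : 0 < ε) :
    ∃ T : ℕ, 1 ≤ T ∧ ∃ r : ℝ, 0 < r ∧ ∀ T' : ℕ, (T' = T ∨ T' = T + 1) → ∀ (w : ℕ → ι) (x : S),
      ∃ a : ℕ → K, (∀ t, κ.nrm (a t) < ε) ∧
        ∀ y, dist y x ≤ r → dist (cp (kick a (fun t => f (w t))) 0 T' y)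
          (cp (kick a (fun t => f (w t))) 0 T' x) ≤ dist y x / 2 := by
  classical
  have hδ : 0 < ε / 4 := by positivity
  obtain ⟨ρ, hρ, C, hC, l, hl0, hl1, hR⟩ := hLC L (ε / 4 / 2) (ε / 4 / 2) hL1 (by positivity)
    (by positivity)
  have hL0 : 0 < L := by linarith
  have hC0 : 0 < C := by linarith
  obtain ⟨n, hn⟩ := exists_pow_lt_of_lt_one (show (0 : ℝ) < 1 / (2 * C * L) by positivity) hl1
  have hη : 0 < 1 / (2 * L ^ (n + 2)) := by positivity
  obtain ⟨ρ', hρ', hc'⟩ := hc (1 / (2 * L ^ (n + 2))) hη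
  have hN : 0 < L ^ (n + 2) := by positivity
  refine ⟨n + 1, by omega, min ρ (ρ' / L ^ (n + 2)), lt_min hρ (by positivity), ?_⟩
  intro T' hT' w x
  by_cases hcase : ∃ t < T', ∃ p : ℕ → S, p 0 = x ∧
      (∀ k < t, dist (p (k + 1)) (f (w k) (p k)) < ε / 4) ∧ p t = c (w t)
  · obtain ⟨t, ht, p, hp0, hp, hpt⟩ := hcase
    refine window_case1 κ (fun t => f (w t)) L hL1 (fun i u v => hL _ u v) ε (ε / 4) hε rfl T' t ht
      p x hp0 hp (1 / (2 * L ^ (n + 2))) ρ' (L ^ (n + 2)) hη ?_ ?_ ?_ _ ?_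
    · intro z hz
      rw [hpt] at hz ⊢
      exact hc' (w t) z hz
    · exact pow_le_pow_right₀ hL1 (by omega)
    · refine le_of_eq ?_
      field_simp
    · calc L ^ (n + 2) * min ρ (ρ' / L ^ (n + 2)) ≤ L ^ (n + 2) * (ρ' / L ^ (n + 2)) :=
          mul_le_mul_of_nonneg_left (min_le_right _ _) hN.le
        _ = ρ' := by field_simp
  · refine ⟨fun _ => 1, fun _ => by rw [κ.nrm_one]; exact hε, fun y hy => ?_⟩
    have hk : kick (fun _ => (1 : K)) (fun t => f (w t)) = fun t => f (w t) := by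
      funext t z
      simp [kick]
    rw [hk]
    obtain ⟨J, rfl⟩ : ∃ J, T' = J + 1 := ⟨T' - 1, by omega⟩
    have hJ : n ≤ J := by omega
    have key := hR J (fun t => f (w t)) (fun k => c (w k)) x (fun k => hf _) (fun k u v => hL _ u v)
      (fun p hp0 hp k hk => by
        by_contra hlt
        rw [not_le] at hlt
        apply hcase
        refine ⟨k + 1, by omega, Function.update p (k + 1) (c (w (k + 1))), ?_, ?_, ?_⟩
        · rw [Function.update_of_ne (by omega)]
          exact hp0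
        · intro j hj
          rw [Function.update_of_ne (show j ≠ k + 1 by omega)]
          rcases Nat.lt_or_ge j k with hjk | hjk
          · rw [Function.update_of_ne (show j + 1 ≠ k + 1 by omega)]
            have := hp j (by omega)
            linarith
          · obtain rfl : j = k := by omega
            rw [Function.update_self]
            have h1 := hp j hk
            have h2 := dist_triangle (c (w (j + 1))) (p (j + 1)) (f (w j) (p j))
            rw [dist_comm] at hlt
            linarith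
        · rw [Function.update_self]) y (hy.trans (min_le_left _ _))
    rw [cp_succ, cp_succ, Nat.zero_add]
    refine (hL _ _ _).trans ?_
    have hd0 : 0 ≤ dist y x := dist_nonneg
    have h1 : l ^ J ≤ 1 / (2 * C * L) := le_trans (pow_le_pow_of_le_one hl0.le hl1.le hJ) hn.le
    calc L * dist (cp (fun t => f (w t)) 0 J y) (cp (fun t => f (w t)) 0 J x)
        ≤ L * (C * l ^ J * dist y x) := mul_le_mul_of_nonneg_left key hL0.le
      _ ≤ L * (C * (1 / (2 * C * L)) * dist y x) := by gcongr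
      _ = dist y x / 2 := by field_simp

end Pool.Agent.H84.UC
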