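import Mathlib
import Pool.Agent.H84.UC.Global

/-!
# MODULE RARE: the abstract uniform theorem with rare kicks

At most `n / M` of the kicks are different from `1`.

PROOF.  Group the steps in letters of length `l`, `M ≤ l < 2M`: let
`ι' = {p : ℕ × (ℕ → ι) // M ≤ p.1 ∧ p.1 < 2 * M}` and `f' (l, u) = cp (fun t => f (u t)) 0 l`.
Apply `abstract_main` to `f'` with `L' = L^(2M)`, critical points `c' (l, u) = c (u 0)` (for `η`: take
the radius of `hc` for `η / L^(2M)`; the first map contracts with factor `η / L^(2M)`, the others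
expand by at most `L^(l-1)`), `W' (l, u)` = the finite set of the points
`cp (fun t => f (u t)) (t+1) (l - (t+1)) v`, `t < l`, `v ∈ W (u t)`, at most `2 M B` points; `f' ∈ H` since
`l ≥ 1`.  Let `N'` be the number obtained; `N = M * (N' + 1)`.  For `n ≥ N` let `n' = n / M ≥ N' + 1`; the
boundaries are `τ k = M k` for `k < n'` and `τ k = n + M (k - n')` for `k ≥ n'` (so the letter `n'-1` has
length `M + n % M < 2 M`, all others have length `M`).  Letter `k`:
`w' k = (τ (k+1) - τ k, fun t => w (τ k + t))`.  The theorem for `n'` and `w'` gives kicks `R k`, `k < n'`.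
Use `transfer` with `F t = f (w t)`, `a k t' = 1`, `h k = f' (w' k)` (`kick 1 F = F`), and these `R`:
the kicks `A t` are `R k` if `t + 1 = τ (k+1)` and `1` otherwise.  To make the statement about ALL
`t < n`: `#{t < n | A t ≠ 1} ≤ n'` because these `t` are among `τ (k+1) - 1`, `k < n'`; and
`M * n' ≤ n`.  The conclusions are those of `abstract_main` rewritten by `transfer` with `M := n'`,
`τ n' = n`.  (If `t < n` is the time `τ k + t'`, `v ∈ W (w t)`, then
`cp (fun t => f ..) (t'+1) (l - (t'+1)) v ∈ W' (w' k)`.)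
-/

set_option autoImplicit false

namespace Pool.Agent.H84.UC

lemma Rare_cp_mem {S : Type} {H : Set (S → S)}
    (Hcomp : ∀ f ∈ H, ∀ g ∈ H, (fun x => f (g x)) ∈ H) (g : ℕ → S → S) (hg : ∀ k, g k ∈ H)
    (s k : ℕ) : cp g s (k + 1) ∈ H := by
  induction k with
  | zero => exact hg (s + 0)
  | succ k ih => exact Hcomp _ (hg (s + (k + 1))) _ ih

lemma Rare_kick_one {S K : Type} [Monoid K] [MulAction K S] (F : ℕ → S → S) :
    kick (fun _ => (1 : K)) F = F := by
  funext t x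
  simp [kick]

/-- the boundaries of the letters -/
def Rare_tau (M n : ℕ) (k : ℕ) : ℕ := M * k + (if n / M ≤ k then n % M else 0)

lemma Rare_tau_diff (M n k : ℕ) (hM : 1 ≤ M) :
    M ≤ Rare_tau M n (k + 1) - Rare_tau M n k ∧ Rare_tau M n (k + 1) - Rare_tau M n k < 2 * M := by
  have h1 : n % M < M := Nat.mod_lt _ hM
  unfold Rare_tau
  rw [Nat.mul_succ]
  split_ifs <;> omega

lemma Rare_tau_mono (M n : ℕ) (hM : 1 ≤ M) : StrictMono (Rare_tau M n) := by
  apply strictMono_nat_of_lt_succ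
  intro k
  have := Rare_tau_diff M n k hM
  omega

lemma Rare_tau_zero (M n : ℕ) (h : 1 ≤ n / M) : Rare_tau M n 0 = 0 := by
  unfold Rare_tau
  rw [if_neg (by omega), Nat.mul_zero]

lemma Rare_tau_end (M n : ℕ) : Rare_tau M n (n / M) = n := by
  unfold Rare_tau
  rw [if_pos le_rfl]
  exact Nat.div_add_mod n M

/-- The abstract uniform theorem with rare kicks. -/
theorem abstract_rare {S K ι : Type} [MetricSpace S] [CompactSpace S] [Nonempty S] [Monoid K]
    [MulAction K S] (κ : Kick K S) {H : Set (S → S)} (hLC : LC H)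
    (Hcomp : ∀ f ∈ H, ∀ g ∈ H, (fun x => f (g x)) ∈ H) (Hsmul : ∀ a : K, (fun x : S => a • x) ∈ H)
    (f : ι → S → S) (hf : ∀ i, f i ∈ H) (L : ℝ) (hL1 : 1 ≤ L)
    (hL : ∀ i x y, dist (f i x) (f i y) ≤ L * dist x y)
    (c : ι → S) (hc : ∀ η : ℝ, 0 < η → ∃ ρ : ℝ, 0 < ρ ∧ ∀ i x, dist x (c i) ≤ ρ →
        dist (f i x) (f i (c i)) ≤ η * dist x (c i))
    (W : ι → Finset S) (B : ℕ) (hW : ∀ i, (W i).card ≤ B)
    (ε : ℝ) (hε : 0 < ε) (ρmax : ℝ) (hρ : 0 < ρmax) (M : ℕ) (hM : 1 ≤ M) :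
    ∃ N : ℕ, ∀ n ≥ N, ∀ w : ℕ → ι, ∃ A : ℕ → K, (∀ t, κ.nrm (A t) < ε) ∧
      M * {t : ℕ | t < n ∧ A t ≠ 1}.ncard ≤ n ∧
      ∃ (Z : Finset S) (ρ : ℝ), 0 < ρ ∧ ρ ≤ ρmax ∧
        (∀ z ∈ Z, ∃ z' ∈ Z, ∀ x, dist x z ≤ ρ →
          dist (cp (kick A (fun t => f (w t))) 0 n x) z' < ρ) ∧
        (∀ t < n, ∀ v ∈ W (w t), ∃ z ∈ Z,
          dist (cp (kick A (fun t => f (w t))) 0 n
            (cp (kick A (fun t => f (w t))) (t + 1) (n - (t + 1)) (A t • v))) z < ρ) := by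
  classical
  let ι' : Type := {p : ℕ × (ℕ → ι) // M ≤ p.1 ∧ p.1 < 2 * M}
  let f' : ι' → S → S := fun p => cp (fun t => f (p.1.2 t)) 0 p.1.1
  have hL0 : (0 : ℝ) ≤ L := by linarith
  have hLpos : (0 : ℝ) < L ^ (2 * M) := by positivity
  have hf' : ∀ i, f' i ∈ H := by
    rintro ⟨⟨l, u⟩, h1, h2⟩
    simp only at h1 h2
    obtain ⟨m, rfl⟩ : ∃ m, l = m + 1 := ⟨l - 1, by omega⟩
    exact Rare_cp_mem Hcomp (fun t => f (u t)) (fun t => hf _) 0 m
  have hL' : ∀ i x y, dist (f' i x) (f' i y) ≤ L ^ (2 * M) * dist x y := by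
    rintro ⟨⟨l, u⟩, h1, h2⟩ x y
    simp only at h1 h2
    refine (cp_lip (g := fun t => f (u t)) hL0 (s := 0) (k := l)
      (fun i _ a b => hL _ a b) x y).trans ?_
    have : L ^ l ≤ L ^ (2 * M) := pow_le_pow_right₀ hL1 h2.le
    exact mul_le_mul_of_nonneg_right this dist_nonneg
  have hc' : ∀ η : ℝ, 0 < η → ∃ ρ : ℝ, 0 < ρ ∧ ∀ (i : ι') x, dist x (c (i.1.2 0)) ≤ ρ →
        dist (f' i x) (f' i (c (i.1.2 0))) ≤ η * dist x (c (i.1.2 0)) := by
    intro η hη
    obtain ⟨ρ, hρ0, hρ1⟩ := hc (η / L ^ (2 * M)) (by positivity)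
    refine ⟨ρ, hρ0, ?_⟩
    rintro ⟨⟨l, u⟩, h1, h2⟩ x hx
    simp only at h1 h2 hx ⊢
    obtain ⟨m, rfl⟩ : ∃ m, l = m + 1 := ⟨l - 1, by omega⟩
    have h3 := hρ1 (u 0) x hx
    change dist (cp (fun t => f (u t)) 0 (m + 1) x) (cp (fun t => f (u t)) 0 (m + 1) (c (u 0))) ≤ _
    rw [cp_succ', cp_succ']
    have h4 := cp_lip (g := fun t => f (u t)) hL0 (s := 0 + 1) (k := m)
      (fun i _ a b => hL _ a b) (f (u 0) x) (f (u 0) (c (u 0)))
    refine h4.trans ?_
    have h5 : L ^ m ≤ L ^ (2 * M) := pow_le_pow_right₀ hL1 (by omega)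
    calc L ^ m * dist (f (u 0) x) (f (u 0) (c (u 0)))
        ≤ L ^ (2 * M) * (η / L ^ (2 * M) * dist x (c (u 0))) := by
          gcongr
      _ = η * dist x (c (u 0)) := by
          field_simp
  let W' : ι' → Finset S := fun p => (Finset.range p.1.1).biUnion (fun t =>
    (W (p.1.2 t)).image (fun v => cp (fun s => f (p.1.2 s)) (t + 1) (p.1.1 - (t + 1)) v))
  have hW' : ∀ i, (W' i).card ≤ 2 * M * B := by
    rintro ⟨⟨l, u⟩, h1, h2⟩
    simp only at h1 h2
    refine Finset.card_biUnion_le.trans ?_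
    calc ∑ t ∈ Finset.range l, ((W (u t)).image (fun v => cp (fun s => f (u s)) (t + 1)
          (l - (t + 1)) v)).card ≤ ∑ t ∈ Finset.range l, B :=
          Finset.sum_le_sum (fun t _ => Finset.card_image_le.trans (hW _))
      _ = l * B := by simp
      _ ≤ 2 * M * B := Nat.mul_le_mul_right _ h2.le
  obtain ⟨N', hN'⟩ := abstract_main κ hLC Hcomp Hsmul f' hf' (L ^ (2 * M))
    (one_le_pow₀ hL1) hL' (fun i => c (i.1.2 0)) hc' W' (2 * M * B) hW' ε hε ρmax hρ
  refine ⟨M * (N' + 1), ?_⟩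
  intro n hn w
  have hn' : N' + 1 ≤ n / M := by
    rw [Nat.le_div_iff_mul_le (by omega)]
    rw [mul_comm]
    exact hn
  have hτ := Rare_tau_mono M n hM
  have hτ0 := Rare_tau_zero M n (by omega)
  have hτe := Rare_tau_end M n
  have hτd := fun k => Rare_tau_diff M n k hM
  let w' : ℕ → ι' := fun k => ⟨(Rare_tau M n (k + 1) - Rare_tau M n k,
    fun t => w (Rare_tau M n k + t)), hτd k⟩
  obtain ⟨R, hR, Z, ρ, hρ0, hρ1, hZ1, hZ2⟩ := hN' (n / M) (by omega) w'
  obtain ⟨A, hA1, hA2, hA3⟩ := transfer (fun t => f (w t)) (Rare_tau M n) hτ0 hτ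
    (fun _ _ => (1 : K)) R (fun k => f' (w' k)) (by
      intro k
      rw [Rare_kick_one])
  refine ⟨A, ?_, ?_, Z, ρ, hρ0, hρ1, ?_, ?_⟩
  · intro t
    obtain ⟨k, t', -, -, h⟩ := hA1 t
    rw [h, mul_one]
    split_ifs
    · exact hR k
    · rw [κ.nrm_one]; exact hε
  · have hsub : {t : ℕ | t < n ∧ A t ≠ 1} ⊆
        ((Finset.range (n / M)).image (fun k => Rare_tau M n (k + 1) - 1) : Finset ℕ) := by
      rintro t ⟨ht1, ht2⟩
      obtain ⟨k, t', h1, h2, h3⟩ := hA1 t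
      have h4 : t + 1 = Rare_tau M n (k + 1) := by
        by_contra h4
        rw [if_neg h4, mul_one] at h3
        exact ht2 h3
      have h5 : k + 1 ≤ n / M := by
        rw [← hτ.le_iff_le, hτe]
        omega
      simp only [Finset.coe_image, Set.mem_image, Finset.mem_coe, Finset.mem_range]
      exact ⟨k, by omega, by omega⟩
    have hcard : {t : ℕ | t < n ∧ A t ≠ 1}.ncard ≤ n / M := by
      refine (Set.ncard_le_ncard hsub (Finset.finite_toSet _)).trans ?_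
      rw [Set.ncard_coe_finset]
      refine Finset.card_image_le.trans ?_
      rw [Finset.card_range]
    calc M * {t : ℕ | t < n ∧ A t ≠ 1}.ncard ≤ M * (n / M) := Nat.mul_le_mul_left _ hcard
      _ ≤ n := Nat.mul_div_le n M
  · intro z hz
    obtain ⟨z', hz', h⟩ := hZ1 z hz
    refine ⟨z', hz', fun x hx => ?_⟩
    have h1 := hA2 (n / M) x
    rw [hτe] at h1
    rw [h1]
    exact h x hx
  · intro t ht v hv
    obtain ⟨k, t', h1, h2, h3⟩ := hA1 t
    have hk : k < n / M := by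
      rw [← hτ.lt_iff_lt, hτe]
      omega
    have h4 := hA3 (n / M) k t' hk h1 v
    rw [hτe, ← h2, one_smul, Rare_kick_one] at h4
    have h5 : cp (fun t => f (w (Rare_tau M n k + t))) (t' + 1)
        (Rare_tau M n (k + 1) - Rare_tau M n k - (t' + 1)) v ∈ W' (w' k) := by
      simp only [W', w', Finset.mem_biUnion, Finset.mem_range, Finset.mem_image]
      exact ⟨t', h1, v, by rw [← h2]; exact hv, rfl⟩
    obtain ⟨z, hz, h6⟩ := hZ2 k hk _ h5
    refine ⟨z, hz, ?_⟩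
    have h7 := hA2 (n / M) (cp (kick A (fun t => f (w t))) (t + 1) (n - (t + 1)) (A t • v))
    rw [hτe] at h7
    rw [h7, h4]
    exact h6

end Pool.Agent.H84.UC
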