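import Mathlib
import Pool.Agent.H84.UC.Rare
import Pool.Agent.H84.UC.LCS
import Pool.Agent.H84.UC.Sink
import Pool.Agent.H84.UC.RatU
import Pool.Agent.H84.UC.CvU

/-!
# The uniform compositions theorem for a compact set of rational maps
-/

set_option autoImplicit false

open Filter Topology OnePoint
open Pool.Agent.H44.Fatou
open Pool.Agent.H76.Fatou (Lift)
open Pool.Agent.H35.NA (Attr)

namespace Pool.Agent.H84.UC

theorem lift_cp {g : ℕ → Sph → Sph} (hg : ∀ t, Lift (g t)) (s n : ℕ) : Lift (cp g s n) := by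
  induction n with
  | zero => exact Lift.id
  | succ n ih => exact (hg (s + n)).comp ih

theorem main_K {d : ℕ} (hd : 2 ≤ d) {𝒦 : Set ((Fin (d + 1) → ℂ) × (Fin (d + 1) → ℂ))}
    (hK : IsCompact 𝒦)
    (h : ∀ p ∈ 𝒦, IsCoprime (pv p.1) (pv p.2) ∧ max (pv p.1).natDegree (pv p.2).natDegree = d)
    (ε : ℝ) (hε : 0 < ε) (M : ℕ) (hM : 1 ≤ M) :
    ∃ n₀ : ℕ, ∀ n ≥ n₀, ∀ p : ℕ → (Fin (d + 1) → ℂ) × (Fin (d + 1) → ℂ), (∀ j, p j ∈ 𝒦) →
      ∃ A : ℕ → SU, (∀ j, ‖(A j).a - 1‖ + ‖(A j).b‖ < ε) ∧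
        M * {j : ℕ | j < n ∧ A j ≠ 1}.ncard ≤ n ∧
        ∀ x : Sph, (¬ ∃ U ∈ 𝓝 x, Set.InjOn
          (cp (kick A (fun j => rat (pv (p j).1) (pv (p j).2))) 0 n) U) →
          Attr (cp (kick A (fun j => rat (pv (p j).1) (pv (p j).2))) 0 n) x := by
  classical
  obtain ⟨L, hL1, hL, c, hc⟩ := rat_unif hd hK h
  have hW : ∀ i : 𝒦, ∃ W : Finset Sph, W.card ≤ 2 * d ∧
      ∀ y : Sph, (¬ ∃ U ∈ 𝓝 y, Set.InjOn (rat (pv i.1.1) (pv i.1.2)) U) →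
        rat (pv i.1.1) (pv i.1.2) y ∈ W := fun i => cv_card (h i.1 i.2).1 hd (h i.1 i.2).2
  choose W hW1 hW2 using hW
  have hlift : ∀ i : 𝒦, Lift (rat (pv i.1.1) (pv i.1.2)) := fun i =>
    Pool.Agent.H76.Fatou.lift_rat (h i.1 i.2).1
  obtain ⟨N, hN⟩ := abstract_rare kickSU lc_lift (fun f hf g hg => Lift.comp hf hg)
    (fun a => lift_smul a) (fun i : 𝒦 => rat (pv i.1.1) (pv i.1.2)) hlift L hL1
    (fun i => hL i.1 i.2) (fun i => c i.1)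
    (fun η hη => by
      obtain ⟨ρ, hρ, h1⟩ := hc η hη
      exact ⟨ρ, hρ, fun i => h1 i.1 i.2⟩) W (2 * d) hW1 ε hε (1 / 2) (by norm_num) M hM
  refine ⟨N, fun n hn p hp => ?_⟩
  obtain ⟨A, hA1, hA2, Z, ρ, hρ0, hρ1, hZ1, hZ2⟩ := hN n hn (fun j => ⟨p j, hp j⟩)
  refine ⟨A, hA1, hA2, fun x hx => ?_⟩
  set g : ℕ → Sph → Sph := kick A (fun j => rat (pv (p j).1) (pv (p j).2)) with hg
  have hgl : ∀ t, Lift (g t) := fun t => Lift.comp (lift_smul (A t)) (hlift ⟨p t, hp t⟩)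
  obtain ⟨t, htn, ht⟩ := crit_cp (fun t => (hgl t).continuous) hx
  -- the critical point of the map number `t`
  have hcrit : ¬ ∃ U ∈ 𝓝 (cp g 0 t x), Set.InjOn (rat (pv (p t).1) (pv (p t).2)) U := by
    rintro ⟨U, hU, hinj⟩
    apply ht
    refine ⟨U, hU, fun a ha b hb hab => hinj ha hb ?_⟩
    have h1 : A t • rat (pv (p t).1) (pv (p t).2) a = A t • rat (pv (p t).1) (pv (p t).2) b := hab
    rw [← SU.inv_smul_smul (A t) (rat (pv (p t).1) (pv (p t).2) a), h1, SU.inv_smul_smul]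
  have hmem := hW2 ⟨p t, hp t⟩ _ hcrit
  obtain ⟨z, hz, hz2⟩ := hZ2 t htn _ hmem
  apply sink (lift_cp hgl 0 n) hρ0 hρ1 hZ1 (k := 2)
  refine ⟨z, hz, ?_⟩
  have e1 : cp g (t + 1) (n - (t + 1)) (A t • rat (pv (p t).1) (pv (p t).2) (cp g 0 t x))
      = cp g 0 n x := by
    have h1 : A t • rat (pv (p t).1) (pv (p t).2) (cp g 0 t x) = cp g 0 (t + 1) x := by
      rw [cp_succ, Nat.zero_add]
      rfl
    rw [h1]
    have h2 := cp_add g 0 (t + 1) (n - (t + 1)) x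
    rw [Nat.zero_add, Nat.add_sub_cancel' (by omega : t + 1 ≤ n)] at h2
    exact h2.symm
  have e2 : (cp g 0 n)^[2] x = cp g 0 n (cp g 0 n x) := rfl
  rw [e2]
  rw [← e1]
  exact hz2

end Pool.Agent.H84.UC
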