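import Mathlib
import Pool.Agent.H84.UC.FinalK
import Pool.Agent.H35.NA.Final

/-!
# The uniform compositions theorem: final forms
-/

set_option autoImplicit false

open Filter Topology OnePoint Polynomial Metric
open scoped ComplexConjugate
open Pool.Agent.H44.Fatou
open Pool.Agent.H76.Fatou (Lift)
open Pool.Agent.H35.NA (Attr numR denR coprime_rot dg_rot rot_rat compN)

namespace Pool.Agent.H84.UC

theorem pv_of_coeff {d : ℕ} {P : Polynomial ℂ} (hP : P.natDegree ≤ d) :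
    pv (fun i : Fin (d + 1) => P.coeff i) = P := by
  ext i
  rw [pv_coeff]
  split_ifs with h
  · rfl
  · exact (coeff_eq_zero_of_natDegree_lt (by omega)).symm

theorem coeff_num_sub (r : SU) (P Q : Polynomial ℂ) (i : ℕ) :
    (numR r P Q).coeff i - P.coeff i = (r.a - 1) * P.coeff i - conj r.b * Q.coeff i := by
  unfold numR
  rw [coeff_sub, coeff_C_mul, coeff_C_mul]
  show r.a * P.coeff i - conj r.b * Q.coeff i - P.coeff i = _
  ring

theorem coeff_den_sub (r : SU) (P Q : Polynomial ℂ) (i : ℕ) :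
    (denR r P Q).coeff i - Q.coeff i = r.b * P.coeff i + conj (r.a - 1) * Q.coeff i := by
  unfold denR
  rw [coeff_add, coeff_C_mul, coeff_C_mul]
  show r.b * P.coeff i + conj r.a * Q.coeff i - Q.coeff i = _
  rw [map_sub, map_one]
  ring

theorem coeff_num_le {r : SU} {P Q : Polynomial ℂ} {δ C : ℝ} (hr : ‖r.a - 1‖ + ‖r.b‖ < δ)
    (i : ℕ) (hP : ‖P.coeff i‖ ≤ C) (hQ : ‖Q.coeff i‖ ≤ C) :
    ‖(numR r P Q).coeff i - P.coeff i‖ ≤ δ * C ∧ ‖(denR r P Q).coeff i - Q.coeff i‖ ≤ δ * C := by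
  have hC : 0 ≤ C := (norm_nonneg _).trans hP
  have ha := norm_nonneg (r.a - 1)
  have hb := norm_nonneg r.b
  constructor
  · rw [coeff_num_sub]
    calc _ ≤ ‖(r.a - 1) * P.coeff i‖ + ‖conj r.b * Q.coeff i‖ := norm_sub_le _ _
      _ ≤ ‖r.a - 1‖ * C + ‖r.b‖ * C := by
          rw [norm_mul, norm_mul, RCLike.norm_conj]
          gcongr
      _ = (‖r.a - 1‖ + ‖r.b‖) * C := by ring
      _ ≤ δ * C := by gcongr
  · rw [coeff_den_sub]
    calc _ ≤ ‖r.b * P.coeff i‖ + ‖conj (r.a - 1) * Q.coeff i‖ := norm_add_le _ _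
      _ ≤ ‖r.b‖ * C + ‖r.a - 1‖ * C := by
          rw [norm_mul, norm_mul, RCLike.norm_conj]
          gcongr
      _ = (‖r.a - 1‖ + ‖r.b‖) * C := by ring
      _ ≤ δ * C := by gcongr

theorem cp_compN (g : ℕ → Sph → Sph) (n : ℕ) : cp g 0 n = compN g n := by
  induction n with
  | zero => rfl
  | succ n ih =>
    funext x
    rw [cp_succ, ih, Nat.zero_add]
    rfl

/-- the kicked rational map is a rational map -/
theorem kick_rat (A : ℕ → SU) (P Q : ℕ → Polynomial ℂ) (h : ∀ j, IsCoprime (P j) (Q j)) :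
    kick A (fun j => rat (P j) (Q j)) =
      fun j => rat (numR (A j) (P j) (Q j)) (denR (A j) (P j) (Q j)) := by
  funext j x
  exact rot_rat (A j) (h j) x

theorem rat_represents {P Q : Polynomial ℂ} (h : IsCoprime P Q) :
    Continuous (rat P Q) ∧ ∀ z : ℂ, Q.eval z ≠ 0 →
      rat P Q (OnePoint.some z) = OnePoint.some (P.eval z / Q.eval z) :=
  ⟨rat_continuous h, fun _ hz => rat_coe_of_ne hz⟩

/-- Form (1): words from a compact set, rare rotations. -/
theorem main_compact {d : ℕ} (hd : 2 ≤ d) {𝒦 : Set ((Fin (d + 1) → ℂ) × (Fin (d + 1) → ℂ))}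
    (hK : IsCompact 𝒦)
    (h : ∀ p ∈ 𝒦, IsCoprime (pv p.1) (pv p.2) ∧ max (pv p.1).natDegree (pv p.2).natDegree = d)
    (ε : ℝ) (hε : 0 < ε) (M : ℕ) (hM : 1 ≤ M) :
    ∃ n₀ : ℕ, ∀ n ≥ n₀, ∀ p : ℕ → (Fin (d + 1) → ℂ) × (Fin (d + 1) → ℂ), (∀ j, p j ∈ 𝒦) →
      ∃ A : ℕ → SU, (∀ j, ‖(A j).a - 1‖ < ε ∧ ‖(A j).b‖ < ε) ∧
        M * {j : ℕ | j < n ∧ A j ≠ 1}.ncard ≤ n ∧
        (∀ j, IsCoprime (numR (A j) (pv (p j).1) (pv (p j).2)) (denR (A j) (pv (p j).1) (pv (p j).2)) ∧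
          max (numR (A j) (pv (p j).1) (pv (p j).2)).natDegree
            (denR (A j) (pv (p j).1) (pv (p j).2)).natDegree = d ∧
          ∀ i, ‖(numR (A j) (pv (p j).1) (pv (p j).2)).coeff i - (pv (p j).1).coeff i‖ < ε ∧
            ‖(denR (A j) (pv (p j).1) (pv (p j).2)).coeff i - (pv (p j).2).coeff i‖ < ε) ∧
        ∀ x : Sph, (¬ ∃ U ∈ 𝓝 x, Set.InjOn (compN (fun j => rat
          (numR (A j) (pv (p j).1) (pv (p j).2)) (denR (A j) (pv (p j).1) (pv (p j).2))) n) U) →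
          Attr (compN (fun j => rat (numR (A j) (pv (p j).1) (pv (p j).2))
            (denR (A j) (pv (p j).1) (pv (p j).2))) n) x := by
  obtain ⟨C, hC⟩ := hK.isBounded.exists_norm_le
  set C' : ℝ := max C 0 + 1 with hC'
  have hC'0 : 0 < C' := by positivity
  have hcoef : ∀ p ∈ 𝒦, ∀ i, ‖(pv p.1).coeff i‖ ≤ C' ∧ ‖(pv p.2).coeff i‖ ≤ C' := by
    intro p hp i
    have h1 : ‖p‖ ≤ C' := (hC p hp).trans (by rw [hC']; linarith [le_max_left C 0])
    rw [Prod.norm_def, max_le_iff] at h1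
    rw [pv_coeff, pv_coeff]
    split_ifs with h2
    · exact ⟨(norm_le_pi_norm _ _).trans h1.1, (norm_le_pi_norm _ _).trans h1.2⟩
    · rw [norm_zero]; exact ⟨hC'0.le, hC'0.le⟩
  set δ : ℝ := min ε (ε / (2 * C')) with hδ
  have hδ0 : 0 < δ := lt_min hε (by positivity)
  obtain ⟨n₀, hn₀⟩ := main_K hd hK h δ hδ0 M hM
  refine ⟨n₀, fun n hn p hp => ?_⟩
  obtain ⟨A, hA1, hA2, hA3⟩ := hn₀ n hn p hp
  refine ⟨A, fun j => ?_, hA2, fun j => ?_, ?_⟩
  · have h1 := hA1 j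
    have h2 : δ ≤ ε := min_le_left _ _
    have h3 := norm_nonneg ((A j).a - 1)
    have h4 := norm_nonneg (A j).b
    constructor <;> linarith
  · refine ⟨coprime_rot (A j) (h _ (hp j)).1, ?_, fun i => ?_⟩
    · have := dg_rot (A j) (h _ (hp j)).1
      unfold dg at this
      rw [this]
      exact (h _ (hp j)).2
    · obtain ⟨h1, h2⟩ := hcoef _ (hp j) i
      obtain ⟨h3, h4⟩ := coeff_num_le (hA1 j) i h1 h2
      have h5 : δ * C' < ε := by
        calc δ * C' ≤ ε / (2 * C') * C' := by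
              gcongr
              exact min_le_right _ _
          _ = ε / 2 := by field_simp
          _ < ε := by linarith
      exact ⟨h3.trans_lt h5, h4.trans_lt h5⟩
  · rw [← cp_compN, ← kick_rat A (fun j => pv (p j).1) (fun j => pv (p j).2)
      (fun j => (h _ (hp j)).1)]
    exact hA3

/-- Final form: all tuples of pairs with coefficients of modulus at most one, for all large lengths;
the pairs from the compact set `𝒦` of rational maps of degree `d` are changed by rotations, rarely. -/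
theorem main_all {d : ℕ} (hd : 2 ≤ d) {𝒦 : Set ((Fin (d + 1) → ℂ) × (Fin (d + 1) → ℂ))}
    (hK : IsCompact 𝒦)
    (h : ∀ p ∈ 𝒦, IsCoprime (pv p.1) (pv p.2) ∧ max (pv p.1).natDegree (pv p.2).natDegree = d)
    (ε : ℝ) (hε : 0 < ε) (M : ℕ) (hM : 1 ≤ M) :
    ∃ N : ℕ, ∀ n ≥ N, ∀ p : ℕ → (Fin (d + 1) → ℂ) × (Fin (d + 1) → ℂ), (∀ j, ‖p j‖ ≤ 1) →
      ∃ (A : ℕ → SU) (P' Q' : ℕ → Polynomial ℂ),
        (∀ j, ‖(A j).a - 1‖ < ε ∧ ‖(A j).b‖ < ε) ∧
        M * {j : ℕ | j < n ∧ A j ≠ 1}.ncard ≤ n ∧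
        (∀ j, p j ∈ 𝒦 → P' j = numR (A j) (pv (p j).1) (pv (p j).2) ∧
          Q' j = denR (A j) (pv (p j).1) (pv (p j).2)) ∧
        (∀ j, IsCoprime (P' j) (Q' j) ∧ max (P' j).natDegree (Q' j).natDegree = d ∧
          ∀ i, ‖(P' j).coeff i - (pv (p j).1).coeff i‖ < ε ∧
            ‖(Q' j).coeff i - (pv (p j).2).coeff i‖ < ε) ∧
        ∀ x : Sph, (¬ ∃ U ∈ 𝓝 x, Set.InjOn (compN (fun j => rat (P' j) (Q' j)) n) U) →
          Attr (compN (fun j => rat (P' j) (Q' j)) n) x := by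
  classical
  set B : Set ((Fin (d + 1) → ℂ) × (Fin (d + 1) → ℂ)) := closedBall 0 1 with hB
  have hBc : IsCompact B := isCompact_closedBall _ _
  have hε4 : 0 < ε / 4 := by positivity
  have hex : ∀ v : (Fin (d + 1) → ℂ) × (Fin (d + 1) → ℂ), ∃ P1 Q1 : Polynomial ℂ,
      IsCoprime P1 Q1 ∧ max P1.natDegree Q1.natDegree = d ∧
      (∀ i, ‖P1.coeff i - (pv v.1).coeff i‖ < ε / 4) ∧
      (∀ i, ‖Q1.coeff i - (pv v.2).coeff i‖ < ε / 4) := fun v =>
    coprime_pert (by omega) (pv_natDegree v.1) (pv_natDegree v.2) hε4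
  choose P1 Q1 g1 g2 g3 g4 using hex
  obtain ⟨t, htB, ht⟩ := hBc.elim_nhds_subcover (fun v => ball v (ε / 4))
    (fun v _ => ball_mem_nhds v hε4)
  set cv : (Fin (d + 1) → ℂ) × (Fin (d + 1) → ℂ) → (Fin (d + 1) → ℂ) × (Fin (d + 1) → ℂ) :=
    fun v => (fun i => (P1 v).coeff i, fun i => (Q1 v).coeff i) with hcv
  have hpv1 : ∀ v, pv (cv v).1 = P1 v := fun v =>
    pv_of_coeff ((le_max_left _ _).trans (g2 v).le)
  have hpv2 : ∀ v, pv (cv v).2 = Q1 v := fun v =>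
    pv_of_coeff ((le_max_right _ _).trans (g2 v).le)
  set 𝒦' : Set ((Fin (d + 1) → ℂ) × (Fin (d + 1) → ℂ)) :=
    𝒦 ∪ (↑(Finset.image cv t) : Set ((Fin (d + 1) → ℂ) × (Fin (d + 1) → ℂ))) with h𝒦'
  have h𝒦c : IsCompact 𝒦' := hK.union (Finset.image cv t).finite_toSet.isCompact
  have h𝒦p : ∀ p ∈ 𝒦', IsCoprime (pv p.1) (pv p.2) ∧
      max (pv p.1).natDegree (pv p.2).natDegree = d := by
    rintro p (hp | hp)
    · exact h p hp
    · rw [Finset.mem_coe, Finset.mem_image] at hp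
      obtain ⟨v, _, rfl⟩ := hp
      rw [hpv1, hpv2]
      exact ⟨g1 v, g2 v⟩
  -- a bound for the coefficients
  obtain ⟨C₀, hC₀⟩ := h𝒦c.isBounded.exists_norm_le
  set C : ℝ := max C₀ 0 + 1 with hC
  have hC0 : 0 < C := by positivity
  have hcoef : ∀ p ∈ 𝒦', ∀ i, ‖(pv p.1).coeff i‖ ≤ C ∧ ‖(pv p.2).coeff i‖ ≤ C := by
    intro p hp i
    have h1 : ‖p‖ ≤ C := (hC₀ p hp).trans (by rw [hC]; linarith [le_max_left C₀ 0])
    rw [Prod.norm_def, max_le_iff] at h1
    rw [pv_coeff, pv_coeff]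
    split_ifs with h2
    · exact ⟨(norm_le_pi_norm _ _).trans h1.1, (norm_le_pi_norm _ _).trans h1.2⟩
    · rw [norm_zero]; exact ⟨hC0.le, hC0.le⟩
  obtain ⟨N, hN⟩ := main_K hd h𝒦c h𝒦p (ε / (4 * C)) (by positivity) M hM
  refine ⟨N, fun n hn p hp => ?_⟩
  have hsel : ∀ j, ∃ q ∈ 𝒦', (p j ∈ 𝒦 → q = p j) ∧
      (∀ i, ‖(pv q.1).coeff i - (pv (p j).1).coeff i‖ ≤ ε / 2) ∧
      ∀ i, ‖(pv q.2).coeff i - (pv (p j).2).coeff i‖ ≤ ε / 2 := by
    intro j
    by_cases hj : p j ∈ 𝒦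
    · refine ⟨p j, Or.inl hj, fun _ => rfl, fun i => ?_, fun i => ?_⟩ <;>
      · rw [sub_self, norm_zero]; positivity
    · have hv : p j ∈ B := by
        rw [hB, mem_closedBall_zero_iff]
        exact hp j
      obtain ⟨x, hxt, hx⟩ := Set.mem_iUnion₂.1 (ht hv)
      rw [mem_ball, Prod.dist_eq, max_lt_iff, dist_pi_lt_iff hε4, dist_pi_lt_iff hε4] at hx
      have hclose : ∀ (u w : Fin (d + 1) → ℂ), (∀ i : Fin (d + 1), dist (u i) (w i) < ε / 4) →
          ∀ i, ‖(pv w).coeff i - (pv u).coeff i‖ < ε / 4 := by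
        intro u w hw i
        rw [pv_coeff, pv_coeff]
        split_ifs with h
        · have := hw ⟨i, h⟩
          rw [dist_comm, dist_eq_norm] at this
          exact this
        · rw [sub_self, norm_zero]
          exact hε4
      refine ⟨cv x, Or.inr ?_, fun h => absurd h hj, fun i => ?_, fun i => ?_⟩
      · rw [Finset.mem_coe, Finset.mem_image]
        exact ⟨x, hxt, rfl⟩
      · rw [hpv1]
        calc _ = ‖((P1 x).coeff i - (pv x.1).coeff i) + ((pv x.1).coeff i - (pv (p j).1).coeff i)‖ := by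
              congr 1; ring
          _ ≤ _ + _ := norm_add_le _ _
          _ ≤ ε / 4 + ε / 4 := add_le_add (g3 x i).le (hclose _ _ hx.1 i).le
          _ = ε / 2 := by ring
      · rw [hpv2]
        calc _ = ‖((Q1 x).coeff i - (pv x.2).coeff i) + ((pv x.2).coeff i - (pv (p j).2).coeff i)‖ := by
              congr 1; ring
          _ ≤ _ + _ := norm_add_le _ _
          _ ≤ ε / 4 + ε / 4 := add_le_add (g4 x i).le (hclose _ _ hx.2 i).le
          _ = ε / 2 := by ring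
  choose q hq𝒦 hqp hq1 hq2 using hsel
  obtain ⟨A, hA1, hA2, hA3⟩ := hN n hn q hq𝒦
  refine ⟨A, fun j => numR (A j) (pv (q j).1) (pv (q j).2),
    fun j => denR (A j) (pv (q j).1) (pv (q j).2), fun j => ?_, hA2, fun j hj => ?_,
    fun j => ⟨coprime_rot (A j) (h𝒦p _ (hq𝒦 j)).1, ?_, fun i => ?_⟩, ?_⟩
  · have h1 := hA1 j
    have h2 : ε / (4 * C) ≤ ε := by
      rw [div_le_iff₀ (by positivity)]
      have : 1 ≤ C := by rw [hC]; linarith [le_max_right C₀ 0]
      nlinarith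
    have h3 := norm_nonneg ((A j).a - 1)
    have h4 := norm_nonneg (A j).b
    constructor <;> linarith
  · have e : q j = p j := hqp j hj
    exact ⟨by simp only [e], by simp only [e]⟩
  · have := dg_rot (A j) (h𝒦p _ (hq𝒦 j)).1
    unfold dg at this
    rw [this]
    exact (h𝒦p _ (hq𝒦 j)).2
  · obtain ⟨h1, h2⟩ := hcoef _ (hq𝒦 j) i
    obtain ⟨h3, h4⟩ := coeff_num_le (hA1 j) i h1 h2
    have h5 : ε / (4 * C) * C = ε / 4 := by field_simp
    rw [h5] at h3 h4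
    have h8 := hq1 j i
    have h9 := hq2 j i
    constructor
    · calc _ = ‖((numR (A j) (pv (q j).1) (pv (q j).2)).coeff i - (pv (q j).1).coeff i)
            + ((pv (q j).1).coeff i - (pv (p j).1).coeff i)‖ := by congr 1; ring
        _ ≤ _ + _ := norm_add_le _ _
        _ < ε := by linarith
    · calc _ = ‖((denR (A j) (pv (q j).1) (pv (q j).2)).coeff i - (pv (q j).2).coeff i)
            + ((pv (q j).2).coeff i - (pv (p j).2).coeff i)‖ := by congr 1; ring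
        _ ≤ _ + _ := norm_add_le _ _
        _ < ε := by linarith
  · rw [← cp_compN, ← kick_rat A (fun j => pv (q j).1) (fun j => pv (q j).2)
      (fun j => (h𝒦p _ (hq𝒦 j)).1)]
    exact hA3

end Pool.Agent.H84.UC
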